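import Pool.Agent.P.MP_dba3d2_lc.E.Defs
import Pool.Agent.P.MP_dba3d2_lc.B.Axis2
import Pool.Agent.P.MP_dba3d2_lc.G.Tb
import Pool.Agent.P.MP_dba3d2_lc.C.Iface

/-! Toolbox for chapter E. -/

namespace Pool.Agent.P.MP_dba3d2_lc

open Filter

namespace ET

variable {Γ : HG} {a b : Amb}

section balls
variable {μ : a.K} {H W X B P : Subgroup (MM Γ a)}

theorem ll_of_not_mem_ball (hμ : Big μ) {h : MM Γ a} (hh : h ∉ ball Γ μ) : Ll μ (ln h) := by
  rw [mem_ball hμ.pos.le] at hh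
  rcases ll_or_ls hμ.pos (ln h) with k | k
  · exact (hh k.ls).elim
  · exact (not_ls_iff hμ.pos.le (k.pos hμ.pos)).1 hh

/-- a subgroup between `H ⊓ ball` and the ball is separated from `H` -/
theorem sep_of_le (hμ : Big μ) (h1 : H ⊓ ball Γ μ ≤ W) (h2 : W ≤ ball Γ μ) : Sep H W :=
  fun _ hh hn _ hw => Ll.ls_left ((mem_ball hμ.pos.le).1 (h2 hw))
    (ll_of_not_mem_ball hμ fun k => hn (h1 ⟨hh, k⟩))

theorem sep_ball (hμ : Big μ) (H : Subgroup (MM Γ a)) : Sep H (ball Γ μ) :=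
  sep_of_le hμ inf_le_right le_rfl

theorem inf_of_le (h1 : H ⊓ ball Γ μ ≤ W) (h2 : W ≤ ball Γ μ) : H ⊓ W = H ⊓ ball Γ μ :=
  le_antisymm (inf_le_inf_left _ h2) (le_inf inf_le_left h1)

theorem std_le_ball (hμ : Big μ) : std Γ a ≤ ball Γ μ :=
  (std_le_tiny hμ).trans (tiny_le_ball hμ.pos.le)

theorem cvx_ball (hμ : Big μ) : Cvx (ball Γ μ) := by
  refine ⟨std_le_ball hμ, fun h hh p hp => (mem_ball hμ.pos.le).2 ?_⟩
  have h1 := (mem_ball hμ.pos.le).1 hh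
  refine Ls.mono_left ?_ (h1.add (hμ.ll_of_not_big hp).ls)
  linarith [ds_nonneg p h]

theorem gc_ball (hC : S_CVX) (hμ : Big μ) : GC (ball Γ μ) := hC _ _ _ (cvx_ball hμ)

theorem gc0_trunc (hT : S_TRUNC) (hμ : Big μ) (hH : GC0 H) : GC0 (H ⊓ ball Γ μ) :=
  hT _ _ _ _ hH (std_le_ball hμ) (sep_ball hμ H)

theorem finC_of_finRed (h : FinRed P X W) (hX : X ≤ P) (hW : W ≤ P) (fX : FinC X) (fW : FinC W) :
    FinC P := by
  have key : ∀ Y : Subgroup (MM Γ a), Y ≤ P → FinC Y → ∀ K : Subgroup (MM Γ a), Finite K →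
      ∀ p ∈ P, (∀ k ∈ K, p⁻¹ * k * p ∈ Y) → ∃ p ∈ P, ∀ k ∈ K, p⁻¹ * k * p ∈ std Γ a := by
    intro Y hY fY K hK p hp hk
    have : Finite (K.map (MulAut.conj p⁻¹).toMonoidHom) :=
      Finite.of_equiv _ (K.equivMapOfInjective _ (MulAut.conj p⁻¹).injective).toEquiv
    obtain ⟨q, hq, h2⟩ := fY (K.map (MulAut.conj p⁻¹).toMonoidHom) (by
      rintro _ ⟨k, h1, rfl⟩
      simpa using hk k h1) this
    refine ⟨p * q, P.mul_mem hp (hY hq), fun k h1 => ?_⟩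
    have := h2 _ ⟨k, h1, rfl⟩
    simpa [mul_assoc] using this
  intro K hK hf
  obtain ⟨p, hp, k | k⟩ := h K hK hf
  · exact key X hX fX K hf p hp k
  · exact key W hW fW K hf p hp k

theorem gc_sup (hG : S_GRAFT) (hH : GC H) (hW : GC W) (hs : Sep H W) : GC (H ⊔ W) :=
  have o := (hG _ _ H W hH.toGC0 hW.toGC0 hs).1
  ⟨o.gc, finC_of_finRed o.fin le_sup_left le_sup_right hH.finc hW.finc⟩

/-- two reductions in a row -/
theorem red_two (o : TwoOut X W) (hB : B ≤ X) (hf : FinRed W B B) (hp : PerRed W B B) :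
    FinRed (X ⊔ W) X X ∧ PerRed (X ⊔ W) X X := by
  have lW : W ≤ X ⊔ W := le_sup_right
  constructor
  · intro K hK hfin
    obtain ⟨p, h0, k | k⟩ := o.fin K hK hfin
    · exact ⟨p, h0, Or.inl k⟩
    have : Finite (K.map (MulAut.conj p⁻¹).toMonoidHom) :=
      Finite.of_equiv _ (K.equivMapOfInjective _ (MulAut.conj p⁻¹).injective).toEquiv
    obtain ⟨q, hq, h2⟩ := hf (K.map (MulAut.conj p⁻¹).toMonoidHom) (by
      rintro _ ⟨x, h1, rfl⟩
      simpa using k x h1) this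
    refine ⟨p * q, (X ⊔ W).mul_mem h0 (lW hq), Or.inl fun x h1 => ?_⟩
    have := hB (h2.elim id id _ ⟨x, h1, rfl⟩)
    simpa [mul_assoc] using this
  · intro c hc pc f hfm hE hl
    obtain ⟨p, h0, k | k⟩ := o.per c hc pc f hfm hE hl
    · exact ⟨p, h0, Or.inl k⟩
    by_cases h1 : ∀ g ∈ W, g⁻¹ * (p⁻¹ * c * p) * g ∉ X
    · have e1 : p⁻¹ * f * p ∈ Ep (p⁻¹ * c * p) := mem_Ep_conj'.2 (by simpa [mul_assoc] using hE)
      have f1 := o.e3 _ k (pc.conj' p) h1 (p⁻¹ * f * p)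
        ((X ⊔ W).mul_mem ((X ⊔ W).mul_mem ((X ⊔ W).inv_mem h0) hfm) h0) e1
      obtain ⟨q, hq, h2⟩ := hp _ k (pc.conj' p) _ f1 e1 (by rwa [md_conj, md_conj])
      refine ⟨p * q, (X ⊔ W).mul_mem h0 (lW hq), Or.inl ?_⟩
      simpa [mul_assoc] using hB (h2.elim id id)
    · push Not at h1
      obtain ⟨g, hg, h2⟩ := h1
      refine ⟨p * g, (X ⊔ W).mul_mem h0 (lW hg), Or.inl ?_⟩
      simpa [mul_assoc] using h2

end balls

/-- homomorphisms on `B ⊔ ⟨u⟩` are determined by the generators -/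
theorem hom_ext_sup {M G ι : Type} [Group M] [Group G] {B : Subgroup M} {u : ι → M}
    {f g : ↥(B ⊔ Subgroup.closure (Set.range u)) →* G}
    (h1 : ∀ t : ↥(B ⊔ Subgroup.closure (Set.range u)), (t : M) ∈ B → f t = g t)
    (h2 : ∀ (t : ↥(B ⊔ Subgroup.closure (Set.range u))) i, (t : M) = u i → f t = g t) : f = g := by
  ext ⟨t, ht⟩
  have e : B ⊔ Subgroup.closure (Set.range u) = Subgroup.closure ((B : Set M) ∪ Set.range u) := by
    rw [Subgroup.closure_union, Subgroup.closure_eq]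
  have key : ∀ x (hx : x ∈ Subgroup.closure ((B : Set M) ∪ Set.range u)),
      f ⟨x, e ▸ hx⟩ = g ⟨x, e ▸ hx⟩ := by
    intro x hx
    induction hx using Subgroup.closure_induction with
    | mem x hx =>
      rcases hx with hx | ⟨i, rfl⟩
      · exact h1 _ hx
      · exact h2 _ i rfl
    | one => exact (map_one f).trans (map_one g).symm
    | mul x y hx hy ix iy =>
      exact (map_mul f ⟨x, e ▸ hx⟩ ⟨y, e ▸ hy⟩).trans
        ((congrArg₂ (· * ·) ix iy).trans (map_mul g ⟨x, e ▸ hx⟩ ⟨y, e ▸ hy⟩).symm)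
    | inv x hx ix =>
      exact (map_inv f ⟨x, e ▸ hx⟩).trans
        ((congrArg (·⁻¹) ix).trans (map_inv g ⟨x, e ▸ hx⟩).symm)
  exact key t (e ▸ ht)

theorem finOrder_coe {M : Type} [Group M] {T : Subgroup M} (t : T) :
    IsOfFinOrder (t : M) ↔ IsOfFinOrder t :=
  (Subtype.val_injective).isOfFinOrder_iff (f := T.subtype)

section lg
variable {ν : b.K}

/-- a subgroup of a ball as a group with a real length -/
noncomputable def lgOn (ν : b.K) (hν : Big ν) (T : Subgroup (MM Γ b)) (hT : T ≤ ball Γ ν) : LG where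
  W := T
  ℓ t := rl ν (ln (t : MM Γ b))
  l_one := (rtAt Γ ν hν).l_one
  l_inv g := (rtAt Γ ν hν).l_inv ⟨g, hT g.2⟩
  l_mul g h := (rtAt Γ ν hν).l_mul ⟨g, hT g.2⟩ ⟨h, hT h.2⟩

theorem lg_l (hν : Big ν) {T : Subgroup (MM Γ b)} (hT : T ≤ ball Γ ν) (t : T) :
    (lgOn ν hν T hT).ℓ t = rl ν (ln (t : MM Γ b)) := rfl

theorem lg_l_zero (hν : Big ν) {T : Subgroup (MM Γ b)} (hT : T ≤ ball Γ ν) (t : T) :
    (lgOn ν hν T hT).ℓ t = 0 ↔ Ll (ln (t : MM Γ b)) ν :=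
  rl_eq_zero_iff hν.pos (ln_nonneg _) (ls_ln hν ⟨t, hT t.2⟩)

theorem lg_d_zero (hν : Big ν) {T : Subgroup (MM Γ b)} (hT : T ≤ ball Γ ν) (s t : T) :
    (lgOn ν hν T hT).d s t = 0 ↔ Ll (ds (s : MM Γ b) t) ν :=
  lg_l_zero hν hT (s⁻¹ * t)

/-- real values only depend on the class modulo negligible errors -/
theorem rl_le_of_ll (hν : 0 < ν) {x y : b.K} (hx : Ls |x| ν) (hy : Ls |y| ν) (h : Ll (x - y) ν) :
    rl ν x ≤ rl ν y := by
  have := (rl_nonpos_iff hν (ls_abs_sub hx hy)).2 h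
  rw [rl_sub hν hx hy] at this
  linarith

theorem ll_of_rl_le (hν : 0 < ν) {x y : b.K} (hx : Ls |x| ν) (hy : Ls |y| ν)
    (h : rl ν x ≤ rl ν y) : Ll (x - y) ν :=
  (rl_nonpos_iff hν (ls_abs_sub hx hy)).1 (by rw [rl_sub hν hx hy]; linarith)

theorem ls_abs_sum {ι : Type} (s : Finset ι) (f : ι → b.K) (hν : 0 ≤ ν)
    (h : ∀ i ∈ s, Ls |f i| ν) : Ls |∑ i ∈ s, f i| ν :=
  Ls.mono_left (Finset.abs_sum_le_sum_abs _ _) (ls_sum s _ hν h)

theorem rl_sum {ι : Type} (s : Finset ι) (f : ι → b.K) (hν : 0 < ν)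
    (h : ∀ i ∈ s, Ls |f i| ν) : rl ν (∑ i ∈ s, f i) = ∑ i ∈ s, rl ν (f i) := by
  classical
  induction s using Finset.induction_on with
  | empty => simp [rl_zero]
  | insert i s hi ih =>
    rw [Finset.sum_insert hi, Finset.sum_insert hi,
      rl_add hν (h i (by simp)) (ls_abs_sum s f hν.le fun j hj => h j (by simp [hj])),
      ih fun j hj => h j (by simp [hj])]

theorem ls_real (hν : 0 ≤ ν) (r : ℝ) : Ls |(r : b.K) * ν| ν := by
  obtain ⟨n, hn⟩ := exists_nat_ge |r|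
  refine ⟨n, ?_⟩
  rw [abs_mul, abs_of_nonneg hν]
  refine mul_le_mul_of_nonneg_right ?_ hν
  have h1 : ((|r| : ℝ) : b.K) ≤ ((n : ℝ) : b.K) := Germ.const_le hn
  have h2 : ((|r| : ℝ) : b.K) = |(r : b.K)| := (Germ.const_abs r)
  rw [← h2]; exact h1

/-- a quantity of scale at most `ν` is a real multiple of `ν` up to a negligible error -/
theorem ll_sub_rl (hν : 0 < ν) {x : b.K} (hx : Ls |x| ν) : Ll |x - (rl ν x : b.K) * ν| ν := by
  have h := ls_real hν.le (rl ν x)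
  refine Ll.abs (ll_of_rl_le hν hx h (rl_real hν _).ge) ?_
  rw [neg_sub]
  exact ll_of_rl_le hν h hx (rl_real hν _).le

/-- approximation of a new length by an old one -/
theorem exists_old (E : Ext a b) {l : a.K} (hl : 0 < l) {x : b.K} (hx : Ls |x| (E.kh l)) :
    ∃ y : a.K, Ll |x - E.kh y| (E.kh l) :=
  ⟨(rl (E.kh l) x : a.K) * l, by
    rw [map_mul, E.kh_real]; exact ll_sub_rl ((GT.kh_pos E).2 hl) hx⟩

end lg

section phi
variable {μ : a.K} {R : RT} {φ : R.W ≃* ball Γ μ}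

theorem phi_d (hφ : ∀ g, R.ℓ g = rl μ (ln (φ g : MM Γ a))) (p q : R.W) :
    R.d p q = rl μ (ds (φ p : MM Γ a) (φ q)) := by
  rw [LG.d, hφ, map_mul, map_inv]; rfl

theorem phi_l_zero (hμ : Big μ) (hφ : ∀ g, R.ℓ g = rl μ (ln (φ g : MM Γ a))) (g : R.W) :
    R.ℓ g = 0 ↔ Ll (ln (φ g : MM Γ a)) μ := by
  rw [hφ]; exact rl_eq_zero_iff hμ.pos (ln_nonneg _) (ls_ln hμ _)

theorem phi_l_pos (hμ : Big μ) (hφ : ∀ g, R.ℓ g = rl μ (ln (φ g : MM Γ a))) (g : R.W) :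
    0 < R.ℓ g ↔ Ls μ (ln (φ g : MM Γ a)) := by
  rw [hφ]; exact rl_pos_iff hμ.pos (ls_ln hμ _)

theorem phi_d_zero (hμ : Big μ) (hφ : ∀ g, R.ℓ g = rl μ (ln (φ g : MM Γ a))) (p q : R.W) :
    R.d p q = 0 ↔ Ll (ds (φ p : MM Γ a) (φ q)) μ := by
  rw [phi_d hφ]; exact rt_d_zero hμ _ _

theorem phi_d_pos (hμ : Big μ) (hφ : ∀ g, R.ℓ g = rl μ (ln (φ g : MM Γ a))) (p q : R.W) :
    0 < R.d p q ↔ Ls μ (ds (φ p : MM Γ a) (φ q)) := by
  rw [phi_d hφ]; exact rt_d_pos hμ _ _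

theorem phi_d_ll (hμ : Big μ) (hφ : ∀ g, R.ℓ g = rl μ (ln (φ g : MM Γ a))) (p q : R.W) :
    Ll |ds (φ p : MM Γ a) (φ q) - (R.d p q : a.K) * μ| μ := by
  rw [phi_d hφ]; exact ll_sub_rl hμ.pos (ls_ds hμ _ _)

theorem phi_on (hμ : Big μ) (hφ : ∀ g, R.ℓ g = rl μ (ln (φ g : MM Γ a))) (p x y : R.W) :
    R.On p x y ↔ On μ (φ p : MM Γ a) (φ x) (φ y) := by
  rw [LG.On, phi_d hφ, phi_d hφ, phi_d hφ]; exact rt_on hμ _ _ _

theorem phi_stab (hμ : Big μ) (hφ : ∀ g, R.ℓ g = rl μ (ln (φ g : MM Γ a))) (p q g : R.W) :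
    R.Stab p q g ↔ Stab μ (φ p : MM Γ a) (φ q) (φ g) := by
  rw [LG.Stab, phi_d_zero hμ hφ, phi_d_zero hμ hφ, map_mul, map_mul]; rfl

theorem phi_per (hμ : Big μ) (hφ : ∀ g, R.ℓ g = rl μ (ln (φ g : MM Γ a))) (p q : R.W) :
    R.Per p q ↔ Per μ (φ p : MM Γ a) (φ q) := by
  rw [← rt_per hμ]
  constructor
  · rintro ⟨g, h1, h2⟩
    exact ⟨φ g, fun k => h1 ((φ.injective.isOfFinOrder_iff (f := φ.toMonoidHom)).1 k),
      (rt_stab hμ _ _ _).2 ((phi_stab hμ hφ _ _ _).1 h2)⟩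
  · rintro ⟨g, h1, h2⟩
    obtain ⟨g, rfl⟩ := φ.surjective g
    exact ⟨g, fun k => h1 ((φ.injective.isOfFinOrder_iff (f := φ.toMonoidHom)).2 k),
      (phi_stab hμ hφ _ _ _).2 ((rt_stab hμ _ _ _).1 h2)⟩

end phi

section einv
variable (E : Ext a b) (H : Subgroup (MM Γ a))

/-- the inverse of the embedding on the image of `H` -/
noncomputable def Einv : H.map (E.hom Γ) →* MM Γ a :=
  H.subtype.comp (H.equivMapOfInjective _ E.hom_injective).symm.toMonoidHom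

theorem hom_Einv (x : H.map (E.hom Γ)) : E.hom Γ (Einv E H x) = x := by
  obtain ⟨y, rfl⟩ := (H.equivMapOfInjective _ E.hom_injective).surjective x
  simp [Einv]

theorem Einv_eq (x : H.map (E.hom Γ)) {h : MM Γ a} (e : (x : MM Γ b) = E.hom Γ h) :
    Einv E H x = h := E.hom_injective ((hom_Einv E H x).trans e)

theorem Einv_mem (x : H.map (E.hom Γ)) : Einv E H x ∈ H := Subtype.property _

theorem map_ball_le {μ : a.K} (h0 : 0 ≤ μ) : (ball Γ μ).map (E.hom Γ) ≤ ball Γ (E.kh μ) := by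
  rintro _ ⟨g, hg, rfl⟩
  rw [mem_ball ((GT.kh_nonneg E).2 h0), E.ln_hom, E.ls_iff]
  exact (mem_ball h0).1 hg

theorem hom_mem_ball {μ : a.K} (h0 : 0 ≤ μ) {g : MM Γ a} :
    E.hom Γ g ∈ ball Γ (E.kh μ) ↔ g ∈ ball Γ μ := by
  rw [mem_ball ((GT.kh_nonneg E).2 h0), E.ln_hom, E.ls_iff, mem_ball h0]

theorem hom_std {g : MM Γ a} : E.hom Γ g ∈ std Γ b ↔ g ∈ std Γ a := by
  rw [mem_std_iff, mem_std_iff, E.ln_hom, E.big_iff]

end einv

/-- a common point of two segments is detected by the four cross distances -/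
theorem four {μ : a.K} {P X Y P' X' Y' : MM Γ a} (hμ : Big μ) (h : On μ P X Y) (h' : On μ P' X' Y')
    (h1 : Ll (ds X X' - (ds X P + ds X' P')) μ) (h2 : Ll (ds X Y' - (ds X P + ds Y' P')) μ)
    (h3 : Ll (ds Y X' - (ds Y P + ds X' P')) μ) (h4 : Ll (ds Y Y' - (ds Y P + ds Y' P')) μ) :
    Ll (ds P P') μ := by
  have key : ∀ Z Z' : MM Γ a, On μ P Z P' → On μ P' Z' Z →
      Ll (ds Z Z' - (ds Z P + ds Z' P')) μ → Ll (ds P P') μ := by
    intro Z Z' k1 k2 k3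
    refine Ll.mono_left (le_of_eq ?_) ((k1.add k2).add k3)
    rw [ds_comm Z' Z, ds_comm P' Z]; ring
  rcases h.cases hμ P' with k | k
  · rcases h'.cases hμ X with k' | k'
    · exact key _ _ k k' h1
    · exact key _ _ k k' h2
  · rcases h'.cases hμ Y with k' | k'
    · exact key _ _ k k' h3
    · exact key _ _ k k' h4

section expo
variable {c g : MM Γ a} (k : ℚ →+ a.Z)

theorem k_div (Γ : HG) (q : ℚ) : k q = (Γ.e : a.Z) * k (q / Γ.e) := by
  have h : (Γ.e : ℚ) ≠ 0 := Nat.cast_ne_zero.2 Γ.good.pos.ne'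
  rw [← nsmul_eq_mul, ← map_nsmul, nsmul_eq_mul, mul_div_cancel₀ _ h]

theorem ipow_k (c : MM Γ a) (q : ℚ) : ipow c (k q) = ipow (c ^ Γ.e) (k (q / Γ.e)) := by
  rw [k_div k Γ q, ipow_mul, ipow_natCast]

/-- divisible exponents are central in the elementary closure -/
theorem commute_k (h : g ∈ Ep c) (q : ℚ) : Commute g (ipow c (k q)) := by
  rw [ipow_k]; exact commute_ipow (mem_Ep.1 h) _

/-- divisible exponents are inverted by orientation reversing elements -/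
theorem invert_k (h : InE c g) (hn : g ∉ Ep c) (q : ℚ) :
    g * ipow c (k q) * g⁻¹ = ipow c (k (-q)) := by
  rcases h with h | h
  · exact (hn (mem_Ep.2 (mul_inv_eq_iff_eq_mul.1 h))).elim
  · rw [ipow_k, ← ipow_conj, h, ipow_inv, map_neg, ipow_neg, ipow_neg, ← ipow_k]

end expo

section ultra
variable {J : Type} (U : Ultrafilter J)

theorem mem_UT {T : J → Subgroup (MM Γ b)} {t : J → MM Γ b}
    (h : ∀ᶠ j in (U : Filter J), t j ∈ T j) : (b.mk' U t : MM Γ (b.pow U)) ∈ UT U T := by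
  classical
  refine ⟨fun j => if t j ∈ T j then t j else 1, fun j => ?_, (mk'_eq_iff U _ _).2 ?_⟩
  · dsimp only
    split_ifs with k
    exacts [k, (T j).one_mem]
  · filter_upwards [h] with j hj
    rw [if_pos hj]

theorem UT_rep {T : J → Subgroup (MM Γ b)} {x : MM Γ (b.pow U)} (h : x ∈ UT U T) :
    ∃ t : (j : J) → T j, x = b.mk' U fun j => (t j : MM Γ b) := by
  obtain ⟨t, ht, e⟩ := h
  exact ⟨fun j => ⟨t j, ht j⟩, e⟩

theorem mk'_mem_UT {T : J → Subgroup (MM Γ b)} (t : (j : J) → T j) :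
    (b.mk' U fun j => (t j : MM Γ b) : MM Γ (b.pow U)) ∈ UT U T := ⟨_, fun j => (t j).2, rfl⟩

theorem exists_UR (T : J → Subgroup (MM Γ b)) (ρ : (j : J) → T j →* MM Γ a) :
    ∃ R, IsUR U T ρ R := by
  choose t ht using fun x : UT U T => UT_rep U x.2
  have key : ∀ (s : (j : J) → T j) (x : UT U T),
      (x : MM Γ (b.pow U)) = b.mk' U (fun j => (s j : MM Γ b)) →
      (a.mk' U fun j => ρ j (t x j) : MM Γ (a.pow U)) = a.mk' U fun j => ρ j (s j) := by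
    intro s x e
    have := (mk'_eq_iff U _ _).1 ((ht x).symm.trans e)
    refine (mk'_eq_iff U _ _).2 ?_
    filter_upwards [this] with j hj
    rw [Subtype.ext hj]
  refine ⟨MonoidHom.mk' (fun x => a.mk' U fun j => ρ j (t x j)) fun x y => ?_, key⟩
  rw [key (fun j => t x j * t y j) (x * y) (by
    rw [Subgroup.coe_mul, ht x, ht y, ← mk'_mul]; rfl), ← mk'_mul]
  simp only [map_mul]

theorem pow_dg_kh (E : Ext a b) (x : a.K) :
    (E.pow U).kh ((a.dg U).kh x) = (b.dg U).kh (E.kh x) := by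
  rw [← mk'_kh, ← mk'_kh]; exact E.pow_mk' U fun _ => x

theorem pow_dg_hom (E : Ext a b) (x : MM Γ a) :
    (E.pow U).hom Γ ((a.dg U).hom Γ x) = (b.dg U).hom Γ (E.hom Γ x) := by
  rw [← mk'_hom, ← mk'_hom]; exact E.pow_mk' U fun _ => x

theorem pow_kh_mk' (E : Ext a b) (x : J → a.K) :
    (E.pow U).kh (a.mk' U x) = b.mk' U fun j => E.kh (x j) := E.pow_mk' U _

/-- negligible at every index implies negligible in the ultrapower -/
theorem ll_mk'_kh {x : J → a.K} {l : a.K} (h : ∀ᶠ j in (U : Filter J), Ll (x j) l) :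
    Ll (a.mk' U x) ((a.dg U).kh l) := fun n => by
  rw [← GT.nmul_mk', GT.mk'_le_kh]
  filter_upwards [h] with j hj using hj n

theorem ll_mk'_iff {x : J → a.K} {l : a.K} :
    Ll (a.mk' U x) ((a.dg U).kh l) ↔ ∀ n : ℕ, ∀ᶠ j in (U : Filter J), n * x j ≤ l := by
  refine forall_congr' fun n => ?_
  rw [← GT.nmul_mk', GT.mk'_le_kh]

theorem kh_ls_mk' {x : J → a.K} {l : a.K} :
    Ls ((a.dg U).kh l) (a.mk' U x) ↔ ∃ n : ℕ, ∀ᶠ j in (U : Filter J), l ≤ n * x j := by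
  refine exists_congr fun n => ?_
  rw [← GT.nmul_mk', GT.kh_le_mk']

theorem zK_mk' (k : J → a.Z) : zK (a := a.pow U) (a.mk' U k) = a.mk' U fun j => zK (k j) :=
  mk'_map U _ k

theorem abs_mk' (x : J → a.K) : |(a.mk' U x : (a.pow U).K)| = a.mk' U fun j => |x j| := by
  simp only [Germ.abs_def]
  exact mk'_map U _ x

end ultra

end ET

section rf
variable {Γ : HG} {a b : Amb} {E : Ext a b} {S : Subgroup (MM Γ a)} {θ : S →* MM Γ b}
  {T : Subgroup (MM Γ b)} {ρ : T →* MM Γ a}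

theorem Rf.rho (h : Rf E S θ T ρ) (s : S) : ρ ⟨θ s, h.mem s⟩ = s := h.sec s _ rfl

theorem Rf.inj (h : Rf E S θ T ρ) : Function.Injective θ := fun x y e =>
  Subtype.ext ((h.rho x).symm.trans (h.sec y _ e))

theorem Rf.std (h : Rf E S θ T ρ) (s : S) (hs : ¬ Big (ln (s : MM Γ a))) : θ s = E.hom Γ s := by
  obtain ⟨x, hx⟩ := mem_std_iff.2 hs
  rw [h.st s x hx.symm, ← hx, E.hom_cst]

theorem Rf.fin (h : Rf E S θ T ρ) (s : S) : IsOfFinOrder (θ s) ↔ IsOfFinOrder (s : MM Γ a) :=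
  h.inj.isOfFinOrder_iff.trans (ET.finOrder_coe s).symm

theorem Rf.memEp (h : Rf E S θ T ρ) (f c : S) :
    θ f ∈ Ep (θ c) ↔ (f : MM Γ a) ∈ Ep (c : MM Γ a) := by
  rw [mem_Ep, mem_Ep, Commute, Commute, SemiconjBy, SemiconjBy, ← map_pow, ← map_mul, ← map_mul,
    h.inj.eq_iff, Subtype.ext_iff]
  simp

theorem Rf.ls (h : Rf E S θ T ρ) (s : S) : Ls (ln (θ s)) (E.kh (ln (s : MM Γ a))) := by
  by_cases k : Big (ln (s : MM Γ a))
  · exact Ls.mono_left (by linarith) ((h.ni s k).ls.add (Ls.refl' _))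
  · rw [h.std s k, E.ln_hom]; exact Ls.refl' _

/-- lengths are preserved up to a negligible error -/
theorem Rf.len (h : Rf E S θ T ρ) (s0 w : S) (h0 : Big (ln (s0 : MM Γ a)))
    (hw : Ls (ln (w : MM Γ a)) (ln (s0 : MM Γ a))) :
    Ll |ln (θ w) - E.kh (ln (w : MM Γ a))| (E.kh (ln (s0 : MM Γ a))) := by
  have p0 := (E.big_iff.2 h0).pos.le
  have hw' := E.ls_iff.2 hw
  refine Ll.abs ?_ ?_
  · by_cases k : Big (ln (w : MM Γ a))
    · exact (h.ni w k).ls_right hw' p0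
    · rw [h.std w k, E.ln_hom, sub_self]; exact Ll.zero p0
  · have := h.lip s0 h0 ⟨θ w, h.mem w⟩ ((h.ls w).trans' hw')
    rwa [h.rho, ← neg_sub] at this

theorem Rf.sim (h : Rf E S θ T ρ) (s : S) : Sim (ln (θ s)) (E.kh (ln (s : MM Γ a))) := by
  refine ⟨h.ls s, ?_⟩
  by_cases k : Big (ln (s : MM Γ a))
  · have := h.len s s k (Ls.refl' _)
    refine Ls.of_le_add (Ls.refl' _) this (E.big_iff.2 k).pos 1 ?_
    have := neg_abs_le (ln (θ s) - E.kh (ln (s : MM Γ a)))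
    push_cast; linarith
  · rw [h.std s k, E.ln_hom]; exact Ls.refl' _

/-- the scale of a nondegenerate piece of a segment of the image is a scale of `S` -/
theorem Rf.scale (h : Rf E S θ T ρ) (s : S) {μ : b.K} {p q : MM Γ b} (hμ : Big μ)
    (hl : Ls (ln (θ s)) μ) (hp : On μ p 1 (θ s)) (hq : On μ q 1 (θ s)) (hn : Ls μ (ds p q)) :
    Sim μ (E.kh (ln (s : MM Γ a))) ∧ Big (ln (s : MM Γ a)) := by
  have k := On.nondeg hμ hp hq hn
  rw [ds_one_left] at k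
  have e : Sim μ (E.kh (ln (s : MM Γ a))) := Sim.trans' ⟨k, hl⟩ (h.sim s)
  exact ⟨e, E.big_iff.1 (hμ.of_ls e.1)⟩

end rf

end Pool.Agent.P.MP_dba3d2_lc
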