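import Pool.Agent.P.MP_dba3d2_lc.A.Defs2
import Pool.Agent.P.MP_dba3d2_lc.A.Bas2

/-! Definitions for chapter E: ultraproducts of subgroups, limit retractions, generic exponents. -/

namespace Pool.Agent.P.MP_dba3d2_lc

open Filter

variable {Γ : HG} {a b : Amb}

/-- the ultraproduct of a family of subgroups -/
def UT {J : Type} (U : Ultrafilter J) (T : J → Subgroup (MM Γ b)) : Subgroup (MM Γ (b.pow U)) where
  carrier := {g | ∃ t : J → MM Γ b, (∀ j, t j ∈ T j) ∧ g = b.mk' U t}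
  one_mem' := ⟨fun _ => 1, fun j => (T j).one_mem, by rw [mk'_hom, map_one]⟩
  mul_mem' := by
    rintro _ _ ⟨s, hs, rfl⟩ ⟨t, ht, rfl⟩
    exact ⟨fun j => s j * t j, fun j => (T j).mul_mem (hs j) (ht j), (mk'_mul U s t).symm⟩
  inv_mem' := by
    rintro _ ⟨s, hs, rfl⟩
    exact ⟨fun j => (s j)⁻¹, fun j => (T j).inv_mem (hs j), (mk'_inv U s).symm⟩

/-- `R` is the ultraproduct of the homomorphisms `ρ j` -/
def IsUR {J : Type} (U : Ultrafilter J) (T : J → Subgroup (MM Γ b))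
    (ρ : (j : J) → T j →* MM Γ a) (R : UT U T →* MM Γ (a.pow U)) : Prop :=
  ∀ (t : (j : J) → T j) (x : UT U T),
    (x : MM Γ (b.pow U)) = b.mk' U (fun j => (t j : MM Γ b)) → R x = a.mk' U fun j => ρ j (t j)

/-- `ρ` does not increase the length of `t`, up to a negligible error -/
def Lip (E : Ext a b) (T : Subgroup (MM Γ b)) (ρ : T →* MM Γ a) (t : T) : Prop :=
  (Big (ln (t : MM Γ b)) → Ll (E.kh (ln (ρ t)) - ln (t : MM Γ b)) (ln (t : MM Γ b))) ∧
    (¬ Big (ln (t : MM Γ b)) → ¬ Big (ln (ρ t)))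

/-- internal powers of `t` of scale at most `μ` lie in `T` and are sent to powers -/
def PowC (T : Subgroup (MM Γ b)) (ρ : T →* MM Γ a) (μ : b.K) (t : T) : Prop :=
  ∀ k : b.Z, Ls (|zK k| * md (t : MM Γ b)) μ →
    ∃ t' : T, (t' : MM Γ b) = ipow (t : MM Γ b) k ∧ ∃ k' : a.Z, ρ t' = ipow (ρ t) k'

/-- A section `θ` over `S` of a retraction `ρ`, both almost length preserving at the scales of `S`. -/
structure Rf (E : Ext a b) (S : Subgroup (MM Γ a)) (θ : S →* MM Γ b) (T : Subgroup (MM Γ b))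
    (ρ : T →* MM Γ a) : Prop where
  gc : GC S
  mem : ∀ s : S, θ s ∈ T
  sec : ∀ (s : S) (t : T), (t : MM Γ b) = θ s → ρ t = s
  st : ∀ (s : S) (x : Γ.G), (s : MM Γ a) = cst Γ a x → θ s = cst Γ b x
  ni : ∀ s : S, Big (ln (s : MM Γ a)) →
    Ll (ln (θ s) - E.kh (ln (s : MM Γ a))) (E.kh (ln (s : MM Γ a)))
  lip : ∀ s : S, Big (ln (s : MM Γ a)) → ∀ t : T, Ls (ln (t : MM Γ b)) (E.kh (ln (s : MM Γ a))) →
    Ll (E.kh (ln (ρ t)) - ln (t : MM Γ b)) (E.kh (ln (s : MM Γ a)))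
  tor : ∀ t : T, IsOfFinOrder t → ρ t = 1 → t = 1

/-- The extra properties of the limit retraction. -/
structure Rf2 (E : Ext a b) (S : Subgroup (MM Γ a)) (θ : S →* MM Γ b) (T : Subgroup (MM Γ b))
    (ρ : T →* MM Γ a) : Prop extends Rf E S θ T ρ where
  g2 : ∀ s s' : S, Big (ln (s : MM Γ a)) → Ls (ln (s' : MM Γ a)) (ln (s : MM Γ a)) → ∀ g p q,
    Ov (E.kh (ln (s : MM Γ a))) p q 1 (θ s) g (g * θ s') → ¬ Per (E.kh (ln (s : MM Γ a))) p q →
    g ∈ T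
  per : ∀ s : S, Big (ln (s : MM Γ a)) → ∀ p q d, Ls (E.kh (ln (s : MM Γ a))) (ds p q) →
    On (E.kh (ln (s : MM Γ a))) p 1 (θ s) → On (E.kh (ln (s : MM Γ a))) q 1 (θ s) → Prim d →
    Stab (E.kh (ln (s : MM Γ a))) p q d → ∃ t : T, (t : MM Γ b) = d ∧ ¬ IsOfFinOrder (ρ t)
  prim : ∀ s : S, Prim (s : MM Γ a) → Prim (θ s)

/-- `P` on the segment from `1` to `s` corresponds to `p` on the segment from `1` to `s'`. -/
structure Cor (E : Ext a b) (l : a.K) (s : MM Γ a) (s' : MM Γ b) (P : MM Γ a) (p : MM Γ b) :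
    Prop where
  dn : On l P 1 s
  up : On (E.kh l) p 1 s'
  eq : Ll |ln p - E.kh (ln P)| (E.kh l)

/-- a generic family of exponents: infinite, but just above the old scales -/
structure GenK (E : Ext a b) (k : ℚ →+ b.Z) : Prop where
  big : Big (zK (k 1))
  up : ∀ q, Ls |zK (k q)| (zK (k 1))
  lo : ∀ q, q ≠ 0 → Ls (zK (k 1)) |zK (k q)|
  gap : ∀ x ν : a.K, Ll x ν → Ll (zK (k 1) * E.kh x) (E.kh ν)

end Pool.Agent.P.MP_dba3d2_lc
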