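import Pool.Agent.P.MP_dba3d2_lc.E.Iface2
import Pool.Agent.P.MP_dba3d2_lc.A.Iface
import Pool.Agent.P.MP_dba3d2_lc.B.Axis2

/-! Step E_CHI of the stability project. -/

namespace Pool.Agent.P.MP_dba3d2_lc

open Filter

namespace E_chi

variable {Γ : HG} {a : Amb} {c f g h f' g' : MM Γ a}

theorem symm (k : IsOfFinOrder (f⁻¹ * g)) : IsOfFinOrder (g⁻¹ * f) := by
  have := isOfFinOrder_inv_iff.2 k
  rwa [mul_inv_rev, inv_inv] at this

theorem trans (hE : S_ELEM) (hc : ¬ IsOfFinOrder c) (hf : f ∈ Ep c) (hg : g ∈ Ep c) (hh : h ∈ Ep c)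
    (k1 : IsOfFinOrder (f⁻¹ * g)) (k2 : IsOfFinOrder (g⁻¹ * h)) : IsOfFinOrder (f⁻¹ * h) := by
  have := tors_mul hE hc (mul_mem (inv_mem hf) hg) (mul_mem (inv_mem hg) hh) k1 k2
  have e : f⁻¹ * g * (g⁻¹ * h) = f⁻¹ * h := by group
  rwa [e] at this

theorem mul (hE : S_ELEM) (hc : ¬ IsOfFinOrder c) (hf : f ∈ Ep c) (hg : g ∈ Ep c)
    (hf' : f' ∈ Ep c) (hg' : g' ∈ Ep c) (k1 : IsOfFinOrder (f⁻¹ * f'))
    (k2 : IsOfFinOrder (g⁻¹ * g')) : IsOfFinOrder ((f * g)⁻¹ * (f' * g')) := by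
  have := tors_mul hE hc (mul_mem (mul_mem (inv_mem hg) (mul_mem (inv_mem hf) hf')) hg)
    (mul_mem (inv_mem hg) hg') ((finOrder_conj' g _).2 k1) k2
  have e : g⁻¹ * (f⁻¹ * f') * g * (g⁻¹ * g') = (f * g)⁻¹ * (f' * g') := by group
  rwa [e] at this

theorem uniq (hE : S_ELEM) (hc : ¬ IsOfFinOrder c) (hf : f ∈ Ep c) {k l : a.Z}
    (k1 : IsOfFinOrder (f⁻¹ * ipow c k)) (k2 : IsOfFinOrder (f⁻¹ * ipow c l)) : k = l := by
  have := trans hE hc (ipow_mem_Ep c k) hf (ipow_mem_Ep c l) (symm k1) k2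
  rw [← ipow_neg, ← ipow_add] at this
  by_contra hne
  refine ipow_inf hE hc (fun e => hne ?_) this
  exact neg_add_eq_zero.1 e

end E_chi

open E_chi

theorem p_E_CHI (hELEM : S_ELEM) :
    S_E_CHI := by
  intro Γ a c hc
  classical
  choose! χ hχ using hc.2
  have key : ∀ f ∈ Ep c, ∀ k, χ f = k ↔ IsOfFinOrder (f⁻¹ * ipow c k) := fun f hf k =>
    ⟨fun e => e ▸ hχ f hf, fun e => uniq hELEM hc.1 hf (hχ f hf) e⟩
  have add : ∀ f ∈ Ep c, ∀ g ∈ Ep c, χ (f * g) = χ f + χ g := fun f hf g hg => by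
    rw [key _ (mul_mem hf hg), ipow_add]
    exact mul hELEM hc.1 hf hg (ipow_mem_Ep _ _) (ipow_mem_Ep _ _) (hχ f hf) (hχ g hg)
  have ker : ∀ f ∈ Ep c, χ f = 0 ↔ IsOfFinOrder f := fun f hf => by
    rw [key f hf, ipow_zero, mul_one, isOfFinOrder_inv_iff]
  have one : χ 1 = 0 := (ker 1 (one_mem _)).2 IsOfFinOrder.one
  have inv : ∀ f ∈ Ep c, χ f⁻¹ = - χ f := fun f hf => by
    have := add f hf f⁻¹ (inv_mem hf)
    rw [mul_inv_cancel, one] at this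
    exact (neg_eq_of_add_eq_zero_right this.symm).symm
  have pw : ∀ f ∈ Ep c, ∀ n : ℕ, χ (f ^ n) = (n : a.Z) * χ f := fun f hf n => by
    induction n with
    | zero => rw [pow_zero, one, Nat.cast_zero, zero_mul]
    | succ n ih => rw [pow_succ, add _ (pow_mem hf n) f hf, ih, Nat.cast_succ, add_mul, one_mul]
  have zpw : ∀ f ∈ Ep c, ∀ n : ℤ, χ (f ^ n) = (n : a.Z) * χ f := fun f hf n => by
    obtain ⟨m, rfl | rfl⟩ := n.eq_nat_or_neg
    · rw [zpow_natCast, pw f hf, Int.cast_natCast]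
    · rw [zpow_neg, zpow_natCast, inv _ (pow_mem hf m), pw f hf, Int.cast_neg, Int.cast_natCast,
        neg_mul]
  have ip : ∀ k, χ (ipow c k) = k := fun k => by
    rw [key _ (ipow_mem_Ep c k), inv_mul_cancel]
    exact IsOfFinOrder.one
  have c1 : χ c = 1 := by
    have := ip 1
    rwa [ipow_one] at this
  have ipf : ∀ f ∈ Ep c, ∀ k, ipow f k ∈ Ep c ∧ χ (ipow f k) = χ f * k := fun f hf k => by
    have m : ipow f k ∈ Ep c := mem_Ep.2 (commute_ipow (mem_Ep.1 hf).symm k).symm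
    refine ⟨m, ?_⟩
    have e1 := pow_sq_eq hELEM hc.1 hf (ipow_mem_Ep c (χ f)) (hχ f hf)
    have e2 := pw _ m (Γ.e * Γ.e)
    rw [← ipow_pow', e1, ipow_pow, ← ipow_mul, ip] at e2
    by_contra hne
    refine mul_ne_zero_Z (natCast_ne_zero_Z (a := a) (ee_ne_zero Γ)) (sub_ne_zero.2 hne) ?_
    rw [mul_sub, ← e2]
    ring
  refine ⟨χ, key, add, inv, ker, pw, zpw, ipf, ip, c1, fun f hf => ⟨fun hp => ?_, fun hp => ?_⟩⟩
  · obtain ⟨k, hk⟩ := hp.2 c (by rw [Ep_eq hELEM hc.1 hf hp.1]; exact self_mem_Ep c)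
    have e := (key _ (ipf f hf k).1 1).2 (by rw [ipow_one]; exact symm hk)
    rw [(ipf f hf k).2] at e
    exact unit_Z e
  · have sq : χ f * χ f = 1 := by rcases hp with e | e <;> rw [e] <;> ring
    have nt : ¬ IsOfFinOrder f := fun t => by
      rw [(ker f hf).2 t, mul_zero] at sq
      exact natCast_ne_zero_Z (a := a) one_ne_zero (by rw [Nat.cast_one, sq])
    refine ⟨nt, fun g hg => ⟨χ f * χ g, ?_⟩⟩
    rw [Ep_eq hELEM hc.1 hf nt] at hg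
    have m := ipf f hf (χ f * χ g)
    have e : χ (ipow f (χ f * χ g)) = χ g := by rw [m.2, ← mul_assoc, sq, one_mul]
    exact trans hELEM hc.1 hg (ipow_mem_Ep c (χ g)) m.1 (hχ g hg) (symm ((key _ m.1 _).1 e))

end Pool.Agent.P.MP_dba3d2_lc
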