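import Pool.Agent.P.MP_dba3d2_lc.E.Iface2
import Pool.Agent.P.MP_dba3d2_lc.E.Bas

/-! Step E_COR of the stability project. -/

namespace Pool.Agent.P.MP_dba3d2_lc

open Filter ET

namespace EcorA

variable {Γ : HG} {a b : Amb} {E : Ext a b} {S : Subgroup (MM Γ a)} {θ : S →* MM Γ b}
  {T : Subgroup (MM Γ b)} {ρ : T →* MM Γ a}

/-- the distance of two points of a segment from `1` -/
theorem seg {μ : a.K} (hμ : Big μ) {p q x : MM Γ a} (hp : On μ p 1 x) (hq : On μ q 1 x) :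
    Ll (ds p q - |ln p - ln q|) μ ∧ |ln p - ln q| ≤ ds p q := by
  constructor
  · refine ((Ll.add hp hq).add (hμ.ll_delta Γ).two).mono_left ?_
    have := close_le 1 x p q
    simp only [ds_one_left] at this ⊢
    linarith
  · have h1 := ds_tri 1 p q
    have h2 := ds_tri 1 q p
    simp only [ds_one_left] at h1 h2
    rw [ds_comm q p] at h2
    exact abs_le.2 ⟨by linarith, by linarith⟩

/-- the distances to `z` and to its image agree -/
def Gd (E : Ext a b) (θ : S →* MM Γ b) (l : a.K) (z : S) (P : MM Γ a) (p : MM Γ b) : Prop :=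
  Ll |ds (θ z) p - E.kh (ds (z : MM Γ a) P)| (E.kh l) ∧ Ls (ds (z : MM Γ a) P) l

theorem Gd.up {l : a.K} {z : S} {P : MM Γ a} {p : MM Γ b} (h : Gd E θ l z P p) :
    Ls (ds (θ z) p) (E.kh l) :=
  (h.1.ls.add (E.ls_iff.2 h.2)).mono_left (by
    linarith [le_abs_self (ds (θ z) p - E.kh (ds (z : MM Γ a) P))])

theorem ends (h : Rf E S θ T ρ) {s0 s : S} (h0 : Big (ln (s0 : MM Γ a)))
    (hs : Ls (ln (s : MM Γ a)) (ln (s0 : MM Γ a))) {P : MM Γ a} {p : MM Γ b}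
    (c : Cor E (ln (s0 : MM Γ a)) s (θ s) P p) :
    Gd E θ (ln (s0 : MM Γ a)) 1 P p ∧ Gd E θ (ln (s0 : MM Γ a)) s P p := by
  have hs' : Ls (ds 1 (s : MM Γ a)) (ln (s0 : MM Γ a)) := by rwa [ds_one_left]
  refine ⟨⟨by simpa using c.eq, c.dn.ls_left hs'⟩, ?_, by rw [ds_comm]; exact c.dn.ls_right hs'⟩
  have h1 := h.len s0 s h0 hs
  have h2 : Ll (ds 1 p + ds p (θ s) - ds 1 (θ s)) _ := c.up
  have h3 := E.ll_iff.2 (show Ll (ds 1 P + ds P s - ds 1 (s : MM Γ a)) _ from c.dn)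
  have h4 := ds_tri 1 p (θ s)
  have h5 := E.kh_le.2 (ds_tri 1 P (s : MM Γ a))
  simp only [ds_one_left, map_add, map_sub] at h2 h3 h4 h5
  refine (((h1.add h2).add h3).add c.eq).mono_left ?_
  rw [ds_comm (θ s), ds_comm (s : MM Γ a)]
  have a1 := abs_le.1 (le_refl |ln (θ s) - E.kh (ln (s : MM Γ a))|)
  have a2 := abs_le.1 (le_refl |ln p - E.kh (ln P)|)
  exact abs_le.2 ⟨by linarith [a1.1, a2.2], by linarith [a1.2, a2.1]⟩

theorem down (h : Rf E S θ T ρ) {s0 z z' : S} (h0 : Big (ln (s0 : MM Γ a))) {P P' : MM Γ a}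
    {p p' : MM Γ b} (g : Gd E θ (ln (s0 : MM Γ a)) z P p) (g' : Gd E θ (ln (s0 : MM Γ a)) z' P' p')
    (t : T) (ht : Ll (ds p ((t : MM Γ b) * p')) (E.kh (ln (s0 : MM Γ a)))) :
    Ll (ds (z : MM Γ a) (ρ t * (z' : MM Γ a)) -
      (ds (z : MM Γ a) P + ds (ρ t * (z' : MM Γ a)) (ρ t * P'))) (ln (s0 : MM Γ a)) := by
  let u : T := (⟨θ z, h.mem z⟩ : T)⁻¹ * (t * ⟨θ z', h.mem z'⟩)
  have e1 : ln (u : MM Γ b) = ds (θ z) (t * θ z') := rfl
  have e2 : ln (ρ u) = ds (z : MM Γ a) (ρ t * z') := by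
    rw [map_mul, map_mul, map_inv, h.rho, h.rho, ds]
  have b1 : ds (θ z) (t * θ z') ≤ ds (θ z) p + ds p (t * p') + ds (θ z') p' := by
    have a1 := ds_tri (θ z) p (t * θ z')
    have a2 := ds_tri p (t * p') (t * θ z')
    rw [ds_mul_left, ds_comm p'] at a2
    linarith
  have h1 := h.lip s0 h0 u (by
    rw [e1]
    exact ((g.up.add ht.ls).add g'.up).mono_left b1)
  rw [e1, e2] at h1
  rw [← E.ll_iff, ds_mul_left, map_sub, map_add]
  refine (((h1.add ht).add g.1).add g'.1).mono_left ?_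
  linarith [le_abs_self (ds (θ z) p - E.kh (ds (z : MM Γ a) P)),
    le_abs_self (ds (θ z') p' - E.kh (ds (z' : MM Γ a) P'))]

theorem upp (h : Rf E S θ T ρ) {s0 z z' : S} (h0 : Big (ln (s0 : MM Γ a))) {P P' : MM Γ a}
    {p p' : MM Γ b} (g : Gd E θ (ln (s0 : MM Γ a)) z P p) (g' : Gd E θ (ln (s0 : MM Γ a)) z' P' p')
    (y : S) (hy : Ll (ds P ((y : MM Γ a) * P')) (ln (s0 : MM Γ a))) :
    Ll (ds (θ z) (θ y * θ z') - (ds (θ z) p + ds (θ y * θ z') (θ y * p')))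
      (E.kh (ln (s0 : MM Γ a))) := by
  have e1 : ln ((z⁻¹ * (y * z') : S) : MM Γ a) = ds (z : MM Γ a) (y * z') := rfl
  have e2 : ln (θ (z⁻¹ * (y * z'))) = ds (θ z) (θ y * θ z') := by
    rw [map_mul, map_mul, map_inv, ds]
  have b1 : ds (z : MM Γ a) (y * z') ≤
      ds (z : MM Γ a) P + ds P (y * P') + ds (z' : MM Γ a) P' := by
    have a1 := ds_tri (z : MM Γ a) P (y * z')
    have a2 := ds_tri P (y * P') (y * z')
    rw [ds_mul_left, ds_comm P'] at a2
    linarith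
  have h1 := h.len s0 (z⁻¹ * (y * z')) h0 (by
    rw [e1]
    exact ((g.2.add hy.ls).add g'.2).mono_left b1)
  rw [e1, e2] at h1
  have b2 := E.kh_le.2 b1
  rw [map_add, map_add] at b2
  rw [ds_mul_left]
  refine (((h1.add (E.ll_iff.2 hy)).add g.1).add g'.1).mono_left ?_
  linarith [neg_abs_le (ds (θ z) p - E.kh (ds (z : MM Γ a) P)),
    neg_abs_le (ds (θ z') p' - E.kh (ds (z' : MM Γ a) P')),
    le_abs_self (ds (θ z) (θ y * θ z') - E.kh (ds (z : MM Γ a) (y * z')))]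

end EcorA

open EcorA in
theorem p_E_COR :
    S_E_COR := by
  intro Γ a b E S θ T ρ h s0 h0 l s hs
  have hμ : Big (E.kh l) := E.big_iff.2 h0
  refine ⟨fun p hp => ?_, fun P p Q q c c' => ?_, fun s' hs' P p P' p' c c' => ?_⟩
  · have h1 : Ls |ln p| (E.kh l) := by
      rw [abs_of_nonneg (ln_nonneg p), ← ds_one_left]
      exact hp.ls_left (by rw [ds_one_left]; exact (h.ls s).trans' (E.ls_iff.2 hs))
    obtain ⟨y, hy⟩ := exists_old E h0.pos h1
    obtain ⟨t, t0, t1, t2⟩ : ∃ t : a.K, 0 ≤ t ∧ t ≤ ln (s : MM Γ a) ∧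
        Ll |ln p - E.kh t| (E.kh l) := by
      rcases le_total y 0 with k | k
      · refine ⟨0, le_rfl, ln_nonneg _, hy.mono_left ?_⟩
        have := E.kh_le.2 k
        rw [map_zero] at this ⊢
        rw [sub_zero, abs_of_nonneg (ln_nonneg p)]
        linarith [le_abs_self (ln p - E.kh y)]
      rcases le_total y (ln (s : MM Γ a)) with k' | k'
      · exact ⟨y, k, k', hy⟩
      · refine ⟨_, ln_nonneg _, le_rfl, Ll.abs ?_ (hy.mono_left ?_)⟩
        · have a1 := hp.le_left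
          simp only [ds_one_left] at a1
          refine (a1.add (h.len s0 s h0 hs)).mono_left ?_
          linarith [le_abs_self (ln (θ s) - E.kh (ln (s : MM Γ a)))]
        · linarith [E.kh_le.2 k', neg_abs_le (ln p - E.kh y)]
    obtain ⟨P, a1, a2, a3, -⟩ := exists_on h0 1 (s : MM Γ a) t t0 (by rwa [ds_one_left])
    refine ⟨P, a1, hp, (t2.add hμ.ll_one).mono_left ?_⟩
    have b2 := E.kh_le.2 a2
    have b3 := E.kh_le.2 a3
    rw [ds_one_left] at b2 b3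
    rw [map_add, map_one] at b3
    have := abs_le.1 (le_refl |ln p - E.kh t|)
    exact abs_le.2 ⟨by linarith [this.1], by linarith [this.2]⟩
  · obtain ⟨a1, a2⟩ := seg hμ c.up c'.up
    obtain ⟨b1, b2⟩ := seg h0 c.dn c'.dn
    have b3 := E.ll_iff.2 b1
    have b4 := E.kh_le.2 b2
    rw [map_sub, E.kh_abs, map_sub] at b3
    rw [E.kh_abs, map_sub] at b4
    have k : |(|ln p - ln q| - |E.kh (ln P) - E.kh (ln Q)|)| ≤
        |ln p - E.kh (ln P)| + |ln q - E.kh (ln Q)| := by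
      refine (abs_abs_sub_abs_le_abs_sub _ _).trans ?_
      rw [show ln p - ln q - (E.kh (ln P) - E.kh (ln Q)) =
        ln p - E.kh (ln P) - (ln q - E.kh (ln Q)) by ring]
      exact abs_sub _ _
    have k' := abs_le.1 k
    exact Ll.abs (((a1.add c.eq).add c'.eq).mono_left (by linarith [k'.2]))
      (((b3.add c.eq).add c'.eq).mono_left (by linarith [k'.1]))
  · obtain ⟨g1, g2⟩ := ends h h0 hs c
    obtain ⟨g3, g4⟩ := ends h h0 hs' c'
    refine ⟨fun t ht => ?_, fun y hy => ?_⟩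
    · exact four h0 c.dn (c'.dn.mul (ρ t)) (down h h0 g1 g3 t ht) (down h h0 g1 g4 t ht)
        (down h h0 g2 g3 t ht) (down h h0 g2 g4 t ht)
    · have e : θ 1 = 1 := map_one θ
      exact four hμ (e ▸ c.up) ((e ▸ c'.up : On _ p' (θ 1) (θ s')).mul (θ y))
        (upp h h0 g1 g3 y hy) (upp h h0 g1 g4 y hy) (upp h h0 g2 g3 y hy) (upp h h0 g2 g4 y hy)

end Pool.Agent.P.MP_dba3d2_lc
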