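import Pool.Agent.P.MP_dba3d2_lc.A.Defs2

/-! Interface, chapter E: generic micro letters, reflection and one scale. -/

namespace Pool.Agent.P.MP_dba3d2_lc

open Filter

-- deps: EXTGC GMIC E_GL E_GLX E_LIP
-- imports: Pool.Agent.P.MP_dba3d2_lc.E.Bas
def S_MICL : Prop := ∀ (Γ : HG) (r : ℕ) (K : Fin r → Subgroup Γ.G), (∀ i, Legal Γ (K i)) →
  ∃ t : Fin r → ℕ → Γ.G, (∀ i n, ∀ k ∈ K i, Commute (t i n) k) ∧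
  ∀ (a : Amb) (H : Subgroup (MM Γ a)), GC0 H →
    let E := a.dg U0
    let u : Fin r → MM Γ (a.pow U0) := fun i => a.mk' U0 fun n => cst Γ a (t i n)
    let T := H.map (E.hom Γ) ⊔ Subgroup.closure (Set.range u)
    GC0 T ∧ (FinC H → FinC T) ∧ ExtL (H.map (E.hom Γ)) u ∧
    (∀ i, ∀ x ∈ H.map (E.hom Γ), (u i)⁻¹ * x * u i ∈ H.map (E.hom Γ) →
      x ∈ (K i).map (cst Γ (a.pow U0))) ∧
    (∀ i (ν : a.K), Big ν → Ll (ln (u i)) (E.mp ν)) ∧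
    (∀ c ∈ H.map (E.hom Γ), Prim c → ∀ f ∈ T, f ∈ Ep c → f ∈ H.map (E.hom Γ)) ∧
    ∀ ρ : T →* MM Γ a, (∀ (t : T) (h : MM Γ a), (t : MM Γ (a.pow U0)) = E.hom Γ h → ρ t = h) →
      (∀ (t : T) i, (t : MM Γ (a.pow U0)) = u i → ρ t = 1) → ∀ n, Retr E T ρ n

-- deps: EXTGC E_SZ E_GE E_EXC E_ME1 E_ME2 E_LIP
-- imports: Pool.Agent.P.MP_dba3d2_lc.E.Bas
def S_MICE : Prop := ∀ (Γ : HG) (a : Amb) (H : Subgroup (MM Γ a)) (c : MM Γ a), GC0 H → c ∈ H →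
  Prim c → ∃ κ : ℚ → ℕ → ℤ, ∃ k : ℚ →+ (a.pow U0).Z,
    (∀ q, k q = a.mk' U0 fun n => (κ q n : a.Z)) ∧
    let E := a.dg U0
    let T := H.map (E.hom Γ) ⊔ Subgroup.closure (Set.range fun q => ipow (E.hom Γ c) (k q))
    GC0 T ∧ (FinC H → FinC T) ∧ ExtE (H.map (E.hom Γ)) (E.hom Γ c) k ∧
    (∀ q, q ≠ 0 → ipow (E.hom Γ c) (k q) ∉ H.map (E.hom Γ)) ∧
    (∀ q (ν : a.K), Ll (md c) ν → Ll (md (ipow (E.hom Γ c) (k q))) (E.mp ν)) ∧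
    (∀ g ∈ T, Big (ln g) → ∃ h ∈ H, Sim (ln g) (E.mp (ln h)) ∨ Ls (ln g) (zK (k 1) * E.mp (md c))) ∧
    ∀ ρ : T →* MM Γ a, (∀ (t : T) (h : MM Γ a), (t : MM Γ (a.pow U0)) = E.hom Γ h → ρ t = h) →
      (∀ (t : T) q, (t : MM Γ (a.pow U0)) = ipow (E.hom Γ c) (k q) → ρ t = 1) → ∀ n, Retr E T ρ n

-- deps: E_LIM E_G2U E_PU E_PW E_PRJ E_TG2 E_TEX E_TCEN
-- imports: Pool.Agent.P.MP_dba3d2_lc.E.Bas
def S_REFL0 : Prop := ∀ (Γ : HG) (a b : Amb) (E : Ext a b) (S : Subgroup (MM Γ a))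
  (D : Set (MM Γ a)) (J : Type) (U : Ultrafilter J) (A : J → Finset (MM Γ a)) (n : J → ℕ)
  (T : J → Subgroup (MM Γ b)) (ι : (j : J) → MM Γ a → T j) (ρ : (j : J) → T j →* MM Γ a),
  GC S → (∀ s ∈ S, ∀ᶠ j in (U : Filter J), s ∈ A j) → Tendsto n (U : Filter J) atTop →
  (∀ j, Adm E (A j) D (n j) (T j) (ι j) (ρ j)) →
  ∃ θ : S →* MM Γ (b.pow U), Function.Injective θ ∧ GC θ.range ∧
    (∀ s : S, θ s = b.mk' U fun j => (ι j s : MM Γ b)) ∧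
    ∀ s : S, Sim (ln (θ s)) ((b.dg U).mp (E.mp (ln (s : MM Γ a))))

-- deps: REFL0
-- imports: Pool.Agent.P.MP_dba3d2_lc.E.Bas
def S_REFL2 : Prop := ∀ (Γ : HG) (a b : Amb) (E : Ext a b) (S : Subgroup (MM Γ a)) (m k : ℕ)
  (Q : (Fin m ⊕ Fin k → Γ.G) → Prop) (h : Fin m → MM Γ a) (x : Fin k → MM Γ a),
  GC S → Tr Q → (∀ i, h i ∈ S) → (∀ i, x i ∈ S) → St Q (Sum.elim h x) →
  ∃ (A : Finset (MM Γ a)) (n : ℕ), (∀ w ∈ A, w ∈ S) ∧ (∀ i, x i ∈ A) ∧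
    ∀ (T : Subgroup (MM Γ b)) (ι : MM Γ a → T) (ρ : T →* MM Γ a),
      Adm E A (Set.range h) n T ι ρ →
      St Q (Sum.elim (fun i => E.hom Γ (h i)) fun i => (ι (x i) : MM Γ b))

-- deps: CVX EXTGC REFL0 GRAFT GISO
-- imports: Pool.Agent.P.MP_dba3d2_lc.E.Bas
def S_REFL1 : Prop := ∀ (Γ : HG) (a b : Amb) (E : Ext a b) (H : Subgroup (MM Γ a)) (μ : a.K)
  (m k : ℕ) (Q : (Fin m ⊕ Fin k → Γ.G) → Prop) (h : Fin m → MM Γ a) (x : Fin k → MM Γ a),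
  GC H → Big μ → Tr Q → (∀ i, h i ∈ H) → (∀ i, x i ∈ ball Γ μ) → St Q (Sum.elim h x) →
  ∃ (A : Finset (MM Γ a)) (n : ℕ), (∀ w ∈ A, w ∈ ball Γ μ) ∧ (∀ i, x i ∈ A) ∧
    ∀ (T : Subgroup (MM Γ b)) (ι : MM Γ a → T) (ρ : T →* MM Γ a),
      Adm E A H n T ι ρ →
      St Q (Sum.elim (fun i => E.hom Γ (h i)) fun i => (ι (x i) : MM Γ b))

-- deps: EXTGC GRAFT GISO
-- imports: Pool.Agent.P.MP_dba3d2_lc.E.Bas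
def S_MOVE : Prop := ∀ (Γ : HG) (a b : Amb) (E : Ext a b) (H : Subgroup (MM Γ a)) (μ : a.K)
  (m k : ℕ) (Q : (Fin m ⊕ Fin k → Γ.G) → Prop) (h : Fin m → MM Γ a) (x : Fin k → MM Γ a)
  (T : Subgroup (MM Γ b)) (σ : T →* T) (y : Fin k → T),
  GC H → Big μ → Tr Q → (∀ i, h i ∈ H) → NMin Q h μ x → GC T → T ≤ ball Γ (E.mp μ) →
  (H ⊓ ball Γ μ).map (E.hom Γ) ≤ T → Function.Bijective σ →
  (∀ t : T, (t : MM Γ b) ∈ H.map (E.hom Γ) → σ t = t) →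
  St Q (Sum.elim (fun i => E.hom Γ (h i)) fun i => (y i : MM Γ b)) →
  Ll (E.mp (tl x) - tl fun i => (σ (y i) : MM Γ b)) (E.mp μ)

-- deps: FRAME CVX MICL E_END
-- imports: Pool.Agent.P.MP_dba3d2_lc.E.Bas
def S_NO1 : Prop := ∀ (Γ : HG) (a : Amb) (H : Subgroup (MM Γ a)) (μ : a.K) (m k : ℕ)
  (Q : (Fin m ⊕ Fin k → Γ.G) → Prop) (h : Fin m → MM Γ a) (x : Fin k → ball Γ μ),
  GC H → Big μ → Tr Q → (∀ i, h i ∈ H) → NMin Q h μ (fun i => (x i : MM Γ a)) →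
  ∃ A0 : Finset (MM Γ a), (∀ w ∈ A0, w ∈ ball Γ μ) ∧
    ∀ (R : RT) (φ : R.W ≃* ball Γ μ), (∀ g, R.ℓ g = rl μ (ln (φ g : MM Γ a))) →
    ∀ A : Finset R.W, (∀ w : R.W, (φ w : MM Γ a) ∈ A0 → w ∈ A) →
      ¬ Out1 R.toLG ((H.subgroupOf (ball Γ μ)).comap φ.toMonoidHom) A fun i => φ.symm (x i)

-- deps: ELEM LINE CVX MICE E_END E_ORI
-- imports: Pool.Agent.P.MP_dba3d2_lc.E.Bas
def S_NO2 : Prop := ∀ (Γ : HG) (a : Amb) (H : Subgroup (MM Γ a)) (μ : a.K) (m k : ℕ)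
  (Q : (Fin m ⊕ Fin k → Γ.G) → Prop) (h : Fin m → MM Γ a) (x : Fin k → ball Γ μ),
  GC H → Big μ → Tr Q → (∀ i, h i ∈ H) → NMin Q h μ (fun i => (x i : MM Γ a)) →
  ∃ A0 : Finset (MM Γ a), (∀ w ∈ A0, w ∈ ball Γ μ) ∧
    ∀ (R : RT) (φ : R.W ≃* ball Γ μ), (∀ g, R.ℓ g = rl μ (ln (φ g : MM Γ a))) →
    ∀ A : Finset R.W, (∀ w : R.W, (φ w : MM Γ a) ∈ A0 → w ∈ A) →
      ¬ Out2 R.toLG ((H.subgroupOf (ball Γ μ)).comap φ.toMonoidHom) A fun i => φ.symm (x i)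

-- deps: FRAME GMAC CVX EXTGC LET E_END E_LIP
-- imports: Pool.Agent.P.MP_dba3d2_lc.E.Bas
def S_NO3 : Prop := ∀ (Γ : HG) (a : Amb) (H : Subgroup (MM Γ a)) (μ : a.K) (m k : ℕ)
  (Q : (Fin m ⊕ Fin k → Γ.G) → Prop) (h : Fin m → MM Γ a) (x : Fin k → ball Γ μ),
  GC H → Big μ → Tr Q → (∀ i, h i ∈ H) → NMin Q h μ (fun i => (x i : MM Γ a)) →
  ∃ A0 : Finset (MM Γ a), (∀ w ∈ A0, w ∈ ball Γ μ) ∧
    ∀ (R : RT) (φ : R.W ≃* ball Γ μ), (∀ g, R.ℓ g = rl μ (ln (φ g : MM Γ a))) →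
    ∀ A : Finset R.W, (∀ w : R.W, (φ w : MM Γ a) ∈ A0 → w ∈ A) →
      ¬ Out3 R.toLG ((H.subgroupOf (ball Γ μ)).comap φ.toMonoidHom) A fun i => φ.symm (x i)

-- deps: RTA MACH NO1 NO2 NO3
-- imports: Pool.Agent.P.MP_dba3d2_lc.E.Bas
def S_S1 : Prop := ∀ (Γ : HG) (a : Amb) (H : Subgroup (MM Γ a)) (μ : a.K) (m k : ℕ)
  (Q : (Fin m ⊕ Fin k → Γ.G) → Prop) (h : Fin m → MM Γ a) (x : Fin k → MM Γ a),
  GC H → Big μ → Tr Q → (∀ i, h i ∈ H) → (∀ i, x i ∈ ball Γ μ) → NMin Q h μ x →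
  ∀ i, Cov μ H (x i)

end Pool.Agent.P.MP_dba3d2_lc
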