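import Pool.Agent.P.MP_dba3d2_lc.E.Iface2
import Pool.Agent.P.MP_dba3d2_lc.E.Iface
import Pool.Agent.P.MP_dba3d2_lc.E.Bas

/-! Step E_END of the stability project. -/

namespace Pool.Agent.P.MP_dba3d2_lc

open Filter

namespace E_end

variable {b : Amb} {ν x y : b.K}

theorem ls_nmul (hx : Ls |x| ν) (n : ℕ) : Ls |(n : b.K) * x| ν := by
  rw [abs_mul, Nat.abs_cast]
  exact hx.nat_mul n

theorem rl_nmul (hν : 0 < ν) (hx : Ls |x| ν) (n : ℕ) : rl ν (n * x) = n * rl ν x := by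
  have := ET.rl_sum (Finset.range n) (fun _ => x) hν fun _ _ => hx
  simpa using this

theorem nmul_le (hν : 0 < ν) (hx : Ls |x| ν) (hy : Ls |y| ν) (n : ℕ)
    (h : n * rl ν x < (n + 1) * rl ν y) : (n : b.K) * x - (n + 1) * y ≤ 0 := by
  by_contra e
  have e' : ((n + 1 : ℕ) : b.K) * y ≤ n * x := by
    push_cast
    linarith
  have := rl_mono hν (ls_nmul hy _) (ls_nmul hx _) e'
  rw [rl_nmul hν hy, rl_nmul hν hx] at this
  push_cast at this
  linarith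

theorem exists_eta {ι : Type} (A : Finset ι) (f : ι → ℝ) (n : ℕ) :
    ∃ η : ℝ, 0 < η ∧ ∀ w ∈ A, 0 < f w → n * η < f w := by
  have h : ∀ᶠ η in nhdsWithin (0 : ℝ) (Set.Ioi 0), ∀ w ∈ A, 0 < f w → n * η < f w := by
    refine (eventually_all_finset A).2 fun w _ => ?_
    by_cases hw : 0 < f w
    · have c : Tendsto (fun η : ℝ => n * η) (nhds 0) (nhds (n * 0)) := tendsto_id.const_mul _
      rw [mul_zero] at c
      exact ((c.eventually (gt_mem_nhds hw)).filter_mono nhdsWithin_le_nhds).mono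
        fun η k _ => k
    · exact Eventually.of_forall fun η k => absurd k hw
  obtain ⟨η, h1, h2⟩ := (h.and self_mem_nhdsWithin).exists
  exact ⟨η, h2, h1⟩

end E_end

open E_end ET in
theorem p_E_END (hREFL1 : S_REFL1) (hMOVE : S_MOVE) :
    S_E_END := by
  classical
  intro Γ a b E H μ m k Q h x hH hμ hQ hh hx
  obtain ⟨A0, n, hA0, hxA, HR⟩ := hREFL1 Γ a b E H μ m k Q h (fun i => (x i : MM Γ a)) hH hμ hQ hh
    (fun i => (x i).2) hx.1
  obtain ⟨η, hη, hη'⟩ := exists_eta A0 (fun w => rl μ (ln w)) n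
  refine ⟨A0, η, hA0, hη, ?_⟩
  intro R φ hφ A hA T ψ ρ σ hT hTb hHT hρ hmul hfix hsec hlen hσ hσf
  have hν : Big (E.kh μ) := E.big_iff.2 hμ
  obtain ⟨ι, hι⟩ : ∃ ι : MM Γ a → T, ∀ g : R.W, ι (φ g) = ψ g :=
    ⟨fun w => if hw : w ∈ ball Γ μ then ψ (φ.symm ⟨w, hw⟩) else 1, fun g => by
      simp only [dif_pos (φ g).2, Subtype.coe_eta, MulEquiv.symm_apply_apply]⟩
  have rep : ∀ w ∈ A0, ∃ g ∈ A, (φ g : MM Γ a) = w := fun w hw =>
    ⟨φ.symm ⟨w, hA0 w hw⟩, hA _ (by simpa using hw), by simp⟩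
  have lT : ∀ t : T, Ls |ln (t : MM Γ b)| (E.kh μ) := fun t => ls_ln hν ⟨t, hTb t.2⟩
  have lE : ∀ g : ball Γ μ, Ls |E.kh (ln (g : MM Γ a))| (E.kh μ) := fun g => by
    rw [← E.kh_abs]; exact E.ls_iff.2 (ls_ln hμ g)
  have hS := HR T ι ρ ⟨hT.toGC0, hρ n, fun w hw w' hw' hww => ?_, fun w hw hc => ?_,
    fun w hw => ?_, fun w hw => ?_⟩
  · have k := hMOVE Γ a b E H μ m k Q h (fun i => (x i : MM Γ a)) T σ (fun i => ι (x i)) hH hμ hQ
      hh hx hT hTb hHT hσ hσf hS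
    change Ll (E.kh _ - _) (E.kh μ) at k
    rw [tl, tl, map_sum] at k
    have k2 := rl_le_of_ll hν.pos (ls_abs_sum _ _ hν.pos.le fun i _ => lE (x i))
      (ls_abs_sum _ _ hν.pos.le fun i _ => lT _) k
    rw [rl_sum _ _ hν.pos fun i _ => lE (x i), rl_sum _ _ hν.pos fun i _ => lT _] at k2
    refine le_of_eq_of_le (Finset.sum_congr rfl fun i _ => ?_)
      (k2.trans_eq (Finset.sum_congr rfl fun i _ => ?_))
    · rw [hφ, E.rl_kh, MulEquiv.apply_symm_apply]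
    · rw [← hι, MulEquiv.apply_symm_apply]
  · obtain ⟨g, hg, rfl⟩ := rep w hw
    obtain ⟨g', hg', rfl⟩ := rep w' hw'
    rw [← Subgroup.coe_mul, ← map_mul] at hww ⊢
    rw [hι, hι, hι, hmul g hg g' hg' (hA _ hww)]
  · obtain ⟨g, hg, rfl⟩ := rep w hw
    rw [hι]
    refine hfix g hg (hc.imp id fun e => ?_)
    exact (phi_l_zero hμ hφ g).2 (hμ.ll_of_not_big (mem_std_iff.1 e))
  · obtain ⟨g, hg, rfl⟩ := rep w hw
    rw [hι, hsec g hg]
  · obtain ⟨g, hg, rfl⟩ := rep w hw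
    rw [hι]
    refine Tre.nb_le (not_big_nat 0) ?_
    rw [Nat.cast_zero]
    change _ - _ * E.kh _ ≤ _
    rcases (rl_nonneg hμ.pos (ln_nonneg (φ g : MM Γ a))).lt_or_eq with e | e
    · refine nmul_le hν.pos (lT _) (lE _) n ?_
      have k1 := hη' _ hw e
      have k2 := mul_le_mul_of_nonneg_left (hlen g hg) (Nat.cast_nonneg (α := ℝ) n)
      rw [hφ] at k2
      rw [E.rl_kh]
      linarith
    · rw [hfix g hg (Or.inr (by rw [hφ, e])), E.ln_hom]
      have := (GT.kh_nonneg E).2 (ln_nonneg (φ g : MM Γ a))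
      linarith

end Pool.Agent.P.MP_dba3d2_lc
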