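import Pool.Agent.P.MP_dba3d2_lc.E.Iface2
import Pool.Agent.P.MP_dba3d2_lc.B.Sc

/-! Step E_EXC of the stability project. -/

namespace Pool.Agent.P.MP_dba3d2_lc

open Filter

namespace E_exc

variable {Γ : HG} {a : Amb}

theorem ipow_conj' (c p : MM Γ a) (k : a.Z) : ipow (p⁻¹ * c * p) k = p⁻¹ * ipow c k * p := by
  simpa using ipow_conj p⁻¹ c k

theorem inE {c p x : MM Γ a} (h : InE (p⁻¹ * c * p) x) : InE c (p * x * p⁻¹) := by
  have e : (p⁻¹ * c * p) ^ Γ.e = p⁻¹ * c ^ Γ.e * p := by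
    simpa using conj_pow (a := p⁻¹) (b := c) (i := Γ.e)
  have k : p * x * p⁻¹ * c ^ Γ.e * (p * x * p⁻¹)⁻¹ =
      p * (x * (p⁻¹ * c ^ Γ.e * p) * x⁻¹) * p⁻¹ := by group
  unfold InE at h ⊢
  rw [e] at h
  rw [k]
  refine h.imp (fun h => ?_) fun h => ?_
  · rw [h]; group
  · rw [h]; group

theorem sup_eq (X : Subgroup (MM Γ a)) (c p : MM Γ a) (k : ℚ →+ a.Z) (hp : p ∈ X) :
    X ⊔ Subgroup.closure (Set.range fun q => ipow (p⁻¹ * c * p) (k q)) =
      X ⊔ Subgroup.closure (Set.range fun q => ipow c (k q)) := by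
  refine le_antisymm (sup_le le_sup_left ((Subgroup.closure_le _).2 ?_))
    (sup_le le_sup_left ((Subgroup.closure_le _).2 ?_))
  · rintro _ ⟨q, rfl⟩
    have h1 := Subgroup.mem_sup_left
      (T := Subgroup.closure (Set.range fun q => ipow c (k q))) hp
    have h2 := Subgroup.mem_sup_right (S := X)
      (Subgroup.subset_closure (k := Set.range fun q => ipow c (k q)) ⟨q, rfl⟩)
    simp only [ipow_conj']
    exact mul_mem (mul_mem (inv_mem h1) h2) h1
  · rintro _ ⟨q, rfl⟩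
    have h1 := Subgroup.mem_sup_left
      (T := Subgroup.closure (Set.range fun q => ipow (p⁻¹ * c * p) (k q))) hp
    have h2 := Subgroup.mem_sup_right (S := X)
      (Subgroup.subset_closure (k := Set.range fun q => ipow (p⁻¹ * c * p) (k q)) ⟨q, rfl⟩)
    have e : ipow c (k q) = p * ipow (p⁻¹ * c * p) (k q) * p⁻¹ := by rw [ipow_conj']; group
    change ipow c (k q) ∈ _
    rw [e]
    exact mul_mem (mul_mem h1 h2) (inv_mem h1)

end E_exc

theorem p_E_EXC :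
    S_E_EXC := by
  intro Γ a X c p k hp
  have E := E_exc.sup_eq X c p k hp
  refine ⟨E, fun h G _ θ0 ν h1 h2 => ?_⟩
  obtain ⟨P, hP⟩ : ∃ P : X, (P : MM Γ a) = p := ⟨⟨p, hp⟩, rfl⟩
  have cx : ∀ x : X, ((P * x * P⁻¹ : X) : MM Γ a) = p * x * p⁻¹ := fun x => by simp [hP]
  obtain ⟨θ, t1, t2⟩ := h G θ0 ((MulAut.conj (θ0 P)⁻¹).toMonoidHom.comp ν)
    (fun x q hx => by
      have k1 := (h1 (P * x * P⁻¹) q (by rw [cx]; exact mem_Ep_conj'.1 hx)).map
        (MulAut.conj (θ0 P)⁻¹)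
      simpa [mul_assoc] using k1)
    (fun x q hx hn => by
      have k1 := h2 (P * x * P⁻¹) q (by rw [cx]; exact E_exc.inE hx)
        (by rw [cx]; exact fun m => hn (mem_Ep_conj'.2 m))
      simp only [MonoidHom.comp_apply, MulEquiv.coe_toMonoidHom, MulAut.conj_apply]
      rw [← k1, map_mul, map_mul, map_inv]
      group)
  refine ⟨θ.comp (Subgroup.inclusion E.ge), fun x => t1 x, fun q => ?_⟩
  have e : Subgroup.inclusion E.ge ⟨ipow c (k q),
      (le_sup_right : _ ≤ X ⊔ _) (Subgroup.subset_closure ⟨q, rfl⟩)⟩ =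
      ⟨P, (le_sup_left : X ≤ _) P.2⟩ * ⟨ipow (p⁻¹ * c * p) (k q),
        (le_sup_right : _ ≤ X ⊔ _) (Subgroup.subset_closure ⟨q, rfl⟩)⟩ *
        (⟨P, (le_sup_left : X ≤ _) P.2⟩)⁻¹ := by
    refine Subtype.ext ?_
    change ipow c (k q) = P * ipow (p⁻¹ * c * p) (k q) * (P : MM Γ a)⁻¹
    rw [E_exc.ipow_conj', hP]
    group
  rw [MonoidHom.comp_apply, e, map_mul, map_mul, map_inv, t1, t2]
  simp [mul_assoc]

end Pool.Agent.P.MP_dba3d2_lc
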