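import Pool.Agent.P.MP_dba3d2_lc.E.Iface2
import Pool.Agent.P.MP_dba3d2_lc.A.Iface
import Pool.Agent.P.MP_dba3d2_lc.E.Bas

/-! Step E_G2U of the stability project. -/

namespace Pool.Agent.P.MP_dba3d2_lc

open Filter

namespace E_g2u

variable {Γ : HG} {b : Amb} {J : Type} (U : Ultrafilter J)

theorem exact_mk' (x m y : J → MM Γ b)
    (h : ds (a := b.pow U) (b.mk' U x) (b.mk' U m) + ds (a := b.pow U) (b.mk' U m) (b.mk' U y) =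
      ds (a := b.pow U) (b.mk' U x) (b.mk' U y)) :
    ∀ᶠ j in (U : Filter J), ds (x j) (m j) + ds (m j) (y j) = ds (x j) (y j) := by
  rw [ds_mk', ds_mk', ds_mk', ← mk'_add, mk'_eq_iff] at h
  exact h

theorem fin_mk' (x y : J → MM Γ b) (h : ¬ Big (ds (a := b.pow U) (b.mk' U x) (b.mk' U y))) :
    ∀ᶠ j in (U : Filter J), ¬ Big (ds (x j) (y j)) := by
  obtain ⟨n, hn⟩ := not_big_iff.1 h
  have k := hn.le
  rw [ds_mk', ← GT.natCast_mk', mk'_le_iff] at k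
  filter_upwards [k] with j hj
  exact not_big_iff.2 ⟨n + 1, by push_cast; linarith⟩

theorem per_mk' {Λ : b.K} (x y : J → MM Γ b) (h : ∀ᶠ j in (U : Filter J), Per Λ (x j) (y j)) :
    Per (a := b.pow U) ((b.dg U).kh Λ) (b.mk' U x) (b.mk' U y) := by
  obtain ⟨d, hd⟩ := h.choice
  refine ⟨b.mk' U d, ?_, ?_, ?_⟩
  · rw [finOrder_mk', ← Ultrafilter.eventually_not]
    exact hd.mono fun j hj => hj.1
  · rw [← mk'_mul, ds_mk']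
    exact ET.ll_mk'_kh U (hd.mono fun j hj => hj.2.1)
  · rw [← mk'_mul, ds_mk']
    exact ET.ll_mk'_kh U (hd.mono fun j hj => hj.2.2)

theorem one_mk' : (1 : MM Γ (b.pow U)) = b.mk' U fun _ => (1 : MM Γ b) :=
  ((mk'_hom U 1).trans (map_one _)).symm

end E_g2u

open E_g2u FixA in
theorem p_E_G2U (hELEM : S_ELEM) (hLINE : S_LINE) (hPERC : S_PERC) :
    S_E_G2U := by
  intro Γ b J U T Λ hT hΛ h hh h' hh' l1 l2 g p q ho hp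
  have hμ : Big ((b.dg U).kh Λ) := (b.dg U).big_iff.2 hΛ
  obtain ⟨r, s, a1, a2, a3, a4, a5, a6, a7, a8⟩ := inner_nper hELEM hLINE hPERC hμ ho.1 hp
  obtain ⟨n0, o1, o2, o3, o4⟩ := ho
  obtain ⟨m1, m1', e1, e1', f1, c1, -, -⟩ :=
    Ov.fin hμ ⟨a5, o1, On.conv hμ o1 o2 a1, o3, On.conv hμ o3 o4 a1⟩
  obtain ⟨m2, m2', e2, e2', f2, c2, -, -⟩ :=
    Ov.fin hμ ⟨a7, On.conv hμ o1 o2 a2, o2, On.conv hμ o3 o4 a2, o4⟩
  obtain ⟨k1, k2⟩ := On.glue hμ (On.sub a3 c1).2 (On.sub' a4 c2).2 a6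
  have np : ¬ Per ((b.dg U).kh Λ) m1 m2 := fun e => a8 (e.sub hμ k1 k2)
  have nd := On.nondeg hμ k1 k2 a6
  obtain ⟨t, ht, rfl⟩ := hh
  obtain ⟨t', ht', rfl⟩ := hh'
  obtain ⟨g, rfl⟩ := mk'_surjective U g
  obtain ⟨m1, rfl⟩ := mk'_surjective U m1
  obtain ⟨m1', rfl⟩ := mk'_surjective U m1'
  obtain ⟨m2, rfl⟩ := mk'_surjective U m2
  obtain ⟨m2', rfl⟩ := mk'_surjective U m2'
  rw [one_mk'] at e1 e2
  rw [← mk'_mul] at e1' e2'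
  rw [ln_mk', GT.ls_mk'_kh] at l1 l2
  rw [ds_mk', ET.kh_ls_mk'] at nd
  obtain ⟨n1, l1⟩ := l1
  obtain ⟨n2, l2⟩ := l2
  obtain ⟨n3, nd⟩ := nd
  have np' := Ultrafilter.eventually_not.2 (mt (per_mk' U m1 m2) np)
  refine ET.mem_UT U ?_
  filter_upwards [exact_mk' U _ _ _ e1, exact_mk' U _ _ _ e1', exact_mk' U _ _ _ e2,
    exact_mk' U _ _ _ e2', fin_mk' U _ _ f1, fin_mk' U _ _ f2, l1, l2, nd, np']
    with j x1 x1' x2 x2' y1 y2 z1 z2 z3 z4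
  have h0 := hΛ.pos.le
  refine (hT j).g2 Λ hΛ _ (ht j) _ (ht' j) ⟨n1, z1⟩ ⟨n2, z2⟩ _ (m1 j) (m2 j)
    ⟨⟨n3, z3⟩, On.of_eq h0 x1, On.of_eq h0 x2, ?_, ?_⟩ z4
  · exact (On.of_eq h0 x1').congr (ll_comm (hΛ.ll_of_not_big y1)) (ll_self h0 _) (ll_self h0 _)
  · exact (On.of_eq h0 x2').congr (ll_comm (hΛ.ll_of_not_big y2)) (ll_self h0 _) (ll_self h0 _)

end Pool.Agent.P.MP_dba3d2_lc
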