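import Pool.Agent.P.MP_dba3d2_lc.E.Iface2
import Pool.Agent.P.MP_dba3d2_lc.A.Iface
import Pool.Agent.P.MP_dba3d2_lc.B.Iface
import Pool.Agent.P.MP_dba3d2_lc.C.Iface
import Pool.Agent.P.MP_dba3d2_lc.E.Bas

/-! Step E_GE of the stability project. -/

namespace Pool.Agent.P.MP_dba3d2_lc

open Filter ET

namespace E_geA

variable {Γ : HG} {a : Amb}

theorem ll_prod {y : a.K} (hy : 0 ≤ y) (l : List (MM Γ a)) (h : ∀ x ∈ l, Ll (ln x) y) :
    Ll (ln l.prod) y := by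
  induction l with
  | nil => exact Ll.of_nonpos ln_one.le hy
  | cons x l ih =>
    rw [List.prod_cons]
    exact Ll.mono_left (ln_mul_le _ _) ((h x (by simp)).add (ih fun z hz => h z (by simp [hz])))

/-- an almost geodesic product has a letter of the same scale -/
theorem letter {g : MM Γ a} (hg : Big (ln g)) (l : List (MM Γ a)) (e : l.prod = g)
    (h : Ll ((l.map ln).sum - ln g) (ln g)) : ∃ x ∈ l, Sim (ln g) (ln x) := by
  have h1 : ∃ x ∈ l, Ls (ln g) (ln x) := by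
    by_contra hh
    have := ll_prod hg.pos.le l fun x hx =>
      (not_ls_iff (ln_nonneg x) hg.pos).1 fun k => hh ⟨x, hx, k⟩
    rw [e] at this
    exact this.not_ls hg.pos (Ls.refl' _)
  obtain ⟨x, hx, k⟩ := h1
  refine ⟨x, hx, k, Ls.mono_left ?_ (h.ls.add (Ls.refl' _))⟩
  rw [sub_add_cancel]
  refine List.single_le_sum (fun z hz => ?_) _ (List.mem_map_of_mem hx)
  obtain ⟨w, -, rfl⟩ := List.mem_map.1 hz
  exact ln_nonneg w

theorem comm (hE : S_ELEM) {X : Subgroup (MM Γ a)} {G : Type} [Group G] (θ : X →* G) {d : MM Γ a}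
    (hd : ¬ IsOfFinOrder d) (x y : X) (hx : (x : MM Γ a) ∈ Ep d) (hy : (y : MM Γ a) ∈ Ep d) :
    Commute (θ x ^ Γ.e) (θ y) := by
  rw [← map_pow]
  refine Commute.map ?_ θ
  exact Subtype.ext ((hE Γ a d hd).2.2.2.2.2.2.2.1 x hx y hy).eq

end E_geA

open E_geA in
theorem p_E_GE (hELEM : S_ELEM) (hROOT : S_ROOT) (hTRUNC : S_TRUNC) (hEXP : S_EXP) (hGRAFT : S_GRAFT) :
    S_E_GE := by
  intro Γ a μ X c k hμ hX hc pc hm h1 h2 C
  have hB := gc0_trunc hTRUNC hμ hX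
  obtain ⟨T, ext, nf, e4, e5⟩ := hEXP Γ a μ _ c k hμ hB inf_le_right hc pc hm h1 h2
  obtain ⟨o, nf2⟩ := hGRAFT Γ a X _ hX T.gc (sep_of_le hμ le_sup_left T.bd)
  have eI : X ⊓ (X ⊓ ball Γ μ ⊔ C) = X ⊓ ball Γ μ := inf_of_le le_sup_left T.bd
  have eS : X ⊔ (X ⊓ ball Γ μ ⊔ C) = X ⊔ C := by rw [← sup_assoc, sup_inf_self]
  have red := red_two o inf_le_left T.fin T.per
  refine ⟨eS ▸ o.gc, eS ▸ red.1, eS ▸ red.2, ?_, eS ▸ nf2, nf, fun g hg hb => ?_⟩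
  · intro G _ θ0 ν c1 c2
    obtain ⟨θ1, t1, t2⟩ := ext G (θ0.comp (Subgroup.inclusion inf_le_left)) ν
      (fun x q hx => c1 _ q hx) fun x q h h' => c2 _ q h h'
    have agree : ∀ (x : X) (y : ↥(X ⊓ ball Γ μ ⊔ C)), (x : MM Γ a) = y → θ0 x = θ1 y := by
      intro x y e
      have hx : (x : MM Γ a) ∈ X ⊓ ball Γ μ := eI.le ⟨x.2, e ▸ y.2⟩
      exact (t1 ⟨x, hx⟩).symm.trans (congrArg θ1 (Subtype.ext e))
    obtain ⟨θ, s1, s2⟩ := o.ext G θ0 θ1 agree fun d0 hd0 n0 x y hx hy => by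
      obtain ⟨d, hd, pd, e⟩ := (hROOT Γ a _ hB).1 d0 (eI.le hd0) n0
      rw [← e] at hx hy
      by_cases hz : ∃ z ∈ X ⊓ ball Γ μ, Cj z c d
      · obtain ⟨z, hz, cj⟩ := hz
        have cj' : Ep (z * c * z⁻¹) = Ep d := cj
        rw [← cj', mem_Ep_conj] at hx hy
        let zX : X := ⟨z, hz.1⟩
        let zW : ↥(X ⊓ ball Γ μ ⊔ C) := ⟨z, (le_sup_left : _ ≤ X ⊓ ball Γ μ ⊔ C) hz⟩
        obtain ⟨f0, hf0, q, ef⟩ := e5 _ (zW⁻¹ * y * zW).2 hy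
        have ef' : z⁻¹ * y * z = f0 * ipow c (k q) := ef
        have f1 : f0 ∈ Ep c := by
          rw [← mul_inv_eq_iff_eq_mul] at ef'
          exact ef' ▸ (Ep c).mul_mem hy ((Ep c).inv_mem (ipow_mem_Ep c _))
        have a1 : θ1 (zW⁻¹ * y * zW) = θ0 ⟨f0, hf0.1⟩ * ν (.ofAdd q) := by
          rw [agree ⟨f0, hf0.1⟩ ⟨f0, (le_sup_left : _ ≤ X ⊓ ball Γ μ ⊔ C) hf0⟩ rfl, ← t2 q,
            ← map_mul]
          exact congrArg θ1 (Subtype.ext ef')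
        have a2 : Commute (θ0 (zX⁻¹ * x * zX) ^ Γ.e) (θ1 (zW⁻¹ * y * zW)) := by
          rw [a1]
          exact (comm hELEM θ0 pc.1 _ ⟨f0, hf0.1⟩ hx f1).mul_right ((c1 _ q hx).pow_left _)
        have a3 := a2.conj (θ0 zX)
        rw [← conj_pow, map_mul, map_mul, map_mul, map_mul, map_inv, map_inv,
          ← agree zX zW rfl] at a3
        simpa [mul_assoc] using a3
      · have hy' := e4 d hd pd (fun z h h' => hz ⟨z, h, h'⟩) _ y.2 hy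
        rw [← agree ⟨y, hy'.1⟩ y rfl]
        exact comm hELEM θ0 pd.1 _ _ hx hy
    refine ⟨θ.comp (Subgroup.inclusion eS.ge), fun x => s1 x, fun q => ?_⟩
    exact (s2 ⟨ipow c (k q), (le_sup_right : C ≤ _) (Subgroup.subset_closure ⟨q, rfl⟩)⟩).trans (t2 q)
  · obtain ⟨l, l1, l2, l3, -⟩ := nf2 g (eS.ge hg)
    obtain ⟨x, hx, s⟩ := letter hb l l2 (l3 hb)
    rcases l1 x hx with h | h
    · exact ⟨x, h, Or.inl s⟩
    · exact ⟨1, X.one_mem, Or.inr (s.1.trans' ((mem_ball hμ.pos.le).1 (T.bd h)))⟩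

end Pool.Agent.P.MP_dba3d2_lc
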