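import Pool.Agent.P.MP_dba3d2_lc.E.Iface2
import Pool.Agent.P.MP_dba3d2_lc.B.Fix

/-! Step E_GEO of the stability project. -/

namespace Pool.Agent.P.MP_dba3d2_lc

open Filter

namespace EgeoA

variable {Γ : HG} {a : Amb}

theorem lower (w : MM Γ a) : ln (w * w) - ln w ≤ md w + 2 * (Γ.δ : a.K) := by
  obtain ⟨q, hq⟩ := exists_md_ds w
  have h := ds_four 1 (w * w) w (w * q)
  have e1 : ds w (w * q) = ds 1 q := by rw [ds_mul_right, ds_one_left]
  have e2 : ds (w * w) w = ln w := by rw [ds_comm, ds_mul_right]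
  have e3 := ds_tri w (w * q) q
  have e4 := ds_tri 1 q (w * q)
  have e5 := ds_comm (w * q) q
  rw [ds_mul_left w w q, ds_one_left (w * w), ds_one_left w] at h
  rcases max_choice (ln w + ds w q) (ds 1 (w * q) + ds (w * w) w) with e | e <;> rw [e] at h <;>
    linarith

theorem upper (w : MM Γ a) : md w ≤ max (ln (w * w) - ln w) 0 + (2 + 2 * (2 * (Γ.δ : a.K))) := by
  obtain ⟨m, a1, a2, a3⟩ := exists_mid 1 w
  have h0 := md_le_ds w m
  have h1 := ds_four m (w * m) 1 w
  have h2 := ds_four 1 (w * m) w (w * w)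
  have e1 : ds (w * m) w = ds 1 m := by rw [ds_comm, ds_mul_right, ds_one_left]
  have e2 : ds w (w * w) = ds 1 w := by rw [ds_mul_right, ds_one_left]
  have e3 := ds_comm m 1
  have e4 := ds_comm (w * m) 1
  have e5 := ds_mul_left w m w
  have e6 := ds_one_left w
  have e7 := ds_one_left (w * w)
  have k1 := le_max_left (ln (w * w) - ln w) 0
  have k2 := le_max_right (ln (w * w) - ln w) 0
  have d0 : (0 : a.K) ≤ Γ.δ := Nat.cast_nonneg _
  rcases max_choice (ds m 1 + ds (w * m) w) (ds m w + ds (w * m) 1) with e | e <;> rw [e] at h1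
  · linarith
  · rcases max_choice (ds 1 w + ds (w * m) (w * w)) (ds 1 (w * w) + ds (w * m) w) with e | e <;>
      rw [e] at h2 <;> linarith

end EgeoA

open EgeoA FixA

theorem p_E_GEO :
    S_E_GEO := by
  intro Γ a μ hμ
  have k := (hμ.ll_delta Γ).two
  have t := ll_two hμ
  have h0 := hμ.pos.le
  refine ⟨fun w => Ll.abs (Ll.mono_left ?_ (t.add k.two)) (Ll.mono_left ?_ k),
    fun c c' hc hc' hcc => ?_⟩
  · linarith [upper w]
  · have d0 : (0 : a.K) ≤ Γ.δ := Nat.cast_nonneg _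
    have := lower w
    have := md_nonneg w
    rcases max_choice (ln (w * w) - ln w) 0 with e | e <;> rw [e] <;> linarith
  · obtain ⟨z, hz⟩ := exists_md_ds (c * c')
    obtain ⟨q, hq⟩ := exists_md_ds c⁻¹
    obtain ⟨q', hq'⟩ := exists_md_ds c'
    obtain ⟨m, a1, a2, a3⟩ := exists_mid z (c' * z)
    have n : Ll (ds (c' * z) (c⁻¹ * z)) μ := by
      rwa [← ds_mul_left c, mul_inv_cancel_left, ← mul_assoc, ds_comm, hz]
    have o := On.of_eq h0 a1
    have f1 := (fix_mid hμ (hq' ▸ hc') o (Ll.of_nonpos (by linarith) h0)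
      (Ll.mono_left (by linarith) t)).1
    have e1 := ds_tri z (c' * z) (c⁻¹ * z)
    have e2 := ds_tri z (c⁻¹ * z) (c' * z)
    have e3 := ds_comm (c⁻¹ * z) (c' * z)
    have f2 := (fix_mid hμ (show Ll (ds q (c⁻¹ * q)) μ by rwa [hq, md_inv])
      (o.congr (ll_self h0 _) (ll_self h0 _) n) (Ll.mono_left (by linarith) n)
      (Ll.mono_left (by linarith) (t.add n))).1
    exact ⟨m, by rwa [disp_inv] at f2, f1⟩

end Pool.Agent.P.MP_dba3d2_lc
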