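import Pool.Agent.P.MP_dba3d2_lc.E.Iface2
import Pool.Agent.P.MP_dba3d2_lc.A.Iface
import Pool.Agent.P.MP_dba3d2_lc.B.Iface
import Pool.Agent.P.MP_dba3d2_lc.C.Iface
import Pool.Agent.P.MP_dba3d2_lc.E.Bas

/-! Step E_GL of the stability project. -/

namespace Pool.Agent.P.MP_dba3d2_lc

open Filter ET

namespace E_gl

variable {Γ : HG} {a : Amb} {X B W P : Subgroup (MM Γ a)}

/-- exponents of primitive elements of the first factor after grafting -/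
theorem expo (o : TwoOut X W) (hI : X ⊓ W = B)
    (hB : ∀ c ∈ B, Prim c → ∀ f ∈ W, f ∈ Ep c → f ∈ B) :
    ∀ c ∈ X, Prim c → ∀ f ∈ X ⊔ W, f ∈ Ep c → f ∈ X := by
  intro c hc pc f hf hE
  by_cases h1 : ∀ g ∈ X, g⁻¹ * c * g ∉ W
  · exact o.e2 c hc pc h1 f hf hE
  push Not at h1
  obtain ⟨g, hg, h2⟩ := h1
  have lX : X ≤ X ⊔ W := le_sup_left
  have m1 : g⁻¹ * c * g ∈ X ⊓ W := ⟨X.mul_mem (X.mul_mem (X.inv_mem hg) hc) hg, h2⟩
  have e1 : g⁻¹ * f * g ∈ Ep (g⁻¹ * c * g) := mem_Ep_conj'.2 (by simpa [mul_assoc] using hE)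
  obtain ⟨x, hx, y, hy, -, ey, e⟩ := o.e1 _ m1 (pc.conj' g) (g⁻¹ * f * g)
    ((X ⊔ W).mul_mem ((X ⊔ W).mul_mem ((X ⊔ W).inv_mem (lX hg)) hf) (lX hg)) e1
  have yB : y ∈ X ⊓ W := hI ▸ hB _ (hI ▸ m1) (pc.conj' g) y hy ey
  have e2 : f = g * (x * y) * g⁻¹ := by rw [← e]; group
  rw [e2]
  exact X.mul_mem (X.mul_mem hg (X.mul_mem hx yB.1)) (X.inv_mem hg)

/-- a short element conjugating a long element of `X` into `X` lies in `X` -/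
theorem conj_long (hE : S_ELEM) (hP : S_PERC) (hR : S_ROOT) (hX : GC0 X) (hXP : X ≤ P)
    (he : ∀ c ∈ X, Prim c → ∀ f ∈ P, f ∈ Ep c → f ∈ X) {u x : MM Γ a} (hu : u ∈ P) (hx : x ∈ X)
    (hx' : u⁻¹ * x * u ∈ X) (hb : Big (ln x)) (hl : Ll (ln u) (ln x)) : u ∈ X := by
  have h0 := hb.pos.le
  have d1 : Ll (ds u 1) (ln x) := by rwa [ds_one_right]
  have d2 : Ll (ds (u * (u⁻¹ * x * u)) x) (ln x) := by
    rwa [show u * (u⁻¹ * x * u) = x * u by group, ds_comm, ds_mul_right]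
  have d0 : Ls (ln x) (ds 1 x) := by rw [ds_one_left]; exact Ls.refl' _
  have o1 : On (ln x) 1 u (u * (u⁻¹ * x * u)) := On.of_near d1 _
  have o2 : On (ln x) x u (u * (u⁻¹ * x * u)) := (On.of_near d2 _).symm
  have l1 : Ls (ln (u⁻¹ * x * u)) (ln x) := by
    refine Ls.mono_left ?_ ((hl.ls.add (Ls.refl' _)).add hl.ls)
    linarith [ln_mul_le (u⁻¹ * x) u, ln_mul_le u⁻¹ x, ln_inv u]
  by_cases hp : Per (ln x) 1 x
  swap
  · exact hX.g2 _ hb x hx _ hx' (Ls.refl' _) l1 u 1 x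
      ⟨d0, on_left h0 _ _, on_right h0 _ _, o1, o2⟩ hp
  obtain ⟨c, hc, pc, sc⟩ := hX.g20 _ hb x hx (Ls.refl' _) 1 x d0 (on_left h0 _ _)
    (on_right h0 _ _) hp
  have d3 : Ll (ds (u * 1) 1) (ln x) := by rwa [mul_one]
  have hp' : Per (ln x) 1 (u⁻¹ * x * u) :=
    (per_mul_iff u).1 (hp.congr (FixA.ll_comm d3) (FixA.ll_comm d2))
  have d4 : Ls (ln x) (ds 1 (u⁻¹ * x * u)) := by
    have := On.nondeg hb o1 o2 d0
    rwa [ds_mul_right, ← ds_one_left (u⁻¹ * x * u)] at this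
  obtain ⟨c', hc', pc', sc'⟩ := hX.g20 _ hb _ hx' l1 1 _ d4 (on_left h0 _ _)
    (on_right h0 _ _) hp'
  have cj : Cj u c' c := Ep_eq_of_stab hE hP hb d0 (pc'.conj u).1 pc.1
    (((stab_conj u).2 sc').congr d3 d2) sc
  obtain ⟨h, hh, k⟩ := (hR Γ a X hX).2.2.2.2.2 c hc c' hc' pc.1 pc'.1 u cj
  have := he c hc pc _ (P.mul_mem hu (P.inv_mem (hXP hh))) k
  simpa using X.mul_mem this hh

end E_gl

open E_gl

theorem p_E_GL (hELEM : S_ELEM) (hPERC : S_PERC) (hROOT : S_ROOT) (hTRUNC : S_TRUNC) (hLET : S_LET) (hGRAFT : S_GRAFT) :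
    S_E_GL := by
  intro Γ a μ X r K u hμ hX hL C
  have h0 := hμ.pos.le
  obtain ⟨top, -, nf, cj, ex⟩ :=
    hLET Γ a μ _ r K u hμ (gc0_trunc hTRUNC hμ hX) inf_le_right hL
  obtain ⟨o, nf2⟩ := hGRAFT Γ a X _ hX top.gc (sep_of_le hμ le_sup_left top.bd)
  have e : X ⊔ (X ⊓ ball Γ μ ⊔ C) = X ⊔ C := by rw [← sup_assoc, sup_inf_self]
  have hI : X ⊓ (X ⊓ ball Γ μ ⊔ C) = X ⊓ ball Γ μ := inf_of_le le_sup_left top.bd
  have red := red_two o inf_le_left top.fin top.per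
  have he := expo o hI ex
  have gc := o.gc
  change X ⊔ (X ⊓ ball Γ μ ⊔ C) = _ at e
  rw [e] at gc red he nf2
  refine ⟨gc, red.1, red.2, nf2, nf, fun i x hx hx' => ?_, he⟩
  have ub : u i ∈ ball Γ μ := (mem_ball h0).2 (hL.sim i).1
  by_cases hb : x ∈ ball Γ μ
  · exact cj i x ⟨hx, hb⟩ ⟨hx', (ball Γ μ).mul_mem ((ball Γ μ).mul_mem (inv_mem ub) hb) ub⟩
  have l := ll_of_not_mem_ball hμ hb
  have uX : u i ∈ X := conj_long hELEM hPERC hROOT hX le_sup_left he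
    ((le_sup_right : C ≤ X ⊔ C) (Subgroup.subset_closure ⟨i, rfl⟩)) hx hx' (hμ.of_ls l.ls)
    (Ll.ls_left (hL.sim i).1 l)
  refine (hL.base i (u i) ⟨uX, ub⟩ (hL.sim i).1 1 1 (u i)
    ⟨?_, on_left h0 _ _, on_right h0 _ _, on_left h0 _ _, ?_⟩).elim
  · rw [ds_one_left]; exact (hL.sim i).2
  · rw [one_mul]; exact on_right h0 _ _

end Pool.Agent.P.MP_dba3d2_lc
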