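import Pool.Agent.P.MP_dba3d2_lc.E.Iface2
import Pool.Agent.P.MP_dba3d2_lc.A.Iface
import Pool.Agent.P.MP_dba3d2_lc.B.Iface
import Pool.Agent.P.MP_dba3d2_lc.C.Iface
import Pool.Agent.P.MP_dba3d2_lc.E.Bas

/-! Step E_GLX of the stability project. -/

namespace Pool.Agent.P.MP_dba3d2_lc

open Filter ET

theorem p_E_GLX (hELEM : S_ELEM) (hROOT : S_ROOT) (hTRUNC : S_TRUNC) (hLET : S_LET) (hGRAFT : S_GRAFT) :
    S_E_GLX := by
  intro Γ a μ X r K u hμ hX hL G _ θ0 ν hν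
  have hB := gc0_trunc hTRUNC hμ hX
  obtain ⟨top, eL, -, -, last⟩ := hLET Γ a μ _ r K u hμ hB inf_le_right hL
  have sep := sep_of_le (H := X) hμ le_sup_left top.bd
  have e := inf_of_le (H := X) le_sup_left top.bd
  obtain ⟨θ1, h1, h2⟩ := eL G (θ0.comp (Subgroup.inclusion inf_le_left)) ν
    fun i x y h => hν i ⟨x, x.2.1⟩ ⟨y, y.2.1⟩ h
  obtain ⟨θ, t0, t1⟩ := (hGRAFT Γ a X _ hX top.gc sep).1.ext G θ0 θ1
    (fun x y h => by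
      have hy : (y : MM Γ a) ∈ X ⊓ ball Γ μ := e.le ⟨h ▸ x.2, y.2⟩
      exact (congrArg θ0 (Subtype.ext h)).trans (h1 ⟨y, hy⟩).symm)
    (fun c hc hf x y hx hy => by
      rw [e] at hc
      obtain ⟨c0, m0, p0, e0⟩ := (hROOT Γ a _ hB).1 c hc hf
      have hy' : (y : MM Γ a) ∈ X ⊓ ball Γ μ := last c0 m0 p0 y y.2 (e0 ▸ hy)
      have k : Commute (x ^ Γ.e) ⟨y, hy'.1⟩ :=
        Subtype.ext ((hELEM Γ a c hf).2.2.2.2.2.2.2.1 x hx y hy)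
      rw [← map_pow, show θ1 y = θ0 ⟨y, hy'.1⟩ from h1 ⟨y, hy'⟩]
      exact k.map θ0)
  exact ⟨θ.comp (Subgroup.inclusion (sup_le_sup_left le_sup_right X)), t0,
    fun i => (t1 ⟨u i, _⟩).trans (h2 i)⟩

end Pool.Agent.P.MP_dba3d2_lc
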