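import Pool.Agent.P.MP_dba3d2_lc.E.Iface2
import Pool.Agent.P.MP_dba3d2_lc.B.Iface
import Pool.Agent.P.MP_dba3d2_lc.E.Bas

/-! Step E_LIM of the stability project. -/

namespace Pool.Agent.P.MP_dba3d2_lc

open Filter

namespace E_lim

theorem num {b : Amb} {x y Λ : b.K} {n N M : ℕ} (h : ¬ Big (n * x - (n + 1) * y)) (hΛ : Big Λ)
    (hy : y ≤ M * Λ) (hn : N * (M + 1) ≤ n) : N * (x - y) ≤ Λ := by
  unfold Big at h
  push Not at h
  obtain ⟨C, hC⟩ := h
  have h1 := hΛ C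
  have h0 := hΛ.pos
  rcases le_total (x - y) 0 with k | k
  · exact (mul_nonpos_of_nonneg_of_nonpos (Nat.cast_nonneg N) k).trans h0.le
  · have h2 : (N : b.K) * (M + 1) ≤ n := by exact_mod_cast hn
    have h3 := mul_le_mul_of_nonneg_right h2 k
    have h4 : (0 : b.K) < M + 1 := by positivity
    refine le_of_mul_le_mul_left ?_ h4
    linarith

end E_lim

open E_lim ET in
theorem p_E_LIM (hEXTGC : S_EXTGC) :
    S_E_LIM := by
  intro Γ a b E S D J U A n T ι ρ hS hA hn hAd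
  obtain ⟨R, hR⟩ := exists_UR U T ρ
  let θ : S.map ((a.dg U).hom Γ) →* MM Γ (b.pow U) := MonoidHom.mk'
    (fun s => b.mk' U fun j => (ι j (Einv (a.dg U) S s) : MM Γ b)) fun s s' => by
      rw [← mk'_mul, mk'_eq_iff]
      filter_upwards [hA _ (Einv_mem _ S s), hA _ (Einv_mem _ S s'), hA _ (Einv_mem _ S (s * s'))]
        with j h1 h2 h3
      rw [map_mul] at h3 ⊢
      rw [(hAd j).mul _ h1 _ h2 h3]
      rfl
  have hθ : ∀ s, θ s = b.mk' U fun j => (ι j (Einv (a.dg U) S s) : MM Γ b) := fun _ => rfl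
  have sc : ∀ s : S.map ((a.dg U).hom Γ), (E.pow U).kh (ln (s : MM Γ (a.pow U))) =
      (b.dg U).kh (E.kh (ln (Einv (a.dg U) S s))) := fun s => by
    rw [← pow_dg_kh, ← (a.dg U).ln_hom, hom_Einv]
  have bg : ∀ s : S.map ((a.dg U).hom Γ), Big (ln (s : MM Γ (a.pow U))) →
      Big (E.kh (ln (Einv (a.dg U) S s))) := fun s h => by
    rw [← hom_Einv (a.dg U) S s, Ext.ln_hom, Ext.big_iff] at h
    exact E.big_iff.2 h
  refine ⟨θ, R, hR, ⟨(hEXTGC Γ a _ (a.dg U) S).2 hS,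
    fun s => mk'_mem_UT U fun j => ι j (Einv (a.dg U) S s), fun s t e => ?_,
    fun s x e => ?_, fun s h => ?_, fun s h t ht => ?_, fun t h1 h2 => ?_⟩, fun s _ s' e => ?_⟩
  · rw [hR (fun j => ι j (Einv (a.dg U) S s)) t e, ← hom_Einv (a.dg U) S s, ← mk'_hom, mk'_eq_iff]
    filter_upwards [hA _ (Einv_mem _ S s)] with j hj using (hAd j).sec _ hj
  · have e' : Einv (a.dg U) S s = cst Γ a x := Einv_eq _ S s e
    rw [hθ, ← (b.dg U).hom_cst, ← mk'_hom, mk'_eq_iff]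
    filter_upwards [hA _ (Einv_mem _ S s)] with j hj
    rw [(hAd j).fix _ hj (Or.inr ⟨x, e'.symm⟩), e', E.hom_cst]
  · have e : ln (θ s) - (b.dg U).kh (E.kh (ln (Einv (a.dg U) S s))) =
        b.mk' U fun j => ln (ι j (Einv (a.dg U) S s) : MM Γ b) - E.kh (ln (Einv (a.dg U) S s)) := by
      rw [mk'_sub, mk'_kh, hθ, ln_mk']
    rw [sc, e, ll_mk'_iff]
    intro N
    filter_upwards [hA _ (Einv_mem _ S s), hn.eventually (eventually_ge_atTop (N * (1 + 1)))]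
      with j h1 h2
    exact num ((hAd j).ni _ h1) (bg s h) (by simp) h2
  · obtain ⟨u, hu⟩ := UT_rep U t.2
    have e : (E.pow U).kh (ln (R t)) - ln (t : MM Γ (b.pow U)) =
        b.mk' U fun j => E.kh (ln (ρ j (u j))) - ln (u j : MM Γ b) := by
      rw [mk'_sub, hR u t hu, hu, ln_mk', ln_mk', pow_kh_mk']
    rw [sc, hu, ln_mk', GT.ls_mk'_kh] at ht
    obtain ⟨M, hM⟩ := ht
    rw [sc, e, ll_mk'_iff]
    intro N
    filter_upwards [hM, hn.eventually (eventually_ge_atTop (N * (M + 1)))] with j h1 h2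
    exact num ((hAd j).retr.lip (u j)) (bg s h) h1 h2
  · obtain ⟨u, hu⟩ := UT_rep U t.2
    rw [← finOrder_coe, hu, finOrder_mk'] at h1
    rw [hR u t hu, ← map_one ((a.dg U).hom Γ), ← mk'_hom, mk'_eq_iff] at h2
    refine Subtype.ext ?_
    rw [hu, Subgroup.coe_one, ← map_one ((b.dg U).hom Γ), ← mk'_hom, mk'_eq_iff]
    filter_upwards [h1, h2] with j k1 k2
    rw [(hAd j).retr.tor _ ((finOrder_coe _).1 k1) k2, Subgroup.coe_one]
  · rw [hθ, Einv_eq _ S s' e]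

end Pool.Agent.P.MP_dba3d2_lc
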