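import Pool.Agent.P.MP_dba3d2_lc.E.Iface2
import Pool.Agent.P.MP_dba3d2_lc.B.Sc

/-! Step E_LIP of the stability project. -/

namespace Pool.Agent.P.MP_dba3d2_lc

open Filter

namespace ELip

variable {Γ : HG} {a b : Amb} {E : Ext a b} {T : Subgroup (MM Γ b)} {ρ : T →* MM Γ a}

theorem one_letter {lam : b.K} (hl : Big lam) {t : T} (h : Lip E T ρ t)
    (hs : Ls (ln (t : MM Γ b)) lam) : Ll (E.kh (ln (ρ t)) - ln (t : MM Γ b)) lam := by
  by_cases hb : Big (ln (t : MM Γ b))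
  · exact (h.1 hb).ls_right hs hl.pos.le
  · have h1 : ¬ Big (E.kh (ln (ρ t))) := fun k => h.2 hb (E.big_iff.1 k)
    refine Ll.mono_left ?_ (hl.ll_of_not_big h1)
    linarith [ln_nonneg (t : MM Γ b)]

theorem sum_nonneg' (l : List (MM Γ b)) : 0 ≤ (l.map ln).sum := by
  induction l with
  | nil => simp
  | cons x l ih =>
    rw [List.map_cons, List.sum_cons]
    linarith [ln_nonneg x]

theorem word {Y : Set (MM Γ b)} (hY : Y ⊆ T) (hL : ∀ t : T, (t : MM Γ b) ∈ Y → Lip E T ρ t)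
    {lam : b.K} (hl : Big lam) (l : List (MM Γ b)) (h : ∀ x ∈ l, x ∈ Y)
    (hs : Ls (l.map ln).sum lam) :
    ∃ t : T, (t : MM Γ b) = l.prod ∧ Ll (E.kh (ln (ρ t)) - (l.map ln).sum) lam := by
  induction l with
  | nil => exact ⟨1, by simp, by simpa using Ll.zero hl.pos.le⟩
  | cons x l ih =>
    rw [List.map_cons, List.sum_cons] at hs ⊢
    have hx : x ∈ Y := h x List.mem_cons_self
    obtain ⟨t, e, k⟩ := ih (fun y hy => h y (List.mem_cons_of_mem _ hy))
      (Ls.mono_left (by linarith [ln_nonneg x]) hs)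
    have k1 := one_letter hl (hL ⟨x, hY hx⟩ hx)
      (Ls.mono_left (by linarith [sum_nonneg' l]) hs)
    refine ⟨⟨x, hY hx⟩ * t, by rw [List.prod_cons, ← e]; rfl, Ll.mono_left ?_ (k1.add k)⟩
    have := E.kh_le.2 (ln_mul_le (ρ ⟨x, hY hx⟩) (ρ t))
    rw [map_add, ← map_mul] at this
    dsimp only
    linarith

theorem coe_fin (t : T) : IsOfFinOrder (t : MM Γ b) ↔ IsOfFinOrder t :=
  (Subtype.val_injective).isOfFinOrder_iff (f := T.subtype)

end ELip

open ELip in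
theorem p_E_LIP :
    S_E_LIP := by
  intro Γ a b E T ρ
  refine ⟨fun P Y hP hY hL t ht => ?_, fun H hH hρ => ⟨fun t ht => ?_, fun hf hp hL n => ?_⟩⟩
  · obtain ⟨l, h1, h2, h3, h4⟩ := hP _ ht
    refine ⟨fun hb => ?_, fun hb => ?_⟩
    · have k := h3 hb
      obtain ⟨s, e, k'⟩ := word hY hL hb l h1
        (Ls.mono_left (by linarith) (k.ls.add (Ls.refl' (ln (t : MM Γ b)))))
      obtain rfl : s = t := Subtype.ext (e.trans h2)
      exact Ll.mono_left (le_of_eq (by ring)) (k'.add k)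
    · exact (hL t (h1 _ (by rw [h4 hb]; exact List.mem_cons_self))).2 hb
  · obtain ⟨h, hh, e⟩ := ht
    have e1 : E.kh (ln (ρ t)) = ln (t : MM Γ b) := by
      rw [hρ t h hh e.symm, ← e, E.ln_hom]
    refine ⟨fun hb => ?_, fun hb k => hb ?_⟩
    · rw [e1, sub_self]; exact Ll.zero hb.pos.le
    · rw [← e1]; exact E.big_iff.2 k
  · have key : ∀ (c : T) (p : MM Γ b) (hp : p ∈ T), p⁻¹ * c * p ∈ H.map (E.hom Γ) →
        ∃ h, p⁻¹ * c * p = E.hom Γ h ∧ (ρ ⟨p, hp⟩)⁻¹ * ρ c * ρ ⟨p, hp⟩ = h := by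
      rintro c p hp ⟨h, hh, e⟩
      refine ⟨h, e.symm, ?_⟩
      rw [← map_inv, ← map_mul, ← map_mul]
      exact hρ _ h hh e.symm
    refine ⟨fun t => ?_, fun t ht h1 => ?_, fun c f hc hE hl _ k => ?_⟩
    · change ¬ Big (n * E.kh (ln (ρ t)) - (n + 1) * ln (t : MM Γ b))
      by_cases hb : Big (ln (t : MM Γ b))
      · have := (hL t).1 hb n
        exact not_big_iff.2 ⟨1, by push_cast; linarith⟩
      · have h1 : ¬ Big (E.kh (ln (ρ t))) := fun k => (hL t).2 hb (E.big_iff.1 k)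
        refine not_big_of_ls (Ls.mono_left ?_ ⟨n, le_rfl⟩) h1
        have := mul_nonneg (by positivity : (0 : b.K) ≤ n + 1) (ln_nonneg (t : MM Γ b))
        linarith
    · have hfin : Finite (Subgroup.zpowers (t : MM Γ b)) :=
        (finite_zpowers.2 ((coe_fin t).2 ht)).to_subtype
      obtain ⟨p, hp, k⟩ := hf (Subgroup.zpowers (t : MM Γ b))
        ((Subgroup.zpowers_le).2 t.2) hfin
      obtain ⟨h, e1, e2⟩ := key t p hp (k.elim id id _ (Subgroup.mem_zpowers _))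
      rw [h1, mul_one, inv_mul_cancel] at e2
      rw [← e2, map_one] at e1
      refine Subtype.ext ?_
      simpa [mul_assoc] using congrArg (fun z => p * z * p⁻¹) e1
    · obtain ⟨p, hp', k'⟩ := hp c c.2 hc f f.2 hE hl
      obtain ⟨h, e1, e2⟩ := key c p hp' (k'.elim id id)
      refine hc.1 ((finOrder_conj' p _).1 ?_)
      rw [e1, E.finOrder_iff, ← e2, finOrder_conj']
      exact k

end Pool.Agent.P.MP_dba3d2_lc
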