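import Pool.Agent.P.MP_dba3d2_lc.E.Iface2
import Pool.Agent.P.MP_dba3d2_lc.G.Tb

/-! Step E_ME1 of the stability project. -/

namespace Pool.Agent.P.MP_dba3d2_lc

open Filter

theorem p_E_ME1 :
    S_E_ME1 := by
  refine ⟨fun q n => ⌊q * n.factorial⌋, fun a => ?_⟩
  have ge : ∀ k, ∀ᶠ n in (U0 : Filter ℕ), k ≤ n := fun k =>
    (eventually_ge_atTop k).filter_mono Nat.hyperfilter_le_atTop
  have fl : ∀ q : ℚ, ∀ᶠ n : ℕ in (U0 : Filter ℕ),
      ((⌊q * n.factorial⌋ : ℤ) : ℚ) = q * n.factorial := fun q => (ge q.den).mono fun n hn => by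
    obtain ⟨m, e⟩ := Nat.dvd_factorial q.pos hn
    have : q * n.factorial = (q.num * m : ℤ) := by
      rw [e]
      push_cast
      rw [← mul_assoc, Rat.mul_den_eq_num]
    rw [this, Int.floor_intCast]
  let k : ℚ →+ (a.pow U0).Z := AddMonoidHom.mk'
    (fun q => a.mk' U0 fun n => ((⌊q * n.factorial⌋ : ℤ) : a.Z)) fun q q' => by
      refine Eq.trans ((mk'_eq_iff U0 _ _).2 ?_) (mk'_map₂ U0 (· + ·) _ _).symm
      filter_upwards [fl q, fl q', fl (q + q')] with n h1 h2 h3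
      rw [show ⌊(q + q') * n.factorial⌋ = ⌊q * n.factorial⌋ + ⌊q' * n.factorial⌋ by
        rw [← Int.cast_inj (α := ℚ), Int.cast_add, h1, h2, h3, add_mul]]
      rfl
  have z : ∀ q, zK (k q) = a.mk' U0 fun n : ℕ => (q : a.K) * (n.factorial : a.K) := fun q => by
    refine (mk'_map U0 (fun n : ℤ => (n : ℝ)) fun n : ℕ => ((⌊q * n.factorial⌋ : ℤ) : a.Z)).trans
      ((mk'_eq_iff U0 _ _).2 ((fl q).mono fun n h => ?_))
    refine (zK_intCast _).trans ?_
    exact_mod_cast congrArg (fun x : ℚ => (x : a.K)) h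
  have z1 : zK (k 1) = a.mk' U0 fun n : ℕ => (n.factorial : a.K) := by simp [z]
  have zq : ∀ q, |zK (k q)| = (|q| : ℚ) * |zK (k 1)| := fun q => by
    rw [z, mk'_mulK, mk'_kh, map_ratCast, ← z1, abs_mul, Rat.cast_abs]
  have big : Big (zK (k 1)) := fun N => by
    rw [z1, ← GT.natCast_mk' U0, mk'_le_iff]
    exact (ge N).mono fun n hn => Nat.cast_le.2 (hn.trans n.self_le_factorial)
  have p := big.pos.le
  refine ⟨k, fun _ => rfl, big, fun q => ?_, fun q hq => ?_, fun x ν h N => ?_⟩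
  · refine ⟨⌈|q|⌉₊, ?_⟩
    rw [zq, abs_of_nonneg p]
    exact mul_le_mul_of_nonneg_right (by exact_mod_cast Nat.le_ceil |q|) p
  · refine ⟨⌈|q|⁻¹⌉₊, ?_⟩
    rw [zq, abs_of_nonneg p, ← mul_assoc]
    refine le_mul_of_one_le_left p ?_
    exact_mod_cast (inv_le_iff_one_le_mul₀ (abs_pos.2 hq)).1 (Nat.le_ceil |q|⁻¹)
  · rw [z1, ← mk'_kh U0 x, ← mk'_mulK, ← GT.nmul_mk', GT.mk'_le_kh]
    exact Eventually.of_forall fun n => by simpa [mul_assoc] using h (N * n.factorial)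

end Pool.Agent.P.MP_dba3d2_lc
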