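import Pool.Agent.P.MP_dba3d2_lc.E.Iface2
import Pool.Agent.P.MP_dba3d2_lc.G.Tb
import Pool.Agent.P.MP_dba3d2_lc.B.Axis2

/-! Step E_ME2 of the stability project. -/

namespace Pool.Agent.P.MP_dba3d2_lc

open Filter

theorem E_me2.ls_mul {K : Type} [Field K] [LinearOrder K] [IsStrictOrderedRing K] {x y x' y' : K}
    (h : Ls x y) (h' : Ls x' y') (h0 : 0 ≤ x') (h1 : 0 ≤ y) : Ls (x * x') (y * y') := by
  obtain ⟨n, h⟩ := h
  obtain ⟨m, h'⟩ := h'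
  refine ⟨n * m, ?_⟩
  calc x * x' ≤ (n * y) * (m * y') := mul_le_mul h h' h0 (by positivity)
    _ = _ := by push_cast; ring

open E_me2 in
theorem p_E_ME2 (hE_CHI : S_E_CHI) (hE_SZ : S_E_SZ) :
    S_E_ME2 := by
  intro Γ a b E c k hk hc hcen μ
  have hc' : Prim (E.hom Γ c) := E.prim_iff.2 hc
  have hM : md (E.hom Γ c) = E.kh (md c) := E.md_hom c
  have h1 : 1 ≤ E.kh (md c) := hM ▸ one_le_md' hc'.1
  have hκ := hk.big.pos
  have hκ1 : 1 ≤ zK (k 1) := by simpa using hk.big 1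
  have hμ : Big μ := hk.big.of_ls (Ls.of_le (le_mul_of_one_le_right hκ.le h1))
  have hcen' : Ls (ln (E.hom Γ c)) (E.kh (md c)) := hM ▸ (GT.cen_hom E).2 hcen
  have hll : Ll (E.kh (md c)) μ := fun n =>
    mul_le_mul_of_nonneg_right (hk.big n) (by linarith)
  refine ⟨hμ, (mem_ball hμ.pos.le).2 (hcen'.trans' hll.ls), hM ▸ hll, fun q => ?_, ?_⟩
  · have := ((hE_SZ Γ b _ _ (k q) hc'.1 (ipow_mem_Ep _ (k q))
      (by rw [inv_mul_cancel]; exact IsOfFinOrder.one)).2 1).1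
    rw [ds_one_mul, ds_one_mul] at this
    exact (mem_ball hμ.pos.le).2 (Ls.mono_left this (ls_mul (hk.up q) hcen' (ln_nonneg _) hκ.le))
  rintro _ ⟨⟨f, rfl⟩, hf⟩ hE
  have hf1 : Ls (ln (E.hom Γ f)) μ := (mem_ball hμ.pos.le).1 hf
  have hE0 : f ∈ Ep c := (GT.memEp_hom E).1 hE
  obtain ⟨m, hm⟩ := hc.2 f hE0
  have hm' : IsOfFinOrder ((E.hom Γ f)⁻¹ * ipow (E.hom Γ c) (E.zh m)) := by
    rw [← E.hom_ipow, ← map_inv, ← map_mul]
    exact E.finOrder_iff.2 hm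
  have s1 := hE_SZ Γ b _ _ _ hc'.1 hE hm'
  have nb : ¬ Big |zK (E.zh m)| := by
    intro hb
    obtain ⟨n, hn⟩ := (s1.1.mono_right (md_le_ln _)).trans' hf1
    have l : Ls |zK (E.zh m)| (zK (k 1)) := by
      refine ⟨n, le_of_mul_le_mul_right ?_ (show 0 < E.kh (md c) by linarith)⟩
      rw [hM] at hn
      rw [mul_assoc]
      exact hn
    rw [E.zK_zh, ← E.kh_abs] at hb l
    have g := hk.gap 1 _ (big_iff_ll.1 (E.big_iff.1 hb))
    rw [map_one E.kh, mul_one] at g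
    exact g.not_ls hb.pos l
  refine ⟨fun q hq => ?_, fun x hx => ?_⟩
  · obtain ⟨χ, c1, c2, -, -, -, -, -, c3, -⟩ := hE_CHI Γ b _ hc'
    have hE2 := (Ep _).mul_mem hE (ipow_mem_Ep (E.hom Γ c) (k q))
    have e : χ (E.hom Γ f * ipow (E.hom Γ c) (k q)) = E.zh m + k q := by
      rw [c2 _ hE _ (ipow_mem_Ep _ _), c3, (c1 _ hE _).2 hm']
    have s2 := (hE_SZ Γ b _ _ _ hc'.1 hE2 ((c1 _ hE2 _).1 e)).1
    have l : Ls (zK (k 1)) |zK (E.zh m + k q)| := by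
      refine Ls.of_le_add (hk.lo q hq) (hk.big.ll_of_not_big nb) hκ 1 ?_
      rw [Nat.cast_one, one_mul, zK_add]
      have := abs_sub (zK (E.zh m) + zK (k q)) (zK (E.zh m))
      rwa [add_sub_cancel_left] at this
    rw [hM] at s2
    exact (ls_mul l (Ls.refl' _) (by linarith) (abs_nonneg _)).trans' s2
  · have s2 := (s1.2 x).2
    rw [ds_conj, ds_conj] at s2
    rw [Cen, md_conj, hM] at hx
    obtain ⟨n, hn⟩ := not_big_iff.1 nb
    have l : Ls (|zK (E.zh m)| + 1) 1 := ⟨n + 1, by push_cast; linarith⟩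
    have l2 := ls_mul l hx (ln_nonneg _) zero_le_one
    rw [one_mul] at l2
    exact Ll.ls_left (s2.trans' l2) hll

end Pool.Agent.P.MP_dba3d2_lc
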