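import Pool.Agent.P.MP_dba3d2_lc.E.Iface2
import Pool.Agent.P.MP_dba3d2_lc.A.Iface
import Pool.Agent.P.MP_dba3d2_lc.E.Bas

/-! Step E_ORI of the stability project. -/

namespace Pool.Agent.P.MP_dba3d2_lc

open Filter ET

namespace E_oriA

variable {Γ : HG} {a : Amb} {μ : a.K} {g x y z : MM Γ a}

theorem eu (h : Ll (ds x y) μ) (h' : Ll (ds x z) μ) : Ll (ds y z) μ :=
  Ll.mono_left (by linarith [ds_tri y x z, ds_comm x y]) (h.add h')

theorem tr (h : Ll (ds x y) μ) (h' : Ll (ds y z) μ) : Ll (ds x z) μ :=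
  Ll.mono_left (ds_tri x y z) (h.add h')

theorem mem (hμ : Big μ) (hx : x ∈ ball Γ μ) (hy : y ∈ ball Γ μ) (h : Ll (ds (g * x) y) μ) :
    g ∈ ball Γ μ := by
  have := mul_mem (mul_mem hy (inv_mem ((mem_ball hμ.pos.le).2 h.ls))) (inv_mem hx)
  simpa using this

end E_oriA

open E_oriA in
theorem p_E_ORI (hELEM : S_ELEM) (hPERC : S_PERC) (hE_TRL : S_E_TRL) :
    S_E_ORI := by
  intro Γ a μ R φ L hμ hφ hL
  have key : ∀ {s t}, Ll (ds (φ (L s) : MM Γ a) (φ (L t))) μ → s = t := fun {s t} h => by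
    have := (phi_d_zero hμ hφ _ _).2 h
    rwa [hL.iso, abs_eq_zero, sub_eq_zero] at this
  have hg : ∀ g s t, R.d (g * L s) (L t) = 0 ↔
      Ll (ds ((φ g : MM Γ a) * (φ (L s) : MM Γ a)) (φ (L t))) μ := fun g s t => by
    rw [phi_d_zero hμ hφ, map_mul, Subgroup.coe_mul]
  have n : Ls μ (ds (φ (L 0) : MM Γ a) (φ (L 1))) :=
    (phi_d_pos hμ hφ _ _).1 (by rw [hL.iso]; simp)
  obtain ⟨c, pc, st, -⟩ := hPERC Γ a μ _ _ hμ n ((phi_per hμ hφ _ _).1 (hL.per 0 1 one_pos))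
  have s0 := ds_comm _ _ ▸ st.1
  have s1 := ds_comm _ _ ▸ st.2
  have hc : c ∈ ball Γ μ := mem hμ (φ (L 0)).2 (φ (L 0)).2 s0
  have fx : ∀ t, Ll (ds (φ (L t) : MM Γ a) (c * (φ (L t) : MM Γ a))) μ := fun t => by
    have e := hg (φ.symm ⟨c, hc⟩)
    simp only [MulEquiv.apply_symm_apply] at e
    obtain ⟨ε, b, -, h⟩ := hL.rig _ 0 1 0 1 one_pos ((e _ _).2 s0) ((e _ _).2 s1)
    have e0 := key (eu s0 ((e _ _).1 (h 0)))
    have e1 := key (eu s1 ((e _ _).1 (h 1)))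
    have := (e _ _).1 (h t)
    rwa [show ε * t + b = t by linear_combination (t - 1) * e0 - t * e1, ds_comm] at this
  obtain ⟨κ, hκ⟩ := hE_TRL Γ a μ (fun t => φ (L t)) c hμ
    (fun s t => hL.iso s t ▸ phi_d_ll hμ hφ _ _) pc.1 fx
  refine ⟨c, hc, pc, fx, ⟨κ, fun q => mem hμ (φ (L 0)).2 (φ (L _)).2 (hκ q 0), hκ⟩,
    fun g ε β _ h => ?_⟩
  replace h := fun t => (hg g _ _).1 (h t)
  have i : InE c (φ g : MM Γ a) := inE_of_stab hELEM hPERC hμ n pc.1 st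
    ⟨fix_congr (fx _) (ds_comm _ _ ▸ h 0), fix_congr (fx _) (ds_comm _ _ ▸ h 1)⟩
  have k : ∀ q : ℚ, (φ g : MM Γ a) * ipow c (κ 1) = ipow c (κ q) * (φ g : MM Γ a) → ε = q := fun q e => by
    have a1 := hκ 1 0
    have a2 := h 0
    rw [← ds_mul_left (φ g : MM Γ a), ← mul_assoc, e, mul_assoc] at a1
    rw [← ds_mul_left (ipow c (κ q))] at a2
    have := key (eu (tr a1 (h _)) (tr a2 (hκ q _)))
    push_cast at this
    linarith
  refine ⟨i, fun e => by simpa using k 1 (commute_k κ e 1).eq, fun e => by_contra fun e' => ?_⟩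
  have := k (-1) (mul_inv_eq_iff_eq_mul.1 (invert_k κ i e' 1))
  push_cast at this
  linarith

end Pool.Agent.P.MP_dba3d2_lc
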