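import Pool.Agent.P.MP_dba3d2_lc.E.Iface2
import Pool.Agent.P.MP_dba3d2_lc.A.Iface
import Pool.Agent.P.MP_dba3d2_lc.B.Iface
import Pool.Agent.P.MP_dba3d2_lc.B.Axis2

/-! Step E_PJ1 of the stability project. -/

namespace Pool.Agent.P.MP_dba3d2_lc

open Filter

namespace E_pj1

variable {Γ : HG} {a : Amb} {μ D : a.K} {d f h p q r s : MM Γ a}

theorem pt (hμ : Big μ) (hd : Ll (md d) μ) (h1 : ds p (d * p) ≤ D) (h2 : ds q (d * q) ≤ D)
    (h3 : 20 * D ≤ ds p q) : ∃ r, On μ r p q ∧ Ll (ds r (d * r)) μ ∧ ds p r ≤ D := by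
  have h0 : 0 ≤ D := (ds_nonneg _ _).trans h1
  obtain ⟨m, -, a1, -, a2, -⟩ := exists_proj hμ hd p
  obtain ⟨m', -, b1, -, b2, -⟩ := exists_proj hμ hd q
  obtain ⟨r, c1, c2, c3, c4⟩ := exists_on hμ p q D h0 (by linarith)
  exact ⟨r, c1, fix_conv hμ a2 b2 (c1.shift hμ (hμ.ll_one.mono_left (by linarith))
    (hμ.ll_one.mono_left (by linarith))), c2⟩

theorem key (hμ : Big μ) (hn : Ls μ (ds r s)) (h1 : On μ r 1 s) (h2 : On μ s r h)
    (hd : Stab μ r s d) (hf : Stab μ r s f)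
    (h3 : Ll (2 * ds f h - (ln d + ln (h⁻¹ * d * h))) μ) : False := by
  have a1 : On μ r f s := (h1.mul f).congr (FixA.ll_comm hf.1)
    (by rw [mul_one]; exact FixA.ll_self hμ.pos.le f) (FixA.ll_comm hf.2)
  have a2 := (a1.glue hμ h2 hn).1
  have a3 := disp_le d 1 r
  have a4 := disp_le d h s
  have a5 := ds_mul_left f 1 r
  rw [mul_one] at a5
  rw [ds_one_mul] at a3
  rw [ds_conj] at a4
  refine Ll.not_ls (Ll.half (((((h3.add (Ll.two a2)).add (Ll.two h2)).add hf.1.two).add hd.1).add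
    hd.2 |>.mono_left ?_)) hμ.pos hn
  linarith [ds_tri f r (f * r), ds_comm h s]

end E_pj1

open E_pj1

theorem p_E_PJ1 (hELEM : S_ELEM) (hLINE : S_LINE) (hPERC : S_PERC) (hROOT : S_ROOT) :
    S_E_PJ1 := by
  intro Γ a b E T ρ n l D h p q d hT hR hl hh hls hp hq hn h1 h2 h3 hd hm
  have hμ : Big (E.kh l) := E.big_iff.2 hl
  obtain ⟨r, r1, r2, r3⟩ := pt hμ hm h1 h2 h3
  obtain ⟨s, s1, s2, s3⟩ := pt hμ hm h2 h1 (by rwa [ds_comm])
  have hr := hp.conv hμ hq r1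
  have hs := hq.conv hμ hp s1
  have hn' : Ls (E.kh l) (ds r s) := hn.of_le_add (Ll.zero hμ.pos.le) hμ.pos 2 (by
    rw [Nat.cast_two]
    linarith [ds_tri p r q, ds_tri r s q, ds_comm q s, ds_nonneg r s])
  have hst : Stab (E.kh l) r s d := ⟨r2, s2⟩
  obtain ⟨c, c1, c2, c3⟩ := hT.g20 _ hμ h hh hls r s hn' hr hs ⟨d, hd.1, hst⟩
  have hdT : d ∈ T := (hROOT Γ b T hT).2.2.2.1 c c1 c2.1 d hd
    (Ep_eq_of_stab hELEM hPERC hμ hn' hd.1 c2.1 hst c3)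
  have hld : Ls (ln d) (E.kh l) :=
    ((hr.ls_left (by rwa [ds_one_left])).two.add r2.ls).mono_left
      (by rw [← ds_one_mul]; exact disp_le d 1 r)
  obtain ⟨f, f1, f2, f3⟩ := hT.ex _ hμ h hh hls d hdT hd hld hm
  have hf : Ls (E.kh l) (md f) := (ll_or_ls hμ.pos _).resolve_left fun e => by
    have hsf : Stab (E.kh l) r s f :=
      ⟨fix_of_fix hELEM hLINE hd.1 f2 r2 e, fix_of_fix hELEM hLINE hd.1 f2 s2 e⟩
    rcases hr.total hμ hs with e | e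
    · exact key hμ hn' e.1 e.2 hst hsf f3
    · exact key hμ (by rwa [ds_comm]) e.1 e.2 hst.symm hsf.symm f3
  exact ⟨⟨d, hdT⟩, rfl, hR.per ⟨d, hdT⟩ ⟨f, f1⟩ hd f2 (hm.ls_right hf (md_nonneg f))
    ⟨l, hl, hm, hf⟩⟩

end Pool.Agent.P.MP_dba3d2_lc
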