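import Pool.Agent.P.MP_dba3d2_lc.E.Iface2
import Pool.Agent.P.MP_dba3d2_lc.A.Iface
import Pool.Agent.P.MP_dba3d2_lc.B.Axis2

/-! Step E_PJ2 of the stability project. -/

namespace Pool.Agent.P.MP_dba3d2_lc

open Filter

theorem p_E_PJ2 (hELEM : S_ELEM) (hLINE : S_LINE) (hPERC : S_PERC) :
    S_E_PJ2 := by
  intro Γ b T Λ D h p q d hT hΛ hh l hp hq dp dq hl hd hm
  have m : md d ≤ D := (md_le_ds d p).trans dp
  have s : Ls Λ D := hm.mono_right m
  have hD : Big D := hΛ.of_ls s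
  have h0 := hD.pos
  have hp' : On D p 1 h := Ll.ls_right hp s h0.le
  have hq' : On D q 1 h := Ll.ls_right hq s h0.le
  have ld : Ls D (md d) := by
    have a1 : Ls (ds 1 p) Λ := by
      simpa using hp.le_left.ls.add (show Ls (ds 1 h) Λ by simpa using l)
    have a2 : Ls (ds 1 q) Λ := by
      simpa using hq.le_left.ls.add (show Ls (ds 1 h) Λ by simpa using l)
    refine Ls.trans' (Ls.mono_left ?_ (a1.add a2)) hm
    linarith [ds_tri p 1 q, ds_comm p 1]
  obtain ⟨r, t, o, e⟩ := exists_ov hD dp dq (T := 7 * D) (by linarith) (by linarith)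
  refine hT.g2 D hD h hh h hh (l.trans' s) (l.trans' s) d r t ⟨o.1, hp'.conv hD hq' o.2.1,
    hp'.conv hD hq' o.2.2.1, ?_, ?_⟩ ?_
  · simpa using (hp'.mul d).conv hD (hq'.mul d) o.2.2.2.1
  · simpa using (hp'.mul d).conv hD (hq'.mul d) o.2.2.2.2
  · rintro ⟨d', k1, k2⟩
    have k := long_per hELEM hPERC hD hd.1 dp dq o.2.1 o.2.2.1 (by linarith) k1 k2
    exact (Ll.ls_left (hd.md_ls hELEM hLINE k1 k.symm) k2.md).not_ls h0 ld

end Pool.Agent.P.MP_dba3d2_lc
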