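import Pool.Agent.P.MP_dba3d2_lc.E.Iface2
import Pool.Agent.P.MP_dba3d2_lc.A.Iface
import Pool.Agent.P.MP_dba3d2_lc.B.Iface
import Pool.Agent.P.MP_dba3d2_lc.B.Axis2
import Pool.Agent.P.MP_dba3d2_lc.E.Bas

/-! Step E_PRJ of the stability project. -/

namespace Pool.Agent.P.MP_dba3d2_lc

open Filter

theorem E_prj.int_unit {a : Amb} {n : ℤ} {l : a.Z} (h : (n : a.Z) * l = 1) : n = 1 ∨ n = -1 := by
  refine (unit_Z h).imp (fun e => ?_) fun e => ?_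
  · have k : zK (n : a.Z) = zK ((1 : ℤ) : a.Z) := by rw [e, Int.cast_one]
    rw [zK_intCast, zK_intCast] at k
    exact Int.cast_injective k
  · have k : zK (n : a.Z) = zK ((-1 : ℤ) : a.Z) := by rw [e, Int.cast_neg, Int.cast_one]
    rw [zK_intCast, zK_intCast] at k
    exact Int.cast_injective k

theorem p_E_PRJ (hELEM : S_ELEM) (hLINE : S_LINE) (hROOT : S_ROOT) (hE_CHI : S_E_CHI) (hE_SZ : S_E_SZ) :
    S_E_PRJ := by
  intro Γ a b E T ρ n γ hT hR hn hc hB hls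
  have hγ : ¬ IsOfFinOrder (γ : MM Γ b) := fun e =>
    hc.1 (ρ.isOfFinOrder ((ET.finOrder_coe γ).1 e))
  obtain ⟨d, hdT, hd, he⟩ := (hROOT Γ b T hT).1 γ γ.2 hγ
  have hγd : (γ : MM Γ b) ∈ Ep d := he ▸ self_mem_Ep _
  have hρ : ∀ t : T, (t : MM Γ b) ∈ Ep d → ρ t ∈ Ep (ρ γ) := fun t ht => by
    rw [he, mem_Ep] at ht
    have k : Commute t (γ ^ Γ.e) := Subtype.ext ht.eq
    rw [mem_Ep, ← map_pow]
    exact k.map ρ
  obtain ⟨χ, x1, -, -, -, -, -, -, -, -, x2⟩ := hE_CHI Γ b d hd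
  obtain ⟨ψ, -, y2, y3, y4, y5, y6, -, -, y9, -⟩ := hE_CHI Γ a (ρ γ) hc
  let D : T := ⟨d, hdT⟩
  have hD : ρ D ∈ Ep (ρ γ) := hρ D (self_mem_Ep d)
  have sc := self_mem_Ep (ρ γ)
  have key : ∀ t : T, ρ t ∈ Ep (ρ γ) → IsOfFinOrder ((γ : MM Γ b)⁻¹ * t) → ψ (ρ t) = 1 :=
    fun t ht h => by
    have k : IsOfFinOrder (ρ (γ⁻¹ * t)) := ρ.isOfFinOrder ((ET.finOrder_coe (γ⁻¹ * t)).1 h)
    rw [map_mul, map_inv] at k
    have z := (y4 _ (mul_mem (inv_mem sc) ht)).2 k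
    rw [y2 _ (inv_mem sc) _ ht, y3 _ sc, y9] at z
    exact (neg_add_eq_zero.1 z).symm
  have tor := (x1 _ hγd _).1 rfl
  by_cases big : Big |zK (χ γ)|
  · exfalso
    have M0 : Big (E.kh (md (ρ γ))) := E.big_iff.2 hB
    have l0 : Ll (md d) (|zK (χ γ)| * md d) := fun m =>
      mul_le_mul_of_nonneg_right (big m) (md_nonneg d)
    have l1 : Ll (md d) (E.kh (md (ρ γ))) :=
      l0.ls_right ((hE_SZ Γ b d γ _ hd.1 hγd tor).1.trans' hls) M0.pos.le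
    have inf : ¬ IsOfFinOrder (ρ D) := fun e => by
      obtain ⟨f, hf, hfe, r, h⟩ := hT.pur d hdT hd γ γ.2 hγd 2 two_pos
      let F : T := ⟨f, hf⟩
      have hF : ρ F ∈ Ep (ρ γ) := hρ F hfe
      have z := key (F ^ 2 * D ^ r) (by
        rw [map_mul, map_pow, map_pow]; exact mul_mem (pow_mem hF _) (pow_mem hD _)) h
      rw [map_mul, map_pow, map_pow, y2 _ (pow_mem hF _) _ (pow_mem hD _), y5 _ hF, y5 _ hD,
        (y4 _ hD).2 e, mul_zero, add_zero, ← Int.cast_natCast] at z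
      have := E_prj.int_unit z
      omega
    have l2 : Ls (md (ρ γ)) (md (ρ D)) :=
      Prim.md_ls hELEM hLINE hc inf (Ep_eq hELEM hc.1 hD inf).symm
    obtain ⟨x, hx, -, hcen⟩ := hT.cen1 hdT hd.1
    let X : T := ⟨x, hx⟩
    have l3 : Ll (ln (x⁻¹ * d * x)) (E.kh (md (ρ γ))) := by
      refine Ll.ls_left ?_ l1
      have := hcen
      rwa [Cen, md_conj] at this
    have l4 : md (ρ D) ≤ ln (ρ (X⁻¹ * D * X)) := by
      rw [map_mul, map_mul, map_inv]; exact md_le _ _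
    have l5 : Ll (n * E.kh (ln (ρ (X⁻¹ * D * X))) - (n + 1) * ln (x⁻¹ * d * x))
      (E.kh (md (ρ γ))) := M0.ll_of_not_big (hR.lip (X⁻¹ * D * X))
    have l6 := l5.add (l3.nat_mul (n + 1))
    have A0 : 0 ≤ E.kh (ln (ρ (X⁻¹ * D * X))) := (GT.kh_nonneg E).2 (ln_nonneg _)
    have n1 : (1 : b.K) ≤ n := by exact_mod_cast hn
    have l7 : Ll (E.kh (ln (ρ (X⁻¹ * D * X)))) (E.kh (md (ρ γ))) := by
      refine Ll.mono_left ?_ l6
      have := mul_le_mul_of_nonneg_right n1 A0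
      push_cast
      linarith
    exact l7.not_ls M0.pos (E.ls_iff.2 (l2.mono_right l4))
  · obtain ⟨m, hm⟩ := exists_int_of_not_big big
    rw [hm, ipow_intCast] at tor
    have z := key (D ^ m) (by rw [map_zpow]; exact zpow_mem hD _) tor
    rw [map_zpow, y6 _ hD] at z
    refine (x2 _ hγd).2 ((E_prj.int_unit z).imp (fun e => ?_) fun e => ?_)
    · rw [hm, e, Int.cast_one]
    · rw [hm, e, Int.cast_neg, Int.cast_one]

end Pool.Agent.P.MP_dba3d2_lc
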