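import Pool.Agent.P.MP_dba3d2_lc.E.Iface2
import Pool.Agent.P.MP_dba3d2_lc.E.Bas

/-! Step E_PU of the stability project. -/

namespace Pool.Agent.P.MP_dba3d2_lc

open Filter

namespace Epu

variable {Γ : HG} {a : Amb}

/-- a point of a segment at scale `μ` is close to an exact point of the segment -/
theorem exact_pt {μ : a.K} (hμ : Big μ) {p h : MM Γ a} (hp : On μ p 1 h) :
    ∃ P, ds 1 P + ds P h = ds 1 h ∧ Ll (ds p P) μ := by
  obtain ⟨P, h1, h2, h3, h4⟩ := exists_on hμ 1 h (min (ds 1 p) (ds 1 h))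
    (le_min (ds_nonneg _ _) (ds_nonneg _ _)) (min_le_right _ _)
  refine ⟨P, h4, hp.close hμ h1 ?_ ?_⟩
  · rcases min_choice (ds 1 p) (ds 1 h) with e | e <;> rw [e] at h3
    · exact Ll.mono_left (by linarith) hμ.ll_one
    · exact Ll.mono_left (by linarith) (hp.le_left.add hμ.ll_one)
  · exact Ll.of_nonpos (by linarith [min_le_left (ds 1 p) (ds 1 h)]) hμ.pos.le

/-- an exponent of bounded size is a standard integer -/
theorem int_of_ls {k : a.Z} {m Λ : a.K} (hm : 0 < m) (h1 : Ls (|zK k| * m) Λ) (h2 : Ls Λ m) :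
    ∃ n : ℤ, k = (n : a.Z) := by
  obtain ⟨N, hN⟩ := h1.trans' h2
  exact exists_int_of_not_big
    (not_big_of_ls (Ls.of_le (le_of_mul_le_mul_right hN hm)) (not_big_nat N))

end Epu

theorem p_E_PU (hE_PJ1 : S_E_PJ1) (hE_PJ2 : S_E_PJ2) :
    S_E_PU := by
  intro Γ a b E J U T ρ n R l hT hR hU hl μ h hh p q d h1 h2 hp hq hd hs
  have hΛ : Big (E.kh l) := E.big_iff.2 hl
  have hμ : Big μ := (b.dg U).big_iff.2 hΛ
  obtain ⟨P, eP, cP⟩ := Epu.exact_pt hμ hp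
  obtain ⟨Q, eQ, cQ⟩ := Epu.exact_pt hμ hq
  have hs' := hs.congr cP cQ
  have h2' : Ls μ (ds P Q) := by
    refine Ls.of_le_add h2 (cP.add cQ) hμ.pos 1 ?_
    have k1 := ds_tri p P q
    have k2 := ds_tri P Q q
    rw [ds_comm Q q] at k2
    push_cast
    linarith
  have h20 := ((hs'.1.add hs'.2).lt_of_ls h2' hμ.pos 20).le
  obtain ⟨h, rfl⟩ := ET.UT_rep U hh
  obtain ⟨P, rfl⟩ := mk'_surjective U P
  obtain ⟨Q, rfl⟩ := mk'_surjective U Q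
  obtain ⟨d, rfl⟩ := mk'_surjective U d
  have e1 : (1 : MM Γ (b.pow U)) = b.mk' U fun _ => (1 : MM Γ b) :=
    ((mk'_hom U 1).trans (map_one _)).symm
  rw [e1, ds_mk', ds_mk', ds_mk', ← mk'_add, mk'_eq_iff] at eP eQ
  rw [← mk'_mul, ← mk'_mul, ds_mk', ds_mk', ds_mk', ← mk'_add, ← GT.nmul_mk', mk'_le_iff] at h20
  rw [ln_mk'] at h1
  obtain ⟨n1, h1⟩ := (GT.ls_mk'_kh U _ _).1 h1
  rw [ds_mk'] at h2'
  obtain ⟨n2, h2'⟩ := (ET.kh_ls_mk' U).1 h2'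
  rw [prim_mk'] at hd
  have ex : ∀ j, ∃ t : T j, d j ∈ T j → (t : MM Γ b) = d j := fun j => by
    by_cases k : d j ∈ T j
    exacts [⟨⟨_, k⟩, fun _ => rfl⟩, ⟨1, fun k' => (k k').elim⟩]
  choose t ht using ex
  have hRt := hU t ⟨_, ET.mk'_mem_UT U t⟩ rfl
  refine ⟨⟨_, ET.mk'_mem_UT U t⟩, ?_⟩
  rcases U.em fun j => Ll (md (d j)) (E.kh l) with c | c
  · have k : ∀ᶠ j in (U : Filter J), (t j : MM Γ b) = d j ∧ ¬ IsOfFinOrder (ρ j (t j)) := by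
      filter_upwards [eP, eQ, h20, h1, h2', hd, c] with j a1 a2 a3 a4 a5 a6 a7
      obtain ⟨s, s1, s2⟩ := hE_PJ1 Γ a b E (T j) (ρ j) (n j) l _ (h j) (P j) (Q j) (d j) (hT j)
        (hR j) hl (h j).2 ⟨n1, a4⟩ (On.of_eq hΛ.pos.le a1) (On.of_eq hΛ.pos.le a2) ⟨n2, a5⟩
        (le_add_of_nonneg_right (ds_nonneg _ _)) (le_add_of_nonneg_left (ds_nonneg _ _))
        (by exact_mod_cast a3) a6 a7
      have e := ht j (s1 ▸ s.2)
      exact ⟨e, by rwa [Subtype.ext (e.trans s1.symm)]⟩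
    refine ⟨(mk'_eq_iff U _ _).2 (k.mono fun j => And.left), Or.inl ?_⟩
    rw [hRt, finOrder_mk', ← Ultrafilter.eventually_not]
    exact k.mono fun j => And.right
  · have k : ∀ᶠ j in (U : Filter J), (t j : MM Γ b) = d j ∧ Ls (E.kh l) (md (d j)) := by
      filter_upwards [eP, eQ, h20, h1, hd, c] with j a1 a2 a3 a4 a6 a7
      have a8 := (not_ll_iff' hΛ.pos).1 a7
      exact ⟨ht j (hE_PJ2 Γ b (T j) (E.kh l) _ (h j) (P j) (Q j) (d j) (hT j) hΛ (h j).2 ⟨n1, a4⟩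
        (On.of_eq hΛ.pos.le a1) (On.of_eq hΛ.pos.le a2)
        (le_add_of_nonneg_right (ds_nonneg _ _)) (le_add_of_nonneg_left (ds_nonneg _ _))
        (by exact_mod_cast a3) a6 a8), a8⟩
    refine ⟨(mk'_eq_iff U _ _).2 (k.mono fun j => And.left), Or.inr fun κ hκ => ?_⟩
    obtain ⟨κ, rfl⟩ := mk'_surjective U κ
    rw [ET.zK_mk', ET.abs_mk', md_mk', ← mk'_mulK] at hκ
    obtain ⟨n3, hκ⟩ := (GT.ls_mk'_kh U _ _).1 hκ
    have k2 : ∀ᶠ j in (U : Filter J), ∃ N : ℤ, κ j = (N : b.Z) := by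
      filter_upwards [k, hκ, hd] with j a1 a2 a3
      rw [a1.1] at a2
      exact Epu.int_of_ls (one_pos.trans_le (one_le_md' a3.1)) ⟨n3, a2⟩ a1.2
    obtain ⟨N, hN⟩ := k2.choice
    refine ⟨⟨_, ET.mk'_mem_UT U fun j => t j ^ N j⟩, ?_, a.mk' U fun j => (N j : a.Z), ?_⟩
    · rw [ipow_mk']
      refine (mk'_eq_iff U (fun j => ((t j ^ N j : T j) : MM Γ b)) _).2 (hN.mono fun j hj => ?_)
      rw [hj, ipow_intCast, Subgroup.coe_zpow]
    · rw [hU (fun j => t j ^ N j) _ rfl, hRt, ipow_mk']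
      simp only [ipow_intCast, map_zpow]

end Pool.Agent.P.MP_dba3d2_lc
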