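import Pool.Agent.P.MP_dba3d2_lc.E.Iface2
import Pool.Agent.P.MP_dba3d2_lc.A.Iface
import Pool.Agent.P.MP_dba3d2_lc.E.Bas
import Pool.Agent.P.MP_dba3d2_lc.B.Axis

/-! Step E_PW of the stability project. -/

namespace Pool.Agent.P.MP_dba3d2_lc

open Filter

namespace EPwA

theorem shift {Γ : HG} {b : Amb} (hL : S_LINE) {μ : b.K} {d p q : MM Γ b}
    (hd : ¬ IsOfFinOrder d) (hs : Stab μ p q d) (hpq : Ls (ds p q) μ) :
    ∃ k : b.Z, Ls (|zK k| * md d) μ ∧ Ll (ds q (ipow d k * p)) μ := by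
  obtain ⟨z, hz⟩ := exists_md_ds d
  obtain ⟨L, hL1, hL2⟩ := exists_coord hL hd (Ls.of_le hz.le)
  obtain ⟨h1, -, h3⟩ := hL2 μ hs.md
  obtain ⟨i, hi⟩ := (h3 p).1 hs.1
  obtain ⟨j, hj⟩ := (h3 q).1 hs.2
  refine ⟨j - i, ?_, ?_⟩
  · obtain ⟨n, hn⟩ := hL1.2
    have h4 := (h1 j i).2
    have h5 := ds_tri (ipow d j * z) q (ipow d i * z)
    have h6 := ds_tri q p (ipow d i * z)
    rw [ds_comm _ q] at h5
    rw [ds_comm q p] at h6
    have h7 : Ls (|zK j - zK i| * L) μ :=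
      Ls.mono_left (by linarith) ((hj.ls.add hpq).add hi.ls)
    refine Ls.mono_left ?_ (h7.nat_mul n)
    rw [zK_sub, mul_left_comm]
    exact mul_le_mul_of_nonneg_left hn (abs_nonneg _)
  · refine Ll.mono_left ?_ (hj.add hi)
    have e : ipow d j * z = ipow d (j - i) * (ipow d i * z) := by
      rw [← mul_assoc, ← ipow_add, sub_add_cancel]
    have := ds_tri q (ipow d j * z) (ipow d (j - i) * p)
    rwa [show ds (ipow d j * z) (ipow d (j - i) * p) = ds p (ipow d i * z) by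
      rw [e, ds_mul_left, ds_comm]] at this

end EPwA

theorem p_E_PW (hLINE : S_LINE) (hE_COR : S_E_COR) :
    S_E_PW := by
  intro Γ a b E S θ T ρ hR s t p q hb μ hn hp hq ht hs hw hfin
  have hμ : Big μ := (E.big_iff).2 hb
  have h1 : Ls (ds 1 (θ s)) μ := by rw [ds_one_left]; exact hR.ls s
  have hpq : Ls (ds p q) μ := by
    have a1 := hp.ls_left h1
    have a2 := hq.ls_left h1
    rw [ds_one_left] at a1 a2
    exact Ls.mono_left (ds_le_ln p q) (a1.add a2)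
  obtain ⟨k, hk, hk'⟩ := EPwA.shift hLINE ht.1 hs hpq
  obtain ⟨t', e1, k', e2⟩ := hw k hk
  obtain ⟨l, r, -, rfl⟩ := exists_divmod k' Γ.e Γ.good.pos
  have e3 : ipow (1 : MM Γ a) l = 1 := by simpa using ipow_pow' (1 : MM Γ a) 0 l
  rw [ipow_add, ipow_mul, ipow_natCast, ipow_natCast, isOfFinOrder_iff.1 hfin, e3, one_mul] at e2
  obtain ⟨c1, c2, c3⟩ := hE_COR Γ a b E S θ T ρ hR s hb s (Ls.refl' _)
  obtain ⟨P, hP⟩ := c1 p hp
  obtain ⟨Q, hQ⟩ := c1 q hq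
  have f1 := fix_pow ((c3 s (Ls.refl' _) P p P p hP hP).1 t hs.1) r
  have f2 := (c3 s (Ls.refl' _) Q q P p hQ hP).1 t' (e1 ▸ hk')
  rw [e2, ds_comm] at f2
  have f3 : Ll (E.kh (ds P Q)) μ := (E.ll_iff).2 (Ll.mono_left (ds_tri _ _ _) (f1.add f2))
  refine Ll.not_ls (Ll.mono_left ?_ ((c2 P p Q q hP hQ).add f3)) hμ.pos hn
  linarith [le_abs_self (ds p q - E.kh (ds P Q))]

end Pool.Agent.P.MP_dba3d2_lc
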