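import Pool.Agent.P.MP_dba3d2_lc.E.Iface2
import Pool.Agent.P.MP_dba3d2_lc.A.Iface
import Pool.Agent.P.MP_dba3d2_lc.B.Axis2

/-! Step E_SZ of the stability project. -/

namespace Pool.Agent.P.MP_dba3d2_lc

open Filter

namespace E_szA

variable {Γ : HG} {a : Amb}

theorem len_pow (g : Γ.G) (n : ℕ) : Γ.len (g ^ n) ≤ n * Γ.len g := by
  induction n with
  | zero => rw [pow_zero, (Γ.len_eq_zero 1).2 rfl]; exact Nat.zero_le _
  | succ n ih =>
    have := Γ.len_mul (g ^ n) g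
    rw [← pow_succ] at this
    rw [Nat.succ_mul]
    omega

theorem len_zpow (g : Γ.G) (n : ℤ) : (Γ.len (g ^ n) : ℝ) ≤ |(n : ℝ)| * Γ.len g := by
  obtain ⟨m, rfl | rfl⟩ := n.eq_nat_or_neg
  · rw [zpow_natCast, Int.cast_natCast, Nat.abs_cast]
    exact_mod_cast len_pow g m
  · rw [zpow_neg, zpow_natCast, Γ.len_inv, Int.cast_neg, abs_neg, Int.cast_natCast, Nat.abs_cast]
    exact_mod_cast len_pow g m

theorem ln_ipow (g : MM Γ a) (k : a.Z) : ln (ipow g k) ≤ |zK k| * ln g := by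
  induction g using Germ.inductionOn with | h f => ?_
  induction k using Germ.inductionOn with | h l => ?_
  rw [Germ.abs_def]
  exact Bas1.gle fun i => len_zpow (f i) (l i)

theorem disp_ipow_le (c p : MM Γ a) (k : a.Z) : ds p (ipow c k * p) ≤ |zK k| * ds p (c * p) := by
  have := ipow_conj p⁻¹ c k
  rw [inv_inv] at this
  rw [ds_conj, ds_conj, ← this]
  exact ln_ipow _ k

end E_szA

open E_szA

theorem p_E_SZ (hELEM : S_ELEM) (hLINE : S_LINE) :
    S_E_SZ := by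
  intro Γ a c f k hc hf h
  refine ⟨?_, fun p => ⟨disp_ipow_le c p k, ?_⟩⟩
  · obtain ⟨q, hq⟩ := exists_md_ds c
    obtain ⟨L, hL1, hL2⟩ := (hLINE Γ a c q hc (Ls.of_le hq.le)).1
    have e := pow_sq_eq hELEM hc hf (ipow_mem_Ep c k) h
    have h1 := (hL2 (k * ((Γ.e * Γ.e : ℕ) : a.Z))).2.2
    rw [← ipow_pow, ← e, zK_mul, zK_natCast, abs_mul, Nat.abs_cast] at h1
    have h2 := h1.trans (md_pow_le f _)
    have h0 : (0 : a.K) < ((Γ.e * Γ.e : ℕ) : a.K) := Nat.cast_pos.2 (Nat.pos_of_ne_zero (ee_ne_zero Γ))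
    have h3 : |zK k| * L ≤ md f := le_of_mul_le_mul_left (by linarith only [h2]) h0
    obtain ⟨n, hn⟩ := hL1.2
    refine Ls.trans' ⟨n, ?_⟩ (Ls.of_le h3)
    have := mul_le_mul_of_nonneg_left hn (abs_nonneg (zK k))
    linarith only [this]
  · have e : f = ipow c k * (f⁻¹ * ipow c k)⁻¹ := by group
    have h1 := disp_mul (ipow c k) (f⁻¹ * ipow c k)⁻¹ p
    rw [← e, disp_inv] at h1
    have h2 := tors_disp hLINE hc (mul_mem (inv_mem hf) (ipow_mem_Ep c k)) h p
    have h3 := disp_ipow_le c p k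
    have h4 := ds_nonneg p (c * p)
    have h5 := mul_nonneg (abs_nonneg (zK k)) h4
    exact Ls.mono_left h1 ((Ls.of_le (by linarith only [h3, h4])).add
      (h2.mono_right (by linarith only [h5])))

end Pool.Agent.P.MP_dba3d2_lc
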