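import Pool.Agent.P.MP_dba3d2_lc.E.Iface2
import Pool.Agent.P.MP_dba3d2_lc.E.Bas

/-! Step E_TCEN of the stability project. -/

namespace Pool.Agent.P.MP_dba3d2_lc

open Filter

namespace E_tcen

variable {Γ : HG} {a b : Amb} {E : Ext a b} {S : Subgroup (MM Γ a)} {θ : S →* MM Γ b}
  {T : Subgroup (MM Γ b)} {ρ : T →* MM Γ a}

theorem sim_add (h : Rf E S θ T ρ) (d d' : S) :
    Sim (ln (θ d) + ln (θ d')) (E.kh (ln (d : MM Γ a) + ln (d' : MM Γ a))) := by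
  rw [map_add]
  have p1 := ln_nonneg (θ d)
  have p2 := ln_nonneg (θ d')
  have p3 := (GT.kh_nonneg E).2 (ln_nonneg (d : MM Γ a))
  have p4 := (GT.kh_nonneg E).2 (ln_nonneg (d' : MM Γ a))
  exact ⟨((h.sim d).1.mono_right (by linarith)).add ((h.sim d').1.mono_right (by linarith)),
    ((h.sim d).2.mono_right (by linarith)).add ((h.sim d').2.mono_right (by linarith))⟩

theorem key (hG : S_E_GEO) (hT : S_E_TMD) (h : Rf E S θ T ρ) (d d' s0 : S)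
    (hd : ¬ IsOfFinOrder (d : MM Γ a))
    (l1 : ln (d : MM Γ a) ≤ ln (s0 : MM Γ a)) (l2 : ln (d' : MM Γ a) ≤ ln (s0 : MM Γ a))
    (l3 : ln (s0 : MM Γ a) ≤ ln (d : MM Γ a) + ln (d' : MM Γ a))
    (hc : ∀ z : MM Γ a, Ls (ln (d : MM Γ a) + ln (d' : MM Γ a))
      (ln (z⁻¹ * (d : MM Γ a) * z) + ln (z⁻¹ * (d' : MM Γ a) * z))) (q : MM Γ b) :
    Ls (ln (θ d) + ln (θ d')) (ln (q⁻¹ * θ d * q) + ln (q⁻¹ * θ d' * q)) := by
  have p1 := ln_nonneg (q⁻¹ * θ d * q)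
  have p2 := ln_nonneg (q⁻¹ * θ d' * q)
  have s1 : Ls (ln (θ d) + ln (θ d')) (E.kh (ln (s0 : MM Γ a))) :=
    (sim_add h d d').1.trans' (E.ls_iff.2 ((Ls.of_le l1).add (Ls.of_le l2)))
  refine s1.trans' ?_
  by_cases hb : Big (ln (s0 : MM Γ a))
  swap
  · have o := (one_le_md' fun k => hd ((h.fin d).1 k)).trans (md_le (θ d) q)
    exact ls_of_scale (by linarith) fun k _ => hb (E.big_iff.1 k)
  have fin : ∀ w : S, Ls (ln (w : MM Γ a)) (ln (s0 : MM Γ a)) →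
      Ls (ln (s0 : MM Γ a)) (md (w : MM Γ a)) → Ls (E.kh (ln (s0 : MM Γ a))) (md (θ w)) := by
    intro w h1 h2
    have k := (hT _ _ _ E S θ T ρ h).1 s0 w hb h1
    refine Ls.of_le_add (E.ls_iff.2 h2) k (E.big_iff.2 hb).pos 1 ?_
    have := neg_abs_le (md (θ w) - E.kh (md (w : MM Γ a)))
    push_cast; linarith
  rcases ll_or_ls hb.pos (md (d : MM Γ a)) with k1 | k1
  swap
  · exact (fin d (Ls.of_le l1) k1).mono_right ((md_le _ q).trans (by linarith))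
  rcases ll_or_ls hb.pos (md (d' : MM Γ a)) with k2 | k2
  swap
  · exact (fin d' (Ls.of_le l2) k2).mono_right ((md_le _ q).trans (by linarith))
  rcases ll_or_ls hb.pos (md ((d : MM Γ a) * (d' : MM Γ a))) with k3 | k3
  · obtain ⟨z, z1, z2⟩ := (hG Γ a _ hb).2 _ _ k1 k2 k3
    rw [ds_conj] at z1 z2
    exact ((z1.add z2).not_ls hb.pos ((hc z).mono_left l3)).elim
  · refine (fin (d * d') (Ls.mono_left (ln_mul_le _ _) ((Ls.of_le l1).add (Ls.of_le l2)))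
      k3).mono_right ((md_le _ q).trans ?_)
    have e : q⁻¹ * θ (d * d') * q = (q⁻¹ * θ d * q) * (q⁻¹ * θ d' * q) := by
      rw [map_mul]; group
    rw [e]; exact ln_mul_le _ _

end E_tcen

theorem p_E_TCEN (hE_GEO : S_E_GEO) (hE_TMD : S_E_TMD) :
    S_E_TCEN := by
  intro Γ a b E S θ T ρ h
  refine ⟨?_, ?_, ?_⟩
  · rintro _ ⟨x, rfl⟩
    exact ⟨⟨cst Γ a x, h.gc.base ⟨x, rfl⟩⟩, h.st _ x rfl⟩
  · intro K hK hf
    have f1 : Finite (K.comap θ) :=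
      Finite.of_injective (fun x : K.comap θ => (⟨θ x, x.2⟩ : K)) fun x y e =>
        Subtype.ext (h.inj (congrArg Subtype.val e))
    have f2 : Finite ((K.comap θ).map S.subtype) :=
      Finite.of_equiv _ ((K.comap θ).equivMapOfInjective _ S.subtype_injective).toEquiv
    obtain ⟨p, hp, k⟩ := h.gc.finc _ (by rintro _ ⟨x, -, rfl⟩; exact x.2) f2
    refine ⟨θ ⟨p, hp⟩, ⟨_, rfl⟩, fun y hy => ?_⟩
    obtain ⟨x, rfl⟩ := hK hy
    obtain ⟨g, hg⟩ := k x ⟨x, hy, rfl⟩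
    refine ⟨g, ?_⟩
    rw [← map_inv, ← map_mul, ← map_mul]
    exact (h.st _ g hg.symm).symm
  · rintro _ ⟨c, rfl⟩ _ ⟨c', rfl⟩ hc hc'
    rw [h.fin] at hc hc'
    obtain ⟨p, hp, k1, k2⟩ := h.gc.cen c c.2 c' c'.2 hc hc'
    refine ⟨θ ⟨p, hp⟩, ⟨_, rfl⟩, ((h.ls _).trans' (E.ls_iff.2 k1)).trans'
      (E_tcen.sim_add h c c').2, fun q => ?_⟩
    set P : S := ⟨p, hp⟩
    have e1 : ∀ x : S, (θ P)⁻¹ * θ x * θ P = θ (P⁻¹ * x * P) := fun x => by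
      rw [map_mul, map_mul, map_inv]
    have e2 : ∀ x : S, q⁻¹ * θ x * q = ((θ P)⁻¹ * q)⁻¹ * θ (P⁻¹ * x * P) * ((θ P)⁻¹ * q) :=
      fun x => by rw [← e1]; group
    have e3 : ∀ (x : S) (z : MM Γ a), z⁻¹ * ((P⁻¹ * x * P : S) : MM Γ a) * z =
        (p * z)⁻¹ * x * (p * z) := fun x z => by
      change z⁻¹ * (p⁻¹ * x * p) * z = _
      group
    rw [e1, e1, e2, e2]
    have hd : ¬ IsOfFinOrder ((P⁻¹ * c * P : S) : MM Γ a) := fun k =>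
      hc ((finOrder_conj' p c).1 k)
    have hz : ∀ z : MM Γ a, Ls (ln ((P⁻¹ * c * P : S) : MM Γ a) + ln ((P⁻¹ * c' * P : S) : MM Γ a))
        (ln (z⁻¹ * ((P⁻¹ * c * P : S) : MM Γ a) * z) +
          ln (z⁻¹ * ((P⁻¹ * c' * P : S) : MM Γ a) * z)) := fun z => by
      rw [e3, e3]; exact k2 _
    have p1 := ln_nonneg ((P⁻¹ * c * P : S) : MM Γ a)
    have p2 := ln_nonneg ((P⁻¹ * c' * P : S) : MM Γ a)
    rcases le_total (ln ((P⁻¹ * c * P : S) : MM Γ a)) (ln ((P⁻¹ * c' * P : S) : MM Γ a)) with l | l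
    · exact E_tcen.key hE_GEO hE_TMD h _ _ _ hd l le_rfl (by linarith) hz _
    · exact E_tcen.key hE_GEO hE_TMD h _ _ _ hd le_rfl l (by linarith) hz _

end Pool.Agent.P.MP_dba3d2_lc
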