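import Pool.Agent.P.MP_dba3d2_lc.E.Iface2
import Pool.Agent.P.MP_dba3d2_lc.A.Iface
import Pool.Agent.P.MP_dba3d2_lc.B.Iface
import Pool.Agent.P.MP_dba3d2_lc.E.Bas

/-! Step E_TEX of the stability project. -/

namespace Pool.Agent.P.MP_dba3d2_lc

open Filter

namespace E_tex

theorem prim (hELEM : S_ELEM) (hROOT : S_ROOT) (hE_CHI : S_E_CHI) {Γ : HG} {a b : Amb}
    {E : Ext a b} {S : Subgroup (MM Γ a)} {θ : S →* MM Γ b} {T : Subgroup (MM Γ b)}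
    {ρ : T →* MM Γ a} (h : Rf2 E S θ T ρ) (c : S) (hc : Prim (θ c)) : Prim (c : MM Γ a) := by
  have n1 : ¬ IsOfFinOrder (c : MM Γ a) := fun e => hc.1 ((h.toRf.fin c).2 e)
  obtain ⟨c0, m0, p0, e0⟩ := (hROOT Γ a S h.gc.toGC0).1 c c.2 n1
  have p1 := h.prim ⟨c0, m0⟩ p0
  have m1 : (c : MM Γ a) ∈ Ep c0 := e0 ▸ self_mem_Ep _
  obtain ⟨χ, x1, -, -, -, -, -, -, -, -, x2⟩ := hE_CHI Γ a c0 p0
  refine (x2 c m1).2 ((Prim.pm hELEM p1 hc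
    (Ep_eq hELEM p1.1 ((h.toRf.memEp c ⟨c0, m0⟩).2 m1) hc.1)).imp (fun e => ?_) fun e => ?_)
  · rw [← map_inv, ← map_mul, h.toRf.fin] at e
    rw [x1 c m1, ipow_one]
    exact e
  · rw [← map_inv, ← map_inv, ← map_mul, h.toRf.fin] at e
    rw [x1 c m1, ipow_neg, ipow_one]
    exact e

end E_tex

theorem p_E_TEX (hELEM : S_ELEM) (hROOT : S_ROOT) (hE_CHI : S_E_CHI) (hE_TMD : S_E_TMD) :
    S_E_TEX := by
  intro Γ a b E S θ T ρ h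
  constructor
  · rintro μ hμ _ ⟨s, rfl⟩ hs _ ⟨c, rfl⟩ hc hl hm
    have pc := E_tex.prim hELEM hROOT hE_CHI h c hc
    obtain ⟨s0, l1, l2, l3⟩ : ∃ s0 : S, ln (s : MM Γ a) ≤ ln (s0 : MM Γ a) ∧
        ln (c : MM Γ a) ≤ ln (s0 : MM Γ a) ∧ Ls (ln (θ s0)) μ := by
      rcases le_total (ln (s : MM Γ a)) (ln (c : MM Γ a)) with e | e
      · exact ⟨c, e, le_rfl, hl⟩
      · exact ⟨s, le_rfl, e, hs⟩
    rcases ll_or_ls hμ.pos (E.kh (ln (s0 : MM Γ a))) with e | e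
    · refine ⟨1, one_mem _, one_mem _, ?_⟩
      have k := Ll.ls_left ((h.toRf.ls s).mono_right (E.kh_le.2 l1)) e
      refine k.two.mono_left ?_
      rw [ds_one_left]
      linarith [ln_nonneg (θ c), ln_nonneg ((θ s)⁻¹ * θ c * θ s)]
    · have e' : Ls (E.kh (ln (s0 : MM Γ a))) μ := (h.toRf.sim s0).2.trans' l3
      have b1 : Big (E.kh (ln (s0 : MM Γ a))) := hμ.of_ls e
      have b0 := E.big_iff.1 b1
      have m1 : Ll (md (c : MM Γ a)) (ln (s0 : MM Γ a)) := E.ll_iff.1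
        (Ll.ls_left ((hE_TMD Γ a b E S θ T ρ h.toRf).2 c pc.1).2 (hm.ls_right e b1.pos.le))
      obtain ⟨f, f1, f2, f3⟩ := h.gc.ex _ b0 s s.2 (Ls.of_le l1) c c.2 pc (Ls.of_le l2) m1
      have q1 : ln ((s : MM Γ a)⁻¹ * (c : MM Γ a) * (s : MM Γ a)) ≤ 3 * ln (s0 : MM Γ a) := by
        have := ln_mul_le ((s : MM Γ a)⁻¹ * (c : MM Γ a)) s
        have := ln_mul_le (s : MM Γ a)⁻¹ c
        rw [ln_inv] at this
        linarith
      have q2 : Ls (ln ((s : MM Γ a)⁻¹ * (c : MM Γ a) * (s : MM Γ a))) (ln (s0 : MM Γ a)) := ⟨3, by push_cast; exact q1⟩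
      have q3 : Ls (ds f s) (ln (s0 : MM Γ a)) :=
        ((f3.ls.add (Ls.of_le l2)).add q2).mono_left (by linarith [ds_nonneg f s])
      have r1 := h.toRf.len s0 ((⟨f, f1⟩ : S)⁻¹ * s) b0 q3
      have r2 := h.toRf.len s0 c b0 (Ls.of_le l2)
      have r3 := h.toRf.len s0 (s⁻¹ * c * s) b0 q2
      have r4 := E.ll_iff.2 f3
      refine ⟨θ ⟨f, f1⟩, ⟨_, rfl⟩, (h.toRf.memEp _ _).2 f2,
        Ll.ls_right ?_ e' hμ.pos.le⟩
      refine (((r4.add r1.two).add r2).add r3).mono_left ?_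
      have t1 := le_abs_self (ln (θ ((⟨f, f1⟩ : S)⁻¹ * s)) -
        E.kh (ln (((⟨f, f1⟩ : S)⁻¹ * s : S) : MM Γ a)))
      have t2 := neg_abs_le (ln (θ c) - E.kh (ln (c : MM Γ a)))
      have t3 := neg_abs_le (ln (θ (s⁻¹ * c * s)) - E.kh (ln ((s⁻¹ * c * s : S) : MM Γ a)))
      have t4 : ds (θ ⟨f, f1⟩) (θ s) = ln (θ ((⟨f, f1⟩ : S)⁻¹ * s)) := by
        rw [map_mul, map_inv, ds]
      have t5 : ln ((θ s)⁻¹ * θ c * θ s) = ln (θ (s⁻¹ * c * s)) := by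
        rw [map_mul, map_mul, map_inv]
      have t6 : E.kh (2 * ds f s - (ln (c : MM Γ a) + ln ((s : MM Γ a)⁻¹ * (c : MM Γ a) * (s : MM Γ a)))) =
          2 * E.kh (ln (((⟨f, f1⟩ : S)⁻¹ * s : S) : MM Γ a)) - (E.kh (ln (c : MM Γ a)) +
            E.kh (ln ((s⁻¹ * c * s : S) : MM Γ a))) := by
        rw [map_sub, map_mul, map_add, map_ofNat]
        rfl
      rw [t4, t5, t6]
      linarith
  · rintro _ ⟨c, rfl⟩ hc _ ⟨f, rfl⟩ hf n hn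
    obtain ⟨g, g1, g2, r, g3⟩ := h.gc.pur c c.2 (E_tex.prim hELEM hROOT hE_CHI h c hc) f f.2
      ((h.toRf.memEp _ _).1 hf) n hn
    refine ⟨θ ⟨g, g1⟩, ⟨_, rfl⟩, (h.toRf.memEp _ _).2 g2, r, ?_⟩
    rw [← map_pow, ← map_pow, ← map_inv, ← map_mul, ← map_mul, h.toRf.fin]
    exact g3

end Pool.Agent.P.MP_dba3d2_lc
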