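import Pool.Agent.P.MP_dba3d2_lc.E.Iface2
import Pool.Agent.P.MP_dba3d2_lc.A.Iface
import Pool.Agent.P.MP_dba3d2_lc.E.Bas

/-! Step E_TG2 of the stability project. -/

namespace Pool.Agent.P.MP_dba3d2_lc

open Filter ET

namespace E_tg2

variable {Γ : HG} {a b : Amb} {E : Ext a b} {S : Subgroup (MM Γ a)} {θ : S →* MM Γ b}
  {T : Subgroup (MM Γ b)} {ρ : T →* MM Γ a}

theorem core (hC : S_E_COR) (h : Rf E S θ T ρ) (s : S) (hb : Big (ln (s : MM Γ a)))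
    {p q : MM Γ b} (hn : Ls (E.kh (ln (s : MM Γ a))) (ds p q))
    (hp : On (E.kh (ln (s : MM Γ a))) p 1 (θ s)) (hq : On (E.kh (ln (s : MM Γ a))) q 1 (θ s)) :
    ∃ P Q, Cor E (ln (s : MM Γ a)) s (θ s) P p ∧ Cor E (ln (s : MM Γ a)) s (θ s) Q q ∧
      Ls (ln (s : MM Γ a)) (ds P Q) ∧ (Per (ln (s : MM Γ a)) P Q →
        ∃ c : S, Prim (c : MM Γ a) ∧ Stab (E.kh (ln (s : MM Γ a))) p q (θ c)) := by
  obtain ⟨c1, c2, c3⟩ := hC Γ a b E S θ T ρ h s hb s (Ls.refl' _)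
  obtain ⟨P, hP⟩ := c1 p hp
  obtain ⟨Q, hQ⟩ := c1 q hq
  have nd : Ls (ln (s : MM Γ a)) (ds P Q) := E.ls_iff.1 (hn.of_le_add (c2 P p Q q hP hQ)
    (E.big_iff.2 hb).pos 1 (by
      have := le_abs_self (ds p q - E.kh (ds P Q))
      rw [Nat.cast_one, one_mul]
      linarith))
  refine ⟨P, Q, hP, hQ, nd, fun hper => ?_⟩
  obtain ⟨c, hc, h1, h2⟩ := h.gc.g20 _ hb s s.2 (Ls.refl' _) P Q nd hP.dn hQ.dn hper
  exact ⟨⟨c, hc⟩, h1, (c3 s (Ls.refl' _) P p P p hP hP).2 ⟨c, hc⟩ h2.1,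
    (c3 s (Ls.refl' _) Q q Q q hQ hQ).2 ⟨c, hc⟩ h2.2⟩

end E_tg2

theorem p_E_TG2 (hPERC : S_PERC) (hE_COR : S_E_COR) :
    S_E_TG2 := by
  intro Γ a b E S θ T ρ h
  constructor
  · rintro μ hμ _ ⟨s, rfl⟩ _ ⟨s', rfl⟩ h1 h2 g p q hov hn
    obtain ⟨hs, hb⟩ := h.toRf.scale s hμ h1 hov.2.1 hov.2.2.1 hov.1
    have hν := E.big_iff.2 hb
    rw [hs.ov_iff hμ.pos.le hν.pos.le] at hov
    rw [hs.per_iff hμ.pos.le hν.pos.le] at hn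
    have hs' : Ls (ln (s' : MM Γ a)) (ln (s : MM Γ a)) :=
      E.ls_iff.1 (((h.toRf.sim s').2.trans' h2).trans' hs.1)
    have hg : g ∈ T := h.g2 s s' hb hs' g p q hov hn
    obtain ⟨P, Q, hP, hQ, nd, hA⟩ := E_tg2.core hE_COR h.toRf s hb hov.1 hov.2.1 hov.2.2.1
    have c1 := (hE_COR Γ a b E S θ T ρ h.toRf s hb s' hs').1
    have c3 := (hE_COR Γ a b E S θ T ρ h.toRf s hb s (Ls.refl' _)).2.2 s' hs'
    obtain ⟨P', hP'⟩ := c1 (g⁻¹ * p) (by simpa using hov.2.2.2.1.mul g⁻¹)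
    obtain ⟨Q', hQ'⟩ := c1 (g⁻¹ * q) (by simpa using hov.2.2.2.2.mul g⁻¹)
    have d1 := (c3 P p P' _ hP hP').1 ⟨g, hg⟩ (by simpa using Ll.zero hν.pos.le)
    have d2 := (c3 Q q Q' _ hQ hQ').1 ⟨g, hg⟩ (by simpa using Ll.zero hν.pos.le)
    have hy : ρ ⟨g, hg⟩ ∈ S := by
      refine h.gc.g2 _ hb s s.2 s' s'.2 (Ls.refl' _) hs' _ P Q ⟨nd, hP.dn, hQ.dn, ?_, ?_⟩
        fun hper => ?_
      · exact (hP'.dn.mul _).congr (FixA.ll_comm d1) (by simpa using Ll.zero hb.pos.le)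
          (FixA.ll_self hb.pos.le _)
      · exact (hQ'.dn.mul _).congr (FixA.ll_comm d2) (by simpa using Ll.zero hb.pos.le)
          (FixA.ll_self hb.pos.le _)
      · obtain ⟨c, hc, h3⟩ := hA hper
        exact hn ⟨θ c, fun f => hc.1 ((h.toRf.fin c).1 f), h3⟩
    have u1 := (c3 P p P' _ hP hP').2 ⟨_, hy⟩ d1
    have u2 := (c3 Q q Q' _ hQ hQ').2 ⟨_, hy⟩ d2
    rw [← mul_assoc] at u1 u2
    have hf : IsOfFinOrder (θ ⟨_, hy⟩ * g⁻¹) := by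
      by_contra f
      exact hn ⟨_, f, u1, u2⟩
    have e := h.tor (⟨θ ⟨_, hy⟩, h.mem _⟩ * (⟨g, hg⟩ : T)⁻¹) ((finOrder_coe _).1 hf)
      (by rw [map_mul, map_inv, h.toRf.rho, mul_inv_cancel])
    exact ⟨⟨_, hy⟩, congrArg Subtype.val (mul_inv_eq_one.1 e)⟩
  · rintro μ hμ _ ⟨s, rfl⟩ h1 p q hn hp hq hper
    obtain ⟨hs, hb⟩ := h.toRf.scale s hμ h1 hp hq hn
    have hν := E.big_iff.2 hb
    rw [hs.on_iff hμ.pos.le hν.pos.le] at hp hq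
    rw [hs.per_iff hμ.pos.le hν.pos.le] at hper
    have hn' := hs.2.trans' hn
    obtain ⟨P, Q, hP, hQ, -, hA⟩ := E_tg2.core hE_COR h.toRf s hb hn' hp hq
    have c3 := (hE_COR Γ a b E S θ T ρ h.toRf s hb s (Ls.refl' _)).2.2 s (Ls.refl' _)
    obtain ⟨d, hd, h2, -⟩ := hPERC Γ b _ p q hν hn' hper
    obtain ⟨t, rfl, ht⟩ := h.per s hb p q d hn' hp hq hd h2
    obtain ⟨c, hc, h3⟩ := hA ⟨ρ t, ht, (c3 P p P p hP hP).1 t h2.1, (c3 Q q Q q hQ hQ).1 t h2.2⟩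
    exact ⟨θ c, ⟨c, rfl⟩, h.prim c hc, (hs.stab_iff hμ.pos.le hν.pos.le).2 h3⟩

end Pool.Agent.P.MP_dba3d2_lc
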