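import Pool.Agent.P.MP_dba3d2_lc.E.Iface2
import Pool.Agent.P.MP_dba3d2_lc.E.Bas

/-! Step E_TMD of the stability project. -/

namespace Pool.Agent.P.MP_dba3d2_lc

open Filter

namespace E_tmd

variable {Γ : HG} {a b : Amb}

theorem kh_max (E : Ext a b) (x y : a.K) : E.kh (max x y) = max (E.kh x) (E.kh y) := by
  rcases le_total x y with h | h
  · rw [max_eq_right h, max_eq_right (E.kh_le.2 h)]
  · rw [max_eq_left h, max_eq_left (E.kh_le.2 h)]

theorem one {E : Ext a b} {S : Subgroup (MM Γ a)} {θ : S →* MM Γ b} {T : Subgroup (MM Γ b)}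
    {ρ : T →* MM Γ a} (hG : S_E_GEO) (h : Rf E S θ T ρ) (s0 w : S) (h0 : Big (ln (s0 : MM Γ a)))
    (hw : Ls (ln (w : MM Γ a)) (ln (s0 : MM Γ a))) :
    Ll |md (θ w) - E.kh (md (w : MM Γ a))| (E.kh (ln (s0 : MM Γ a))) := by
  have a1 := E.ll_iff.2 ((hG Γ a _ h0).1 (w : MM Γ a))
  have a2 := (hG Γ b _ (E.big_iff.2 h0)).1 (θ w)
  have a3 := h.len s0 w h0 hw
  have a4 := h.len s0 (w * w) h0 (Ls.mono_left (ln_mul_le _ _) (hw.add hw))
  rw [E.kh_abs, map_sub, kh_max, map_sub, map_zero] at a1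
  rw [map_mul, Subgroup.coe_mul] at a4
  refine Ll.mono_left ?_ ((a1.add a2).add (a3.add a4))
  have b1 := abs_max_sub_max_le_abs (ln (θ w * θ w) - ln (θ w))
    (E.kh (ln ((w : MM Γ a) * (w : MM Γ a))) - E.kh (ln (w : MM Γ a))) 0
  set A := max (ln (θ w * θ w) - ln (θ w)) 0
  set B := max (E.kh (ln ((w : MM Γ a) * (w : MM Γ a))) - E.kh (ln (w : MM Γ a))) 0
  have b2 : |ln (θ w * θ w) - ln (θ w) - (E.kh (ln ((w : MM Γ a) * (w : MM Γ a))) - E.kh (ln (w : MM Γ a)))| ≤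
      |ln (θ w) - E.kh (ln (w : MM Γ a))| + |ln (θ w * θ w) - E.kh (ln ((w : MM Γ a) * (w : MM Γ a)))| := by
    have c1 := le_abs_self (ln (θ w) - E.kh (ln (w : MM Γ a)))
    have c2 := neg_abs_le (ln (θ w) - E.kh (ln (w : MM Γ a)))
    have c3 := le_abs_self (ln (θ w * θ w) - E.kh (ln ((w : MM Γ a) * (w : MM Γ a))))
    have c4 := neg_abs_le (ln (θ w * θ w) - E.kh (ln ((w : MM Γ a) * (w : MM Γ a))))
    exact abs_le.2 ⟨by linarith, by linarith⟩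
  have c1 := le_abs_self (E.kh (md (w : MM Γ a)) - B)
  have c2 := neg_abs_le (E.kh (md (w : MM Γ a)) - B)
  have c3 := le_abs_self (md (θ w) - A)
  have c4 := neg_abs_le (md (θ w) - A)
  have c5 := le_abs_self (A - B)
  have c6 := neg_abs_le (A - B)
  exact abs_le.2 ⟨by linarith, by linarith⟩

end E_tmd

theorem p_E_TMD (hE_GEO : S_E_GEO) :
    S_E_TMD := by
  intro Γ a b E S θ T ρ h
  refine ⟨fun s0 w h0 hw => E_tmd.one hE_GEO h s0 w h0 hw, fun c hc => ?_⟩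
  obtain ⟨p, hp, -, hcen⟩ := h.gc.toGC0.cen1 c.2 hc
  let P : S := ⟨p, hp⟩
  have e1 : md (θ c) = md (θ (P⁻¹ * c * P)) := by
    rw [map_mul, map_mul, map_inv, md_conj]
  have e2 : md (c : MM Γ a) = md ((P⁻¹ * c * P : S) : MM Γ a) := (md_conj _ p).symm
  have hc0 : Ls (ln ((P⁻¹ * c * P : S) : MM Γ a)) (md ((P⁻¹ * c * P : S) : MM Γ a)) := hcen
  rw [e1, e2]
  generalize P⁻¹ * c * P = c0 at hc0
  by_cases k : Big (ln (c0 : MM Γ a))
  · have a1 := E_tmd.one hE_GEO h c0 c0 k (Ls.refl' _)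
    have a2 := E.ls_iff.2 hc0
    have a3 : E.kh (md (c0 : MM Γ a)) ≤ E.kh (ln (c0 : MM Γ a)) := E.kh_le.2 (md_le_ln _)
    have p0 := (E.big_iff.2 k).pos
    have c1 := le_abs_self (md (θ c0) - E.kh (md (c0 : MM Γ a)))
    have c2 := neg_abs_le (md (θ c0) - E.kh (md (c0 : MM Γ a)))
    constructor
    · exact Ls.mono_left (by linarith) ((Ls.refl' _).add (a1.ls.trans' a2))
    · refine Ls.mono_left a3 (Ls.of_le_add a2 a1 p0 1 ?_)
      push_cast; linarith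
  · rw [h.std c0 k, E.md_hom]; exact Sim.refl' _

end Pool.Agent.P.MP_dba3d2_lc
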