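import Pool.Agent.P.MP_dba3d2_lc.E.Iface2
import Pool.Agent.P.MP_dba3d2_lc.A.Iface
import Pool.Agent.P.MP_dba3d2_lc.B.Axis2
import Pool.Agent.P.MP_dba3d2_lc.E.Bas

/-! Step E_TRL of the stability project. -/

namespace Pool.Agent.P.MP_dba3d2_lc

open Filter

namespace Etrl

variable {a : Amb} {μ : a.K}

theorem real_zero (hμ : 0 < μ) {r : ℝ} (h : Ll |cR a r * μ| μ) : r = 0 := by
  have k : ∀ r : ℝ, Ll |cR a r * μ| μ → r ≤ 0 := fun r h => by
    have := (rl_nonpos_iff hμ h.ls).2 (Ll.mono_left (le_abs_self _) h)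
    rwa [cR_apply, rl_real hμ] at this
  refine (k r h).antisymm (neg_nonpos.1 (k (-r) ?_))
  rwa [map_neg, neg_mul, abs_neg]

theorem cR_abs (r : ℝ) : cR a |r| = |cR a r| := Germ.const_abs r

/-- an isometry of the line at scale `μ` is affine -/
theorem affine (hμ : 0 < μ) (x : ℝ → a.K) (h : ∀ s t, Ll |(|x s - x t| - cR a |s - t| * μ)| μ) :
    ∃ ε : ℝ, ∀ t, Ll |x t - x 0 - cR a (ε * t) * μ| μ := by
  have b : ∀ t, Ls |x t - x 0| μ := fun t => by
    refine Ls.mono_left ?_ ((h t 0).ls.add (ET.ls_real hμ.le |t - 0|))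
    have k1 := le_abs_self (|x t - x 0| - cR a |t - 0| * μ)
    have k2 := le_abs_self (cR a |t - 0| * μ)
    rw [← cR_apply]
    linarith
  have c : ∀ t, Ll |x t - x 0 - cR a (rl μ (x t - x 0)) * μ| μ := fun t => ET.ll_sub_rl hμ (b t)
  set f : ℝ → ℝ := fun t => rl μ (x t - x 0) with hf
  have f0 : f 0 = 0 := by simp only [hf, sub_self, rl_zero]
  have iso : ∀ s t, |f s - f t| = |s - t| := fun s t => by
    refine sub_eq_zero.1 (real_zero hμ (Ll.mono_left ?_ (((c s).add (c t)).add (h s t))))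
    have e : cR a (|f s - f t| - |s - t|) * μ =
        (|cR a (f s) * μ - cR a (f t) * μ| - |x s - x t|) + (|x s - x t| - cR a |s - t| * μ) := by
      rw [map_sub, cR_abs (f s - f t), map_sub, ← sub_mul, abs_mul, abs_of_pos hμ]
      ring
    rw [e]
    refine (abs_add_le _ _).trans (add_le_add ((abs_abs_sub_abs_le _ _).trans ?_) le_rfl)
    rw [show cR a (f s) * μ - cR a (f t) * μ - (x s - x t) =
      (x t - x 0 - cR a (f t) * μ) - (x s - x 0 - cR a (f s) * μ) by ring, add_comm]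
    exact abs_sub _ _
  refine ⟨f 1, fun t => ?_⟩
  have e : f t = f 1 * t := by
    have k1 := sq_eq_sq_iff_abs_eq_abs _ _ |>.2 (iso 1 0)
    have k2 := sq_eq_sq_iff_abs_eq_abs _ _ |>.2 (iso t 0)
    have k3 := sq_eq_sq_iff_abs_eq_abs _ _ |>.2 (iso t 1)
    rw [f0] at k1 k2
    have k4 : f 1 * f t = t := by nlinarith
    calc f t = (f 1 * f 1) * f t := by rw [show f 1 * f 1 = 1 by nlinarith, one_mul]
      _ = f 1 * t := by rw [mul_assoc, k4]
  rw [← e]
  exact c t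

/-- rational multiples of a divisible exponent -/
theorem exists_hom (k : a.Z) (hk : ∀ n : ℕ, 0 < n → ∃ l : a.Z, k = (n : a.Z) * l) :
    ∃ κ : ℚ →+ a.Z, ∀ q, zK (κ q) = (q : a.K) * zK k := by
  have ex : ∀ q : ℚ, ∃ m : a.Z, zK m = (q : a.K) * zK k := fun q => by
    obtain ⟨l, hl⟩ := hk q.den q.den_pos
    refine ⟨(q.num : a.Z) * l, ?_⟩
    rw [hl, zK_mul, zK_mul, zK_intCast, zK_natCast, ← mul_assoc]
    congr 1
    exact_mod_cast (Rat.mul_den_eq_num q).symm
  choose κ hκ using ex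
  refine ⟨AddMonoidHom.mk' κ fun q r => ?_, hκ⟩
  have : zK (κ (q + r)) = zK (κ q + κ r) := by rw [zK_add, hκ, hκ, hκ, Rat.cast_add, add_mul]
  exact le_antisymm (zK_le.1 this.le) (zK_le.1 this.ge)

theorem ll_rat {y : a.K} (h : Ll |y| μ) (q : ℚ) : Ll |(q : a.K) * y| μ := by
  obtain ⟨n, hn⟩ := exists_nat_ge |q|
  refine Ll.mono_left ?_ (h.nat_mul n)
  rw [abs_mul]
  exact mul_le_mul_of_nonneg_right (by exact_mod_cast hn) (abs_nonneg _)

end Etrl

theorem p_E_TRL (hLINE : S_LINE) :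
    S_E_TRL := by
  intro Γ a μ L c hμ hL hc hfix
  obtain ⟨z, hz⟩ := exists_md_ds c
  obtain ⟨Lc, hL1, hL2⟩ := exists_coord hLINE hc (Ls.of_le hz.le)
  have hm : Ll (md c) μ := Ll.mono_left (md_le_ds c _) (hfix 0)
  obtain ⟨h1, -, h3⟩ := hL2 μ hm
  have L0 : 0 < Lc := hL1.2.pos (one_pos.trans_le (one_le_md' hc))
  choose i hi using fun t => (h3 (L t)).1 (hfix t)
  have habs : ∀ k l : a.Z, |zK k - zK l| * Lc = |zK k * Lc - zK l * Lc| := fun k l => by
    rw [← sub_mul, abs_mul, abs_of_pos L0]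
  obtain ⟨ε, hε⟩ := Etrl.affine hμ.pos (fun t => zK (i t) * Lc) fun s t => by
    have k0 := hL s t
    rw [← cR_apply] at k0
    obtain ⟨k1, k2⟩ := h1 (i s) (i t)
    rw [habs] at k1 k2
    have k3 := ds_tri (L s) (ipow c (i s) * z) (L t)
    have k4 := ds_tri (ipow c (i s) * z) (ipow c (i t) * z) (L t)
    have k5 := ds_tri (ipow c (i s) * z) (L s) (ipow c (i t) * z)
    have k6 := ds_tri (L s) (L t) (ipow c (i t) * z)
    rw [ds_comm (ipow c (i t) * z) (L t)] at k4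
    rw [ds_comm _ (L s)] at k5
    have k7 := le_abs_self (ds (L s) (L t) - cR a |s - t| * μ)
    have k8 := neg_abs_le (ds (L s) (L t) - cR a |s - t| * μ)
    exact Ll.abs (Ll.mono_left (by linarith) (((hi s).add (hi t)).add k0))
      (Ll.mono_left (by linarith) ((((hi s).add (hi t)).add k0).add k1))
  have hν : Big (μ / Lc) := fun n => (le_div_iff₀ L0).2 (Ll.ls_left hL1.1 hm n)
  obtain ⟨k, hk1, hk2⟩ := exists_divisible (cR a ε * μ / Lc) (μ / Lc) hν
  have hk3 : Ll |zK k * Lc - cR a ε * μ| μ := fun n => by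
    have := (le_div_iff₀ L0).1 (hk2 n)
    rwa [mul_assoc, ← abs_of_pos L0, ← abs_mul, abs_of_pos L0, sub_mul,
      div_mul_cancel₀ _ L0.ne'] at this
  obtain ⟨κ, hκ⟩ := Etrl.exists_hom k hk1
  refine ⟨κ, fun q t => ?_⟩
  obtain ⟨k1, -⟩ := h1 (κ q + i t) (i (t + q))
  rw [habs, zK_add, hκ, ipow_add, mul_assoc] at k1
  have k2 := ds_tri (ipow c (κ q) * L t) (ipow c (κ q) * (ipow c (i t) * z)) (L (t + q))
  have k3 := ds_tri (ipow c (κ q) * (ipow c (i t) * z)) (ipow c (i (t + q)) * z) (L (t + q))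
  rw [ds_mul_left] at k2
  rw [ds_comm (ipow c (i (t + q)) * z) (L (t + q))] at k3
  have k4 : |((q : a.K) * zK k + zK (i t)) * Lc - zK (i (t + q)) * Lc| ≤
      |(q : a.K) * (zK k * Lc - cR a ε * μ)| + |zK (i t) * Lc - zK (i 0) * Lc - cR a (ε * t) * μ| +
        |zK (i (t + q)) * Lc - zK (i 0) * Lc - cR a (ε * (t + q)) * μ| := by
    refine le_trans (le_of_eq (congrArg _ ?_)) ((abs_sub _ _).trans (add_le_add (abs_add_le _ _) le_rfl))
    simp only [map_mul, map_add, map_ratCast]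
    ring
  exact Ll.mono_left (by linarith)
    ((((((hi t).add (hi (t + q))).add k1).add (Etrl.ll_rat hk3 q)).add (hε t)).add (hε (t + q)))

end Pool.Agent.P.MP_dba3d2_lc
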