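import Pool.Agent.P.MP_dba3d2_lc.E.Defs

/-! Interface, chapter E, second layer. -/

namespace Pool.Agent.P.MP_dba3d2_lc

open Filter

-- deps: ELEM
-- imports: Pool.Agent.P.MP_dba3d2_lc.B.Axis2
def S_E_CHI : Prop := ∀ (Γ : HG) (a : Amb) (c : MM Γ a), Prim c → ∃ χ : MM Γ a → a.Z,
  (∀ f ∈ Ep c, ∀ k, χ f = k ↔ IsOfFinOrder (f⁻¹ * ipow c k)) ∧
  (∀ f ∈ Ep c, ∀ g ∈ Ep c, χ (f * g) = χ f + χ g) ∧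
  (∀ f ∈ Ep c, χ f⁻¹ = - χ f) ∧
  (∀ f ∈ Ep c, χ f = 0 ↔ IsOfFinOrder f) ∧
  (∀ f ∈ Ep c, ∀ n : ℕ, χ (f ^ n) = (n : a.Z) * χ f) ∧
  (∀ f ∈ Ep c, ∀ n : ℤ, χ (f ^ n) = (n : a.Z) * χ f) ∧
  (∀ f ∈ Ep c, ∀ k, ipow f k ∈ Ep c ∧ χ (ipow f k) = χ f * k) ∧
  (∀ k, χ (ipow c k) = k) ∧ χ c = 1 ∧
  (∀ f ∈ Ep c, Prim f ↔ χ f = 1 ∨ χ f = -1)

-- deps: ELEM LINE
-- imports: Pool.Agent.P.MP_dba3d2_lc.B.Axis2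
def S_E_SZ : Prop := ∀ (Γ : HG) (a : Amb) (c f : MM Γ a) (k : a.Z), ¬ IsOfFinOrder c → f ∈ Ep c →
  IsOfFinOrder (f⁻¹ * ipow c k) →
  Ls (|zK k| * md c) (md f) ∧ ∀ p, ds p (ipow c k * p) ≤ |zK k| * ds p (c * p) ∧
    Ls (ds p (f * p)) ((|zK k| + 1) * ds p (c * p))

-- deps:
-- imports: Pool.Agent.P.MP_dba3d2_lc.B.Fix
def S_E_GEO : Prop := ∀ (Γ : HG) (a : Amb) (μ : a.K), Big μ →
  (∀ w : MM Γ a, Ll |md w - max (ln (w * w) - ln w) 0| μ) ∧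
  ∀ c c' : MM Γ a, Ll (md c) μ → Ll (md c') μ → Ll (md (c * c')) μ →
    ∃ z, Ll (ds z (c * z)) μ ∧ Ll (ds z (c' * z)) μ

-- deps:
-- imports: Pool.Agent.P.MP_dba3d2_lc.B.Sc
def S_E_LIP : Prop := ∀ (Γ : HG) (a b : Amb) (E : Ext a b) (T : Subgroup (MM Γ b))
  (ρ : T →* MM Γ a),
  (∀ (P : Subgroup (MM Γ b)) (Y : Set (MM Γ b)), AddNF P Y → Y ⊆ T →
    (∀ t : T, (t : MM Γ b) ∈ Y → Lip E T ρ t) → ∀ t : T, (t : MM Γ b) ∈ P → Lip E T ρ t) ∧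
  ∀ H : Subgroup (MM Γ a), H.map (E.hom Γ) ≤ T →
    (∀ (t : T) (h : MM Γ a), h ∈ H → (t : MM Γ b) = E.hom Γ h → ρ t = h) →
    (∀ t : T, (t : MM Γ b) ∈ H.map (E.hom Γ) → Lip E T ρ t) ∧
    (FinRed T (H.map (E.hom Γ)) (H.map (E.hom Γ)) → PerRed T (H.map (E.hom Γ)) (H.map (E.hom Γ)) →
      (∀ t : T, Lip E T ρ t) → ∀ n, Retr E T ρ n)

-- deps: ELEM PERC ROOT TRUNC LET GRAFT
-- imports: Pool.Agent.P.MP_dba3d2_lc.E.Bas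
def S_E_GL : Prop := ∀ (Γ : HG) (a : Amb) (μ : a.K) (X : Subgroup (MM Γ a)) (r : ℕ)
  (K : Fin r → Subgroup Γ.G) (u : Fin r → MM Γ a), Big μ → GC0 X → Letters μ (X ⊓ ball Γ μ) K u →
  let C := Subgroup.closure (Set.range u)
  GC0 (X ⊔ C) ∧ FinRed (X ⊔ C) X X ∧ PerRed (X ⊔ C) X X ∧
  AddNF (X ⊔ C) {g | g ∈ X ∨ g ∈ (X ⊓ ball Γ μ) ⊔ C} ∧
  AddNF ((X ⊓ ball Γ μ) ⊔ C) {g | g ∈ X ⊓ ball Γ μ ∨ ∃ i, g = u i ∨ g = (u i)⁻¹} ∧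
  (∀ i, ∀ x ∈ X, (u i)⁻¹ * x * u i ∈ X → x ∈ (K i).map (cst Γ a)) ∧
  ∀ c ∈ X, Prim c → ∀ f ∈ X ⊔ C, f ∈ Ep c → f ∈ X

-- deps: ELEM ROOT TRUNC LET GRAFT
-- imports: Pool.Agent.P.MP_dba3d2_lc.E.Bas
def S_E_GLX : Prop := ∀ (Γ : HG) (a : Amb) (μ : a.K) (X : Subgroup (MM Γ a)) (r : ℕ)
  (K : Fin r → Subgroup Γ.G) (u : Fin r → MM Γ a), Big μ → GC0 X → Letters μ (X ⊓ ball Γ μ) K u →
  ExtL X u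

-- deps: ELEM ROOT TRUNC EXP GRAFT
-- imports: Pool.Agent.P.MP_dba3d2_lc.E.Bas
def S_E_GE : Prop := ∀ (Γ : HG) (a : Amb) (μ : a.K) (X : Subgroup (MM Γ a)) (c : MM Γ a)
  (k : ℚ →+ a.Z), Big μ → GC0 X → c ∈ X ⊓ ball Γ μ → Prim c → Ll (md c) μ →
  (∀ q, ipow c (k q) ∈ ball Γ μ) →
  (∀ q, q ≠ 0 → ∀ f ∈ X ⊓ ball Γ μ, f ∈ Ep c → Ls μ (md (f * ipow c (k q)))) →
  let C := Subgroup.closure (Set.range fun q => ipow c (k q))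
  GC0 (X ⊔ C) ∧ FinRed (X ⊔ C) X X ∧ PerRed (X ⊔ C) X X ∧ ExtE X c k ∧
  AddNF (X ⊔ C) {g | g ∈ X ∨ g ∈ (X ⊓ ball Γ μ) ⊔ C} ∧
  AddNF ((X ⊓ ball Γ μ) ⊔ C) {g | g ∈ X ⊓ ball Γ μ ∨ ∃ x ∈ X ⊓ ball Γ μ, ∃ f ∈ X ⊓ ball Γ μ,
    f ∈ Ep c ∧ Cen (x⁻¹ * c * x) ∧ ∃ q, g = x⁻¹ * (f * ipow c (k q)) * x} ∧
  ∀ g ∈ X ⊔ C, Big (ln g) → ∃ h ∈ X, Sim (ln g) (ln h) ∨ Ls (ln g) μ

-- deps:
-- imports: Pool.Agent.P.MP_dba3d2_lc.B.Sc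
def S_E_EXC : Prop := ∀ (Γ : HG) (a : Amb) (X : Subgroup (MM Γ a)) (c p : MM Γ a) (k : ℚ →+ a.Z),
  p ∈ X → X ⊔ Subgroup.closure (Set.range fun q => ipow (p⁻¹ * c * p) (k q)) =
      X ⊔ Subgroup.closure (Set.range fun q => ipow c (k q)) ∧
    (ExtE X (p⁻¹ * c * p) k → ExtE X c k)

-- deps:
-- imports: Pool.Agent.P.MP_dba3d2_lc.G.Tb
def S_E_ME1 : Prop := ∃ κ : ℚ → ℕ → ℤ, ∀ a : Amb, ∃ k : ℚ →+ (a.pow U0).Z,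
  (∀ q, k q = a.mk' U0 fun n => (κ q n : a.Z)) ∧ GenK (a.dg U0) k

-- deps: E_CHI E_SZ
-- imports: Pool.Agent.P.MP_dba3d2_lc.G.Tb Pool.Agent.P.MP_dba3d2_lc.B.Axis2
def S_E_ME2 : Prop := ∀ (Γ : HG) (a b : Amb) (E : Ext a b) (c : MM Γ a) (k : ℚ →+ b.Z),
  GenK E k → Prim c → Cen c →
  let μ := zK (k 1) * E.kh (md c)
  Big μ ∧ E.hom Γ c ∈ ball Γ μ ∧ Ll (md (E.hom Γ c)) μ ∧ (∀ q, ipow (E.hom Γ c) (k q) ∈ ball Γ μ) ∧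
  ∀ f ∈ (E.hom Γ).range ⊓ ball Γ μ, f ∈ Ep (E.hom Γ c) →
    (∀ q, q ≠ 0 → Ls μ (md (f * ipow (E.hom Γ c) (k q)))) ∧
    ∀ x : MM Γ b, Cen (x⁻¹ * E.hom Γ c * x) → Ll (ln (x⁻¹ * f * x)) μ

-- deps: REFL1 MOVE
-- imports: Pool.Agent.P.MP_dba3d2_lc.E.Bas
def S_E_END : Prop := ∀ (Γ : HG) (a b : Amb) (E : Ext a b) (H : Subgroup (MM Γ a)) (μ : a.K)
  (m k : ℕ) (Q : (Fin m ⊕ Fin k → Γ.G) → Prop) (h : Fin m → MM Γ a) (x : Fin k → ball Γ μ),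
  GC H → Big μ → Tr Q → (∀ i, h i ∈ H) → NMin Q h μ (fun i => (x i : MM Γ a)) →
  ∃ (A0 : Finset (MM Γ a)) (η : ℝ), (∀ w ∈ A0, w ∈ ball Γ μ) ∧ 0 < η ∧
    ∀ (R : RT) (φ : R.W ≃* ball Γ μ), (∀ g, R.ℓ g = rl μ (ln (φ g : MM Γ a))) →
    ∀ A : Finset R.W, (∀ w : R.W, (φ w : MM Γ a) ∈ A0 → w ∈ A) →
    ∀ (T : Subgroup (MM Γ b)) (ψ : R.W → T) (ρ : T →* MM Γ a) (σ : T →* T),
      GC T → T ≤ ball Γ (E.kh μ) → (H ⊓ ball Γ μ).map (E.hom Γ) ≤ T → (∀ n, Retr E T ρ n) →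
      (∀ w ∈ A, ∀ w' ∈ A, w * w' ∈ A → ψ (w * w') = ψ w * ψ w') →
      (∀ w ∈ A, (φ w : MM Γ a) ∈ H ∨ R.ℓ w = 0 → (ψ w : MM Γ b) = E.hom Γ (φ w)) →
      (∀ w ∈ A, ρ (ψ w) = φ w) →
      (∀ w ∈ A, rl (E.kh μ) (ln (ψ w : MM Γ b)) ≤ R.ℓ w + η) →
      Function.Bijective σ → (∀ t : T, (t : MM Γ b) ∈ H.map (E.hom Γ) → σ t = t) →
      ∑ i, R.ℓ (φ.symm (x i)) ≤ ∑ i, rl (E.kh μ) (ln (σ (ψ (φ.symm (x i))) : MM Γ b))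

-- deps: LINE
-- imports: Pool.Agent.P.MP_dba3d2_lc.B.Axis2
def S_E_TRL : Prop := ∀ (Γ : HG) (a : Amb) (μ : a.K) (L : ℝ → MM Γ a) (c : MM Γ a), Big μ →
  (∀ s t : ℝ, Ll |ds (L s) (L t) - ((|s - t| : ℝ) : a.K) * μ| μ) → ¬ IsOfFinOrder c →
  (∀ t, Ll (ds (L t) (c * L t)) μ) →
  ∃ κ : ℚ →+ a.Z, ∀ (q : ℚ) (t : ℝ), Ll (ds (ipow c (κ q) * L t) (L (t + q))) μ

-- deps: ELEM PERC E_TRL
-- imports: Pool.Agent.P.MP_dba3d2_lc.E.Bas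
def S_E_ORI : Prop := ∀ (Γ : HG) (a : Amb) (μ : a.K) (R : RT) (φ : R.W ≃* ball Γ μ)
  (L : ℝ → R.W), Big μ → (∀ g, R.ℓ g = rl μ (ln (φ g : MM Γ a))) → R.Line L →
  ∃ c ∈ ball Γ μ, Prim c ∧ (∀ t, Ll (ds (φ (L t) : MM Γ a) (c * (φ (L t) : MM Γ a))) μ) ∧
    (∃ κ : ℚ →+ a.Z, (∀ q, ipow c (κ q) ∈ ball Γ μ) ∧ ∀ (q : ℚ) (t : ℝ),
      Ll (ds (ipow c (κ q) * (φ (L t) : MM Γ a)) (φ (L (t + q)) : MM Γ a)) μ) ∧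
    ∀ (g : R.W) (ε β : ℝ), (ε = 1 ∨ ε = -1) → (∀ t, R.d (g * L t) (L (ε * t + β)) = 0) →
      InE c (φ g : MM Γ a) ∧ ((φ g : MM Γ a) ∈ Ep c ↔ ε = 1)

-- deps: EXTGC
-- imports: Pool.Agent.P.MP_dba3d2_lc.E.Bas
def S_E_LIM : Prop := ∀ (Γ : HG) (a b : Amb) (E : Ext a b) (S : Subgroup (MM Γ a))
  (D : Set (MM Γ a)) (J : Type) (U : Ultrafilter J) (A : J → Finset (MM Γ a)) (n : J → ℕ)
  (T : J → Subgroup (MM Γ b)) (ι : (j : J) → MM Γ a → T j) (ρ : (j : J) → T j →* MM Γ a),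
  GC S → (∀ s ∈ S, ∀ᶠ j in (U : Filter J), s ∈ A j) → Tendsto n (U : Filter J) atTop →
  (∀ j, Adm E (A j) D (n j) (T j) (ι j) (ρ j)) →
  ∃ (θ : S.map ((a.dg U).hom Γ) →* MM Γ (b.pow U)) (R : UT U T →* MM Γ (a.pow U)),
    IsUR U T ρ R ∧ Rf (E.pow U) (S.map ((a.dg U).hom Γ)) θ (UT U T) R ∧
    ∀ s ∈ S, ∀ s' : S.map ((a.dg U).hom Γ), (s' : MM Γ (a.pow U)) = (a.dg U).hom Γ s →
      θ s' = b.mk' U fun j => (ι j s : MM Γ b)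

-- deps: ELEM LINE PERC
-- imports: Pool.Agent.P.MP_dba3d2_lc.E.Bas
def S_E_G2U : Prop := ∀ (Γ : HG) (b : Amb) (J : Type) (U : Ultrafilter J)
  (T : J → Subgroup (MM Γ b)) (Λ : b.K), (∀ j, GC0 (T j)) → Big Λ →
  ∀ h ∈ UT U T, ∀ h' ∈ UT U T, Ls (ln h) ((b.dg U).kh Λ) → Ls (ln h') ((b.dg U).kh Λ) →
    ∀ g p q, Ov ((b.dg U).kh Λ) p q 1 h g (g * h') → ¬ Per ((b.dg U).kh Λ) p q → g ∈ UT U T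

-- deps: ELEM LINE PERC ROOT
-- imports: Pool.Agent.P.MP_dba3d2_lc.B.Axis2
def S_E_PJ1 : Prop := ∀ (Γ : HG) (a b : Amb) (E : Ext a b) (T : Subgroup (MM Γ b))
  (ρ : T →* MM Γ a) (n : ℕ) (l : a.K) (D : b.K) (h p q d : MM Γ b), GC0 T → Retr E T ρ n → Big l →
  h ∈ T → Ls (ln h) (E.kh l) → On (E.kh l) p 1 h → On (E.kh l) q 1 h → Ls (E.kh l) (ds p q) →
  ds p (d * p) ≤ D → ds q (d * q) ≤ D → 20 * D ≤ ds p q → Prim d → Ll (md d) (E.kh l) →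
  ∃ t : T, (t : MM Γ b) = d ∧ ¬ IsOfFinOrder (ρ t)

-- deps: ELEM LINE PERC
-- imports: Pool.Agent.P.MP_dba3d2_lc.B.Axis2
def S_E_PJ2 : Prop := ∀ (Γ : HG) (b : Amb) (T : Subgroup (MM Γ b)) (Λ D : b.K) (h p q d : MM Γ b),
  GC0 T → Big Λ → h ∈ T → Ls (ln h) Λ → On Λ p 1 h → On Λ q 1 h →
  ds p (d * p) ≤ D → ds q (d * q) ≤ D → 20 * D ≤ ds p q → Prim d → Ls Λ (md d) → d ∈ T

-- deps: E_PJ1 E_PJ2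
-- imports: Pool.Agent.P.MP_dba3d2_lc.E.Bas
def S_E_PU : Prop := ∀ (Γ : HG) (a b : Amb) (E : Ext a b) (J : Type) (U : Ultrafilter J)
  (T : J → Subgroup (MM Γ b)) (ρ : (j : J) → T j →* MM Γ a) (n : J → ℕ)
  (R : UT U T →* MM Γ (a.pow U)) (l : a.K),
  (∀ j, GC0 (T j)) → (∀ j, Retr E (T j) (ρ j) (n j)) → IsUR U T ρ R → Big l →
  let μ := (b.dg U).kh (E.kh l)
  ∀ h ∈ UT U T, ∀ p q d, Ls (ln h) μ → Ls μ (ds p q) → On μ p 1 h → On μ q 1 h → Prim d →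
    Stab μ p q d → ∃ t : UT U T, (t : MM Γ (b.pow U)) = d ∧
      (¬ IsOfFinOrder (R t) ∨ PowC (UT U T) R μ t)

-- deps:
-- imports: Pool.Agent.P.MP_dba3d2_lc.E.Bas
def S_E_COR : Prop := ∀ (Γ : HG) (a b : Amb) (E : Ext a b) (S : Subgroup (MM Γ a))
  (θ : S →* MM Γ b) (T : Subgroup (MM Γ b)) (ρ : T →* MM Γ a), Rf E S θ T ρ →
  ∀ s0 : S, Big (ln (s0 : MM Γ a)) →
  let l := ln (s0 : MM Γ a)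
  ∀ s : S, Ls (ln (s : MM Γ a)) l →
    (∀ p, On (E.kh l) p 1 (θ s) → ∃ P, Cor E l s (θ s) P p) ∧
    (∀ P p Q q, Cor E l s (θ s) P p → Cor E l s (θ s) Q q →
      Ll |ds p q - E.kh (ds P Q)| (E.kh l)) ∧
    ∀ s' : S, Ls (ln (s' : MM Γ a)) l → ∀ P p P' p', Cor E l s (θ s) P p → Cor E l s' (θ s') P' p' →
      (∀ t : T, Ll (ds p ((t : MM Γ b) * p')) (E.kh l) → Ll (ds P (ρ t * P')) l) ∧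
      ∀ y : S, Ll (ds P ((y : MM Γ a) * P')) l → Ll (ds p (θ y * p')) (E.kh l)

-- deps: LINE E_COR
-- imports: Pool.Agent.P.MP_dba3d2_lc.E.Bas
def S_E_PW : Prop := ∀ (Γ : HG) (a b : Amb) (E : Ext a b) (S : Subgroup (MM Γ a))
  (θ : S →* MM Γ b) (T : Subgroup (MM Γ b)) (ρ : T →* MM Γ a), Rf E S θ T ρ →
  ∀ (s : S) (t : T) (p q : MM Γ b), Big (ln (s : MM Γ a)) →
  let μ := E.kh (ln (s : MM Γ a))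
  Ls μ (ds p q) → On μ p 1 (θ s) → On μ q 1 (θ s) → Prim (t : MM Γ b) → Stab μ p q t →
  PowC T ρ μ t → ¬ IsOfFinOrder (ρ t)

-- deps: ELEM LINE ROOT E_CHI E_SZ
-- imports: Pool.Agent.P.MP_dba3d2_lc.B.Axis2
def S_E_PRJ : Prop := ∀ (Γ : HG) (a b : Amb) (E : Ext a b) (T : Subgroup (MM Γ b))
  (ρ : T →* MM Γ a) (n : ℕ) (γ : T), GC0 T → Retr E T ρ n → 1 ≤ n → Prim (ρ γ) →
  Big (md (ρ γ)) → Ls (md (γ : MM Γ b)) (E.kh (md (ρ γ))) → Prim (γ : MM Γ b)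

-- deps: PERC E_COR
-- imports: Pool.Agent.P.MP_dba3d2_lc.E.Bas
def S_E_TG2 : Prop := ∀ (Γ : HG) (a b : Amb) (E : Ext a b) (S : Subgroup (MM Γ a))
  (θ : S →* MM Γ b) (T : Subgroup (MM Γ b)) (ρ : T →* MM Γ a), Rf2 E S θ T ρ →
  (∀ μ, Big μ → ∀ h ∈ θ.range, ∀ h' ∈ θ.range, Ls (ln h) μ → Ls (ln h') μ → ∀ g p q,
    Ov μ p q 1 h g (g * h') → ¬ Per μ p q → g ∈ θ.range) ∧
  ∀ μ, Big μ → ∀ h ∈ θ.range, Ls (ln h) μ → ∀ p q, Ls μ (ds p q) → On μ p 1 h → On μ q 1 h →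
    Per μ p q → ∃ c ∈ θ.range, Prim c ∧ Stab μ p q c

-- deps: E_GEO
-- imports: Pool.Agent.P.MP_dba3d2_lc.E.Bas
def S_E_TMD : Prop := ∀ (Γ : HG) (a b : Amb) (E : Ext a b) (S : Subgroup (MM Γ a))
  (θ : S →* MM Γ b) (T : Subgroup (MM Γ b)) (ρ : T →* MM Γ a), Rf E S θ T ρ →
  (∀ s0 w : S, Big (ln (s0 : MM Γ a)) → Ls (ln (w : MM Γ a)) (ln (s0 : MM Γ a)) →
    Ll |md (θ w) - E.kh (md (w : MM Γ a))| (E.kh (ln (s0 : MM Γ a)))) ∧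
  ∀ c : S, ¬ IsOfFinOrder (c : MM Γ a) → Sim (md (θ c)) (E.kh (md (c : MM Γ a)))

-- deps: ELEM ROOT E_CHI E_TMD
-- imports: Pool.Agent.P.MP_dba3d2_lc.E.Bas
def S_E_TEX : Prop := ∀ (Γ : HG) (a b : Amb) (E : Ext a b) (S : Subgroup (MM Γ a))
  (θ : S →* MM Γ b) (T : Subgroup (MM Γ b)) (ρ : T →* MM Γ a), Rf2 E S θ T ρ →
  (∀ μ, Big μ → ∀ h ∈ θ.range, Ls (ln h) μ → ∀ c ∈ θ.range, Prim c → Ls (ln c) μ → Ll (md c) μ →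
    ∃ f ∈ θ.range, f ∈ Ep c ∧ Ll (2 * ds f h - (ln c + ln (h⁻¹ * c * h))) μ) ∧
  ∀ c ∈ θ.range, Prim c → ∀ f ∈ θ.range, f ∈ Ep c → ∀ n : ℕ, 0 < n →
    ∃ f' ∈ θ.range, f' ∈ Ep c ∧ ∃ r : ℕ, IsOfFinOrder (f⁻¹ * (f' ^ n * c ^ r))

-- deps: E_GEO E_TMD
-- imports: Pool.Agent.P.MP_dba3d2_lc.E.Bas
def S_E_TCEN : Prop := ∀ (Γ : HG) (a b : Amb) (E : Ext a b) (S : Subgroup (MM Γ a))
  (θ : S →* MM Γ b) (T : Subgroup (MM Γ b)) (ρ : T →* MM Γ a), Rf E S θ T ρ →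
  std Γ b ≤ θ.range ∧ FinC θ.range ∧
  ∀ c ∈ θ.range, ∀ c' ∈ θ.range, ¬ IsOfFinOrder c → ¬ IsOfFinOrder c' →
    ∃ p ∈ θ.range, Ls (ln p) (ln c + ln c') ∧ ∀ q : MM Γ b,
      Ls (ln (p⁻¹ * c * p) + ln (p⁻¹ * c' * p)) (ln (q⁻¹ * c * q) + ln (q⁻¹ * c' * q))

end Pool.Agent.P.MP_dba3d2_lc
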