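import Pool.Agent.P.MP_dba3d2_lc.E.Iface
import Pool.Agent.P.MP_dba3d2_lc.B.Iface
import Pool.Agent.P.MP_dba3d2_lc.E.Iface2
import Pool.Agent.P.MP_dba3d2_lc.E.Bas
import Pool.Agent.P.MP_dba3d2_lc.B.Fix

/-! Step MICE of the stability project. -/

namespace Pool.Agent.P.MP_dba3d2_lc

open Filter

namespace Mice

variable {Γ : HG} {a b : Amb}

theorem ipow_conj' (g c : MM Γ a) (k : a.Z) : ipow (g⁻¹ * c * g) k = g⁻¹ * ipow c k * g := by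
  simpa using ipow_conj g⁻¹ c k

theorem md_ipow (hS : S_E_SZ) {c : MM Γ a} (hc : ¬ IsOfFinOrder c) (k : a.Z) :
    md (ipow c k) ≤ |zK k| * md c := by
  obtain ⟨z, hz⟩ := exists_md_ds c
  have h := ((hS Γ a c (ipow c k) k hc (ipow_mem_Ep c k)
    (by rw [inv_mul_cancel]; exact IsOfFinOrder.one)).2 z).1
  rw [hz] at h
  exact (md_le_ds _ z).trans h

theorem ls_mul {x y z : a.K} (h : Ls x y) (hz : 0 ≤ z) : Ls (x * z) (y * z) := by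
  obtain ⟨n, hn⟩ := h
  exact ⟨n, by rw [← mul_assoc]; exact mul_le_mul_of_nonneg_right hn hz⟩

theorem main (hEXTGC : S_EXTGC) (hE_SZ : S_E_SZ) (hE_GE : S_E_GE) (hE_EXC : S_E_EXC)
    (hE_ME2 : S_E_ME2) (hE_LIP : S_E_LIP) (E : Ext a b) (H : Subgroup (MM Γ a)) (c : MM Γ a)
    (k : ℚ →+ b.Z) (hk : GenK E k) (hH : GC0 H) (hc : c ∈ H) (hp : Prim c)
    (T : Subgroup (MM Γ b))
    (hT : H.map (E.hom Γ) ⊔ Subgroup.closure (Set.range fun q => ipow (E.hom Γ c) (k q)) = T) :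
    GC0 T ∧ (FinC H → FinC T) ∧ ExtE (H.map (E.hom Γ)) (E.hom Γ c) k ∧
    (∀ q, q ≠ 0 → ipow (E.hom Γ c) (k q) ∉ H.map (E.hom Γ)) ∧
    (∀ q (ν : a.K), Ll (md c) ν → Ll (md (ipow (E.hom Γ c) (k q))) (E.kh ν)) ∧
    (∀ g ∈ T, Big (ln g) → ∃ h ∈ H, Sim (ln g) (E.kh (ln h)) ∨
      Ls (ln g) (zK (k 1) * E.kh (md c))) ∧
    ∀ ρ : T →* MM Γ a, (∀ (t : T) (h : MM Γ a), (t : MM Γ b) = E.hom Γ h → ρ t = h) →
      (∀ (t : T) q, (t : MM Γ b) = ipow (E.hom Γ c) (k q) → ρ t = 1) → ∀ n, Retr E T ρ n := by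
  obtain ⟨p, hpH, -, hcen⟩ := hH.cen1 hc hp.1
  have hp0 : Prim (p⁻¹ * c * p) := hp.conj' p
  obtain ⟨hμ, hb, hmd, hq, hf⟩ := hE_ME2 Γ a b E (p⁻¹ * c * p) k hk hp0 hcen
  rw [md_conj] at hμ hb hmd hq hf
  have hX : GC0 (H.map (E.hom Γ)) := (hEXTGC Γ a b E H).1 hH
  have hXr : H.map (E.hom Γ) ≤ (E.hom Γ).range := Subgroup.map_le_range _ _
  have hpX : E.hom Γ p ∈ H.map (E.hom Γ) := ⟨p, hpH, rfl⟩
  have hc0 : E.hom Γ (p⁻¹ * c * p) ∈ H.map (E.hom Γ) :=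
    ⟨_, H.mul_mem (H.mul_mem (H.inv_mem hpH) hc) hpH, rfl⟩
  have e0 : E.hom Γ (p⁻¹ * c * p) = (E.hom Γ p)⁻¹ * E.hom Γ c * E.hom Γ p := by
    rw [map_mul, map_mul, map_inv]
  obtain ⟨g1, g2, g3, g4, g5, g6, g7⟩ := hE_GE Γ b _ (H.map (E.hom Γ)) (E.hom Γ (p⁻¹ * c * p)) k
    hμ hX ⟨hc0, hb⟩ (E.prim_iff.2 hp0) hmd hq
    (fun q hq0 f hf' hfE => (hf f ⟨hXr hf'.1, hf'.2⟩ hfE).1 q hq0)
  obtain ⟨x1, x2⟩ := hE_EXC Γ b (H.map (E.hom Γ)) (E.hom Γ c) (E.hom Γ p) k hpX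
  rw [← e0] at x1 x2
  have hT0 := x1.trans hT
  have lX : H.map (E.hom Γ) ≤ T := hT ▸ le_sup_left
  have lC : ∀ q, ipow (E.hom Γ c) (k q) ∈ T := fun q =>
    hT ▸ (le_sup_right : _ ≤ H.map (E.hom Γ) ⊔ _) (Subgroup.subset_closure ⟨q, rfl⟩)
  have lC0 : Subgroup.closure (Set.range fun q => ipow (E.hom Γ (p⁻¹ * c * p)) (k q)) ≤ T :=
    hT0 ▸ le_sup_right
  have es : ∀ q, ipow (E.hom Γ (p⁻¹ * c * p)) (k q) =
      (E.hom Γ p)⁻¹ * ipow (E.hom Γ c) (k q) * E.hom Γ p := fun q => by rw [e0, ipow_conj']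
  rw [hT0] at g1 g2 g3 g5 g7
  refine ⟨g1, fun fH => ?_, x2 g4, fun q hq0 hm => ?_, fun q ν hν => ?_, fun g hg hB => ?_,
    fun ρ hρ hρ1 => ?_⟩
  · have fX := ((hEXTGC Γ a b E H).2 ⟨hH, fH⟩).finc
    exact ET.finC_of_finRed g2 lX lX fX fX
  · have hs : ipow (E.hom Γ (p⁻¹ * c * p)) (k q) ∈ H.map (E.hom Γ) := by
      rw [es]
      exact Subgroup.mul_mem _ (Subgroup.mul_mem _ (Subgroup.inv_mem _ hpX) hm) hpX
    have := (hf _ (Subgroup.inv_mem _ ⟨hXr hs, hq q⟩)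
      (Subgroup.inv_mem _ (ipow_mem_Ep _ (k q)))).1 q hq0
    rw [inv_mul_cancel] at this
    have h1 := this.pos hμ.pos
    have h2 := md_le_ln (1 : MM Γ b)
    rw [ln_eq_zero.2 rfl] at h2
    exact absurd h1 (not_lt.2 h2)
  · have h1 := md_ipow hE_SZ (E.prim_iff.2 hp).1 (k q)
    rw [E.md_hom] at h1
    exact Ll.mono_left h1 (Ll.ls_left
      (ls_mul (hk.up q) ((GT.kh_nonneg E).2 (md_nonneg c))) (hk.gap _ _ hν))
  · obtain ⟨_, ⟨h, hh, rfl⟩, h2⟩ := g7 g hg hB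
    rw [E.ln_hom] at h2
    exact ⟨h, hh, h2⟩
  · obtain ⟨l1, l2⟩ := hE_LIP Γ a b E T ρ
    obtain ⟨l3, l4⟩ := l2 H lX fun t h _ e => hρ t h e
    have r0 : ∀ (t : T) q, (t : MM Γ b) = ipow (E.hom Γ (p⁻¹ * c * p)) (k q) → ρ t = 1 := by
      intro t q e
      have : t = (⟨_, lX hpX⟩ : T)⁻¹ * ⟨_, lC q⟩ * ⟨_, lX hpX⟩ := Subtype.ext (e.trans (es q))
      rw [this, map_mul, map_mul, hρ1 ⟨_, lC q⟩ q rfl, mul_one, map_inv, inv_mul_cancel]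
    refine l4 g2 g3 (l1 T _ g5 ?_ ?_ · (Subtype.property _))
    · rintro g (hg | hg)
      · exact lX hg
      · exact sup_le (inf_le_left.trans lX) lC0 hg
    · rintro t (ht | ht)
      · exact l3 t ht
      refine l1 _ _ g6 ?_ ?_ t ht
      · rintro g (hg | ⟨x, hx, f, hf', -, -, q, rfl⟩)
        · exact lX hg.1
        · exact T.mul_mem (T.mul_mem (T.inv_mem (lX hx.1)) (T.mul_mem (lX hf'.1)
            (lC0 (Subgroup.subset_closure ⟨q, rfl⟩)))) (lX hx.1)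
      · rintro s (hs | ⟨x, hx, f, hf', hfE, hxc, q, es'⟩)
        · exact l3 s hs.1
        have hm : x⁻¹ * f * x ∈ H.map (E.hom Γ) :=
          Subgroup.mul_mem _ (Subgroup.mul_mem _ (Subgroup.inv_mem _ hx.1) hf'.1) hx.1
        by_cases hq0 : q = 0
        · refine l3 s ?_
          rw [es', hq0, map_zero, ipow_zero, mul_one]
          exact hm
        obtain ⟨f1, f2⟩ := hf f ⟨hXr hf'.1, hf'.2⟩ hfE
        have h1 : Ls (zK (k 1) * E.kh (md c)) (ln (s : MM Γ b)) := by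
          rw [es']
          exact (f1 q hq0).mono_right (md_le _ x)
        obtain ⟨h, -, eh⟩ := id hm
        have hs0 := lC0 (Subgroup.subset_closure ⟨q, rfl⟩)
        have h2 : ρ s = h := by
          have : s = ⟨_, lX hm⟩ * ((⟨x, lX hx.1⟩ : T)⁻¹ * ⟨_, hs0⟩ * ⟨x, lX hx.1⟩) := by
            refine Subtype.ext (es'.trans ?_)
            simp [mul_assoc]
          rw [this, map_mul, map_mul, map_mul, r0 ⟨_, hs0⟩ q rfl, mul_one, map_inv,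
            inv_mul_cancel, mul_one]
          exact hρ _ h eh.symm
        have h3 := (f2 x hxc).ls_right h1 (ln_nonneg _)
        rw [← eh, E.ln_hom, ← h2] at h3
        exact ⟨fun _ => Ll.mono_left (by linarith [ln_nonneg (s : MM Γ b)]) h3,
          fun hn => (hn (hμ.of_ls h1)).elim⟩

end Mice

theorem p_MICE (hEXTGC : S_EXTGC) (hE_SZ : S_E_SZ) (hE_GE : S_E_GE) (hE_EXC : S_E_EXC) (hE_ME1 : S_E_ME1) (hE_ME2 : S_E_ME2) (hE_LIP : S_E_LIP) :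
    S_MICE := by
  intro Γ a H c hH hc hp
  obtain ⟨κ, hκ⟩ := hE_ME1
  obtain ⟨k, h1, hk⟩ := hκ a
  exact ⟨κ, k, h1, Mice.main hEXTGC hE_SZ hE_GE hE_EXC hE_ME2 hE_LIP (a.dg U0) H c k hk hH hc hp _
    rfl⟩

end Pool.Agent.P.MP_dba3d2_lc
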