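import Pool.Agent.P.MP_dba3d2_lc.E.Iface
import Pool.Agent.P.MP_dba3d2_lc.B.Iface
import Pool.Agent.P.MP_dba3d2_lc.A.Iface
import Pool.Agent.P.MP_dba3d2_lc.E.Iface2
import Pool.Agent.P.MP_dba3d2_lc.E.Bas

/-! Step MICL of the stability project. -/

namespace Pool.Agent.P.MP_dba3d2_lc

open Filter

namespace Micl

open ET

theorem not_big_real (a : Amb) (r : ℝ) : ¬ Big (r : a.K) := by
  obtain ⟨n, hn⟩ := exists_nat_ge r
  refine not_big_of_ls (Ls.of_le ?_) (not_big_nat n)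
  have h1 : ((r : ℝ) : a.K) ≤ ((n : ℝ) : a.K) := Germ.const_le hn
  exact h1

theorem micro (a : Amb) (τ : ℕ → ℝ) {ν : a.K} (hν : Big ν) :
    Ll (a.mk' U0 fun n => (τ n : a.K)) ((a.dg U0).kh ν) :=
  ll_mk'_kh U0 (Eventually.of_forall fun n => hν.ll_of_not_big (not_big_real a (τ n)))

theorem ev_comm {Γ : HG} (a : Amb) {K : Subgroup Γ.G} (hK : Finite K) (t : ℕ → Γ.G)
    (h : ∀ k ∈ K, Commute (a.mk' U0 fun n => cst Γ a (t n) : MM Γ (a.pow U0))
      (cst Γ (a.pow U0) k)) :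
    ∀ᶠ n in (U0 : Filter ℕ), ∀ k ∈ K, Commute (t n) k := by
  have hf : (K : Set Γ.G).Finite := Set.toFinite _
  refine (eventually_all_finite hf).2 fun k hk => ?_
  have h1 := (h k hk).eq
  rw [← (a.dg U0).hom_cst, ← mk'_hom, ← mk'_mul, ← mk'_mul, mk'_eq_iff] at h1
  filter_upwards [h1] with n hn
  rw [← map_mul, ← map_mul] at hn
  exact cst_injective hn

theorem lip_one {Γ : HG} {a b : Amb} {E : Ext a b} {T : Subgroup (MM Γ b)} {ρ : T →* MM Γ a}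
    {t : T} (h : ρ t = 1) : Lip E T ρ t := by
  refine ⟨fun hb => Ll.of_nonpos ?_ hb.pos.le, fun _ => ?_⟩
  · rw [h, ln_one, map_zero, zero_sub, neg_nonpos]
    exact ln_nonneg _
  · rw [h, ln_one]
    simpa using not_big_nat (K := a.K) 0

end Micl

open ET Micl

theorem p_MICL (hEXTGC : S_EXTGC) (hGMIC : S_GMIC) (hE_GL : S_E_GL) (hE_GLX : S_E_GLX) (hE_LIP : S_E_LIP) :
    S_MICL := by
  classical
  intro Γ r K hK
  obtain ⟨t0, τ, h0⟩ := hGMIC Γ r K hK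
  refine ⟨fun i n => if ∀ k ∈ K i, Commute (t0 i n) k then t0 i n else 1, fun i n k hk => ?_, ?_⟩
  · dsimp only
    split_ifs with h
    exacts [h k hk, Commute.one_left k]
  intro a H hH E u T
  obtain ⟨hμ, hL0⟩ := h0 a
  set μ : (a.pow U0).K := a.mk' U0 fun n => (τ n : a.K) with hμdef
  have eu : u = fun i => a.mk' U0 fun n => cst Γ a (t0 i n) := by
    funext i
    refine (mk'_eq_iff U0 _ _).2 ?_
    filter_upwards [ev_comm a (hK i).1 (t0 i) (hL0.comm i)] with n hn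
    rw [if_pos hn]
  rw [← eu] at hL0
  have small : ∀ ν : a.K, Big ν → Ll μ (E.kh ν) := fun ν hν => micro a τ hν
  have hX : GC0 (H.map (E.hom Γ)) := (hEXTGC Γ a _ E H).1 hH
  have hstd : ∀ w ∈ H.map (E.hom Γ) ⊓ ball Γ μ, w ∈ std Γ (a.pow U0) := by
    rintro _ ⟨⟨h, -, rfl⟩, hb⟩
    rw [hom_std, mem_std_iff]
    intro hh
    have h1 := (mem_ball hμ.pos.le).1 hb
    rw [E.ln_hom] at h1
    exact (small _ hh).not_ls (E.big_iff.2 hh).pos h1
  have hL : Letters μ (H.map (E.hom Γ) ⊓ ball Γ μ) K u :=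
    ⟨hL0.fin, hL0.sim, hL0.comm, hL0.nper, hL0.self, fun i w hw => hL0.base i w (hstd w hw)⟩
  obtain ⟨g0, fr, pr, nf1, nf2, cj, ep⟩ := hE_GL Γ _ μ _ r K u hμ hX hL
  refine ⟨g0, fun hf => ?_, hE_GLX Γ _ μ _ r K u hμ hX hL, cj,
    fun i ν hν => Ll.ls_left (hL0.sim i).1 (small ν hν), ep, fun ρ h1 h2 => ?_⟩
  · have fX := ((hEXTGC Γ a _ E H).2 ⟨hH, hf⟩).finc
    exact finC_of_finRed fr le_sup_left le_sup_left fX fX
  obtain ⟨l1, l2⟩ := hE_LIP Γ a _ E T ρ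
  obtain ⟨lx, lr⟩ := l2 H le_sup_left fun t h _ e => h1 t h e
  have uT : ∀ i, u i ∈ T := fun i => (le_sup_right : _ ≤ T) (Subgroup.subset_closure ⟨i, rfl⟩)
  have lP : H.map (E.hom Γ) ⊓ ball Γ μ ⊔ Subgroup.closure (Set.range u) ≤ T :=
    sup_le_sup_right inf_le_left _
  have lw := l1 _ _ nf2 (by
    rintro g (hg | ⟨i, rfl | rfl⟩)
    exacts [(le_sup_left : _ ≤ T) hg.1, uT i, T.inv_mem (uT i)]) (by
    rintro t (ht | ⟨i, e | e⟩)
    · exact lx t ht.1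
    · exact lip_one (h2 t i e)
    · refine lip_one ?_
      have := h2 t⁻¹ i (by rw [Subgroup.coe_inv, e, inv_inv])
      rwa [map_inv, inv_eq_one] at this)
  have la := l1 _ _ nf1 (by
    rintro g (hg | hg)
    exacts [(le_sup_left : _ ≤ T) hg, lP hg]) (by
    rintro t (ht | ht)
    exacts [lx t ht, lw t ht])
  exact lr fr pr fun t => la t t.2

end Pool.Agent.P.MP_dba3d2_lc
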