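import Pool.Agent.P.MP_dba3d2_lc.E.Iface
import Pool.Agent.P.MP_dba3d2_lc.B.Iface
import Pool.Agent.P.MP_dba3d2_lc.C.Iface
import Pool.Agent.P.MP_dba3d2_lc.E.Bas

/-! Step MOVE of the stability project. -/

namespace Pool.Agent.P.MP_dba3d2_lc

open Filter

namespace MoveA

variable {Γ : HG} {a b : Amb}

theorem tl_coe {k : ℕ} (g : Fin k → a.I → Γ.G) : tl (fun i => (Germ.ofFun (g i) : MM Γ a)) =
    Germ.ofFun fun j => ∑ i, (Γ.len (g i j) : ℝ) :=
  Bas2A.sum_coe Finset.univ fun i j => (Γ.len (g i j) : ℝ)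

theorem st_elim {m k : ℕ} (Q : (Fin m ⊕ Fin k → Γ.G) → Prop) (f : Fin m → a.I → Γ.G)
    (g : Fin k → a.I → Γ.G) :
    St Q (Sum.elim (fun i => (Germ.ofFun (f i) : MM Γ a)) fun i => (Germ.ofFun (g i) : MM Γ a)) ↔
      ∀ᶠ j in (a.V : Filter a.I), Q (Sum.elim (fun i => f i j) fun i => g i j) := by
  have e := st_coe (a := a) Q (Sum.elim f g)
  have e1 : (fun i => (Germ.ofFun (Sum.elim f g i) : MM Γ a)) =
      Sum.elim (fun i => (Germ.ofFun (f i) : MM Γ a)) fun i => (Germ.ofFun (g i) : MM Γ a) :=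
    funext fun i => by cases i <;> rfl
  have e2 : ∀ j, (fun i => Sum.elim f g i j) = Sum.elim (fun i => f i j) fun i => g i j :=
    fun j => funext fun i => by cases i <;> rfl
  rw [e1] at e
  simpa only [e2] using e

/-- a witness of least length, also among the witnesses of the extension -/
theorem exists_least (E : Ext a b) {m k : ℕ} (Q : (Fin m ⊕ Fin k → Γ.G) → Prop)
    (h : Fin m → MM Γ a) (x : Fin k → MM Γ a) (hx : St Q (Sum.elim h x)) :
    ∃ x0 : Fin k → MM Γ a, St Q (Sum.elim h x0) ∧ ∀ y : Fin k → MM Γ b,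
      St Q (Sum.elim (fun i => E.hom Γ (h i)) y) → E.kh (tl x0) ≤ tl y := by
  obtain ⟨f, rfl⟩ := Bas2A.rep h
  obtain ⟨g, rfl⟩ := Bas2A.rep x
  obtain ⟨z, hz⟩ := (((st_elim Q f g).1 hx).mono fun j hj =>
    (show ∃ z, Q (Sum.elim (fun i => f i j) z) ∧ ∀ y, Q (Sum.elim (fun i => f i j) y) →
      ∑ i, Γ.len (z i) ≤ ∑ i, Γ.len (y i) from
    ⟨_, Function.argminOn_mem (fun z : Fin k → Γ.G => ∑ i, Γ.len (z i))
      {z | Q (Sum.elim (fun i => f i j) z)} ⟨_, hj⟩,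
      fun y hy => Function.argminOn_le (fun z : Fin k → Γ.G => ∑ i, Γ.len (z i)) _ hy⟩)).choice
  refine ⟨_, (st_elim Q f fun i j => z j i).2 (hz.mono fun j h => h.1), fun y hy => ?_⟩
  obtain ⟨w, rfl⟩ := Bas2A.rep y
  have hw := (st_elim Q (fun i j => f i (E.π j)) w).1 hy
  rw [tl_coe, tl_coe]
  refine Germ.coe_le.2 ?_
  filter_upwards [E.hπ.eventually hz, hw] with j h1 h2
  change ∑ i, (Γ.len (z (E.π j) i) : ℝ) ≤ ∑ i, (Γ.len (w i j) : ℝ)
  exact_mod_cast h1.2 _ h2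

end MoveA

open ET in
theorem p_MOVE (hEXTGC : S_EXTGC) (hGRAFT : S_GRAFT) (hGISO : S_GISO) :
    S_MOVE := by
  intro Γ a b E H μ m k Q h x T σ y hH hμ hQ hh hmin hT hTb hHT hσ hfix hy
  have hX : GC (H.map (E.hom Γ)) := (hEXTGC Γ a b E H).2 hH
  have hμ' : Big (E.kh μ) := E.big_iff.2 hμ
  have sep : Sep (H.map (E.hom Γ)) T := by
    refine sep_of_le hμ' ?_ hTb
    rintro _ ⟨⟨g, hg, rfl⟩, h2⟩
    exact hHT ⟨g, ⟨hg, (hom_mem_ball E hμ.pos.le).1 h2⟩, rfl⟩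
  have r0 : (H.map (E.hom Γ)).subtype.range = H.map (E.hom Γ) := Subgroup.range_subtype _
  have r1 : (T.subtype.comp σ).range = T := by
    rw [MonoidHom.range_comp, MonoidHom.range_eq_top.2 hσ.2, ← MonoidHom.range_eq_map,
      Subgroup.range_subtype]
  obtain ⟨θ, i1, r2, e0, e1⟩ := hGISO Γ b b (H.map (E.hom Γ)) T (H.map (E.hom Γ)).subtype
    (T.subtype.comp σ) hX.toGC0 hT.toGC0 sep (by rw [r0]; exact hX.toGC0)
    (by rw [r1]; exact hT.toGC0) (by rw [r0, r1]; exact sep) (Subgroup.subtype_injective _)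
    ((Subgroup.subtype_injective _).comp hσ.1)
    (fun s t => by
      change _ ↔ (s : MM Γ b) = (σ t : MM Γ b)
      refine ⟨fun e => ?_, fun e => ?_⟩
      · rw [hfix t (e ▸ s.2), e]
      · rw [e, hσ.1 (hfix (σ t) (e ▸ s.2))])
    (fun s hs => by rw [r1] at hs; exact hs)
  have gc := gc_sup hGRAFT hX hT sep
  have tr := hQ b b _ θ gc (by rw [r2, r0, r1]; exact gc) i1
    (Sum.elim (fun i => ⟨E.hom Γ (h i), (le_sup_left : H.map (E.hom Γ) ≤ _) ⟨h i, hh i, rfl⟩⟩)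
      fun i => ⟨y i, (le_sup_right : T ≤ _) (y i).2⟩)
  have hs : St Q (Sum.elim (fun i => E.hom Γ (h i)) fun i => (σ (y i) : MM Γ b)) := by
    convert tr.1 ?_ using 2 with i
    · rcases i with i | i
      · exact (e0 ⟨E.hom Γ (h i), h i, hh i, rfl⟩).symm
      · exact (e1 (y i)).symm
    · convert hy using 2 with i
      rcases i with i | i <;> rfl
  obtain ⟨x0, h0, h1⟩ := MoveA.exists_least E Q h x hmin.1
  have h2 := E.ll_iff.2 (hmin.2 x0 h0)
  rw [map_sub] at h2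
  exact Ll.mono_left (sub_le_sub_left (h1 _ hs) _) h2

end Pool.Agent.P.MP_dba3d2_lc
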