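import Pool.Agent.P.MP_dba3d2_lc.E.Iface
import Pool.Agent.P.MP_dba3d2_lc.A.Iface
import Pool.Agent.P.MP_dba3d2_lc.B.Iface
import Pool.Agent.P.MP_dba3d2_lc.E.Iface2
import Pool.Agent.P.MP_dba3d2_lc.E.Bas

/-! Step NO1 of the stability project. -/

namespace Pool.Agent.P.MP_dba3d2_lc

open Filter

namespace No1

open ET

variable {Γ : HG} {a b : Amb} {r : ℕ}

/-- the group generated by the image of `B` and the letters -/
abbrev TT (E : Ext a b) (B : Subgroup (MM Γ a)) (u : Fin r → MM Γ b) : Subgroup (MM Γ b) :=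
  B.map (E.hom Γ) ⊔ Subgroup.closure (Set.range u)

/-- generic small letters -/
structure Mic (E : Ext a b) (μ : a.K) (B : Subgroup (MM Γ a)) (K : Fin r → Subgroup Γ.G)
    (u : Fin r → MM Γ b) : Prop where
  com : ∀ i, ∀ x ∈ (K i).map (cst Γ b), Commute (u i) x
  gc : GC (TT E B u)
  ext : ExtL (B.map (E.hom Γ)) u
  int : ∀ i, ∀ x ∈ B.map (E.hom Γ), (u i)⁻¹ * x * u i ∈ B.map (E.hom Γ) → x ∈ (K i).map (cst Γ b)
  sm : ∀ i, Ll (ln (u i)) (E.kh μ)
  ret : ∀ ρ : TT E B u →* MM Γ a,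
    (∀ (t : TT E B u) (h : MM Γ a), (t : MM Γ b) = E.hom Γ h → ρ t = h) →
    (∀ (t : TT E B u) i, (t : MM Γ b) = u i → ρ t = 1) → ∀ n, Retr E (TT E B u) ρ n

theorem mic (hMICL : S_MICL) {μ : a.K} (hμ : Big μ) {B : Subgroup (MM Γ a)} (hB : GC B)
    (K : Fin r → Subgroup Γ.G) (hK : ∀ i, Legal Γ (K i)) : ∃ u, Mic (a.dg U0) μ B K u := by
  obtain ⟨t, ht, hM⟩ := hMICL Γ r K hK
  obtain ⟨g0, fc, hx, hk, hu, -, hr⟩ := hM a B hB.toGC0
  refine ⟨_, ?_, ⟨g0, fc hB.finc⟩, hx, hk, fun i => hu i μ hμ, hr⟩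
  rintro i _ ⟨k, h1, rfl⟩
  rw [← (a.dg U0).hom_cst, ← mk'_hom, Commute, SemiconjBy, ← mk'_mul, ← mk'_mul]
  exact congrArg _ (funext fun n => ((ht i n k h1).map (cst Γ a)).eq)

variable {E : Ext a b} {μ : a.K} {B : Subgroup (MM Γ a)} {K : Fin r → Subgroup Γ.G}
  {u : Fin r → MM Γ b}

/-- the embedding of `B` -/
def emb (E : Ext a b) (B : Subgroup (MM Γ a)) (u : Fin r → MM Γ b) : B →* TT E B u :=
  (Subgroup.inclusion le_sup_left).comp ((E.hom Γ).subgroupMap B)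

theorem emb_coe (x : B) : (emb E B u x : MM Γ b) = E.hom Γ x := rfl

/-- the letters -/
def uT (E : Ext a b) (B : Subgroup (MM Γ a)) (u : Fin r → MM Γ b) (i : Fin r) : TT E B u :=
  ⟨u i, (le_sup_right : _ ≤ TT E B u) (Subgroup.subset_closure ⟨i, rfl⟩)⟩

theorem exists_emb {t : TT E B u} (h : (t : MM Γ b) ∈ B.map (E.hom Γ)) : ∃ x, t = emb E B u x := by
  obtain ⟨x, h1, h2⟩ := h
  exact ⟨⟨x, h1⟩, Subtype.ext h2.symm⟩

theorem tt_ext {G : Type} [Group G] {f g : TT E B u →* G}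
    (h1 : ∀ x, f (emb E B u x) = g (emb E B u x)) (h2 : ∀ i, f (uT E B u i) = g (uT E B u i)) :
    f = g :=
  hom_ext_sup (fun t ht => by
    obtain ⟨x, rfl⟩ := exists_emb ht
    exact h1 x) fun t i e => by
    obtain rfl : t = uT E B u i := Subtype.ext e
    exact h2 i

theorem Mic.lift (h : Mic E μ B K u) {G : Type} [Group G] (θ0 : B →* G) (ν : Fin r → G)
    (hc : ∀ i (x : B), (x : MM Γ a) ∈ (K i).map (cst Γ a) → Commute (ν i) (θ0 x)) :
    ∃ θ : TT E B u →* G, (∀ x, θ (emb E B u x) = θ0 x) ∧ ∀ i, θ (uT E B u i) = ν i := by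
  obtain ⟨θ, h1, h2⟩ := h.ext G
    (θ0.comp (B.equivMapOfInjective _ E.hom_injective).symm.toMonoidHom) ν fun i x y e => by
      have k := h.int i x x.2 (e ▸ y.2)
      obtain rfl : y = x := Subtype.ext (by
        rw [e, mul_assoc, ← (h.com i x k).eq, inv_mul_cancel_left])
      obtain ⟨x, rfl⟩ := (B.equivMapOfInjective _ E.hom_injective).surjective y
      obtain ⟨k, k1, k2⟩ := k
      have c := hc i x ⟨k, k1, E.hom_injective ((E.hom_cst k).trans k2)⟩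
      simp only [MonoidHom.comp_apply, MulEquiv.coe_toMonoidHom, MulEquiv.symm_apply_apply]
      rw [mul_assoc, ← c.eq, inv_mul_cancel_left]
  refine ⟨θ, fun x => (h1 (B.equivMapOfInjective _ E.hom_injective x)).trans ?_, h2⟩
  simp

theorem Mic.comm (h : Mic E μ B K u) (i : Fin r) {x : B}
    (hx : (x : MM Γ a) ∈ (K i).map (cst Γ a)) : Commute (uT E B u i) (emb E B u x) := by
  obtain ⟨k, k1, k2⟩ := hx
  exact Subtype.ext (h.com i _ ⟨k, k1, by rw [emb_coe, ← k2, E.hom_cst]⟩).eq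

theorem Mic.rho (h : Mic E μ B K u) : ∃ ρ : TT E B u →* MM Γ a, (∀ x, ρ (emb E B u x) = x) ∧
    (∀ i, ρ (uT E B u i) = 1) := h.lift B.subtype (fun _ => 1) fun _ _ _ => Commute.one_left _

theorem Mic.sigma (h : Mic E μ B K u) (y : Fin r → B)
    (hy : ∀ i, ∀ k ∈ K i, Commute (y i : MM Γ a) (cst Γ a k)) :
    ∃ σ : TT E B u →* TT E B u, Function.Bijective σ ∧ (∀ x, σ (emb E B u x) = emb E B u x) ∧
      ∀ i, σ (uT E B u i) = uT E B u i * (emb E B u (y i))⁻¹ := by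
  have c : ∀ i (x : B), (x : MM Γ a) ∈ (K i).map (cst Γ a) →
      Commute (emb E B u (y i)) (emb E B u x) := by
    rintro i x ⟨k, k1, k2⟩
    exact Commute.map (show Commute (y i) x from Subtype.ext (k2 ▸ hy i k k1).eq) _
  obtain ⟨σ, a1, a2⟩ := h.lift (emb E B u) (fun i => uT E B u i * (emb E B u (y i))⁻¹)
    fun i x hx => (h.comm i hx).mul_left (c i x hx).inv_left
  obtain ⟨σ', b1, b2⟩ := h.lift (emb E B u) (fun i => uT E B u i * emb E B u (y i))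
    fun i x hx => (h.comm i hx).mul_left (c i x hx)
  have e1 : σ'.comp σ = MonoidHom.id _ :=
    tt_ext (fun x => by simp [a1, b1]) fun i => by simp [a2, b1, b2]
  have e2 : σ.comp σ' = MonoidHom.id _ :=
    tt_ext (fun x => by simp [a1, b1]) fun i => by simp [a1, a2, b2]
  exact ⟨σ, Function.bijective_iff_has_inverse.2
    ⟨σ', DFunLike.congr_fun e1, DFunLike.congr_fun e2⟩, a1, a2⟩

theorem Mic.small (h : Mic E μ B K u) (i : Fin r) {p q : B} (hp : Ll (ln (p : MM Γ a)) μ)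
    (hq : Ll (ln (q : MM Γ a)) μ) :
    Ll (ln ((emb E B u p * uT E B u i * (emb E B u q)⁻¹ : TT E B u) : MM Γ b)) (E.kh μ) := by
  refine (((E.ll_iff.2 hp).add (h.sm i)).add (E.ll_iff.2 hq)).mono_left ?_
  rw [← E.ln_hom, ← E.ln_hom, ← ln_inv (E.hom Γ q)]
  change ln (E.hom Γ p * u i * (E.hom Γ q)⁻¹) ≤ _
  linarith [ln_mul_le (E.hom Γ p * u i) (E.hom Γ q)⁻¹, ln_mul_le (E.hom Γ p) (u i)]

theorem comp_lift {W G G' : Type} [Group W] [Group G] [Group G'] (f : G →* G') (j : W →* G)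
    (ν : Fin r → G) (w : Monoid.Coprod W (FreeGroup (Fin r))) :
    f (Monoid.Coprod.lift j (FreeGroup.lift ν) w) =
      Monoid.Coprod.lift (f.comp j) (FreeGroup.lift fun i => f (ν i)) w := by
  refine DFunLike.congr_fun (show f.comp (Monoid.Coprod.lift j (FreeGroup.lift ν)) = _ from
    Monoid.Coprod.hom_ext ?_ (FreeGroup.ext_hom _ _ fun i => ?_)) w
  · ext x
    simp
  · simp

theorem lift_one {W G : Type} [Group W] [Group G] (j : W →* G)
    (w : Monoid.Coprod W (FreeGroup (Fin r))) :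
    Monoid.Coprod.lift j (FreeGroup.lift fun _ => 1) w =
      j (Monoid.Coprod.lift (MonoidHom.id W) 1 w) := by
  refine DFunLike.congr_fun (show _ = j.comp (Monoid.Coprod.lift (MonoidHom.id W) 1) from
    Monoid.Coprod.hom_ext ?_ (FreeGroup.ext_hom _ _ fun i => ?_)) w
  · ext x
    simp
  · simp

end No1

open No1 ET in
theorem p_NO1 (hFRAME : S_FRAME) (hCVX : S_CVX) (hMICL : S_MICL) (hE_END : S_E_END) :
    S_NO1 := by
  intro Γ a H μ m k Q h x hH hμ hQ hh hx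
  have hM := fun (r : ℕ) (K : Fin r → Subgroup Γ.G) => mic hMICL hμ (gc_ball hCVX hμ) K
  generalize a.dg U0 = E at hM
  generalize a.pow U0 = b at E hM
  obtain ⟨A0, η, a1, a2, hend⟩ := hE_END Γ a b E H μ m k Q h x hH hμ hQ hh hx
  refine ⟨A0, a1, fun R φ hφ A hA ho => ?_⟩
  obtain ⟨r, y, ι, c, c0, hy, hid, hout⟩ := ho η a2
  have h0 := hμ.pos.le
  choose z z' hz hz' K hK hc hs using fun i => hFRAME Γ a μ (φ (y i)) hμ
    ((phi_l_pos hμ hφ _).1 (hy i).1) fun p => (hy i).2 ((phi_per hμ hφ _ _).2 (by simpa using p))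
  obtain ⟨u, M⟩ := hM r K hK
  lift z to Fin r → ball Γ μ using fun i => (mem_ball h0).2 (hz i).ls
  lift z' to Fin r → ball Γ μ using fun i => (mem_ball h0).2 (hz' i).ls
  obtain ⟨ρ, r1, r2⟩ := M.rho
  obtain ⟨σ, s0, s1, s2⟩ := M.sigma (fun i => (z i)⁻¹ * φ (y i) * z' i) hc
  have hν : Big (E.kh μ) := E.big_iff.2 hμ
  have hT : TT E (ball Γ μ) u ≤ ball Γ (E.kh μ) := sup_le (map_ball_le E h0)
    ((Subgroup.closure_le _).2 (by
      rintro _ ⟨i, rfl⟩
      exact (mem_ball hν.pos.le).2 (M.sm i).ls))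
  have old : ∀ (t : TT E (ball Γ μ) u) (g : MM Γ a), (t : MM Γ b) = E.hom Γ g →
      ∃ p : ball Γ μ, (p : MM Γ a) = g ∧ t = emb E _ u p := fun t g e =>
    ⟨⟨g, (hom_mem_ball E h0).1 (e ▸ hT t.2)⟩, rfl, Subtype.ext e⟩
  obtain ⟨j, hj⟩ : ∃ j : R.W →* TT E (ball Γ μ) u, ∀ w, j w = emb E _ u (φ w) :=
    ⟨(emb E _ u).comp φ.toMonoidHom, fun _ => rfl⟩
  obtain ⟨ν, hn⟩ : ∃ ν : Fin r → TT E (ball Γ μ) u,
      ∀ i, ν i = emb E _ u (z i) * uT E _ u i * (emb E _ u (z i))⁻¹ := ⟨_, fun _ => rfl⟩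
  have l1 : ∀ w, rl (E.kh μ) (ln (j w : MM Γ b)) ≤ R.ℓ w := fun w => by
    rw [hj, emb_coe, E.ln_hom, E.rl_kh, hφ]
  have c1 : ∀ i g, R.Stab 1 (y i) g → Commute (ν i) (j g) := fun i g hg => by
    have k1 := (hs i (φ g)).1 (by simpa using (phi_stab hμ hφ _ _ _).1 hg)
    have k2 := (M.comm i (x := (z i)⁻¹ * φ g * z i) k1).conj (emb E _ u (z i))
    rw [hn, hj]
    simpa [mul_assoc] using k2
  have sj : σ.comp j = j := MonoidHom.ext fun w => by rw [MonoidHom.comp_apply, hj, s1]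
  obtain ⟨o1, o2, -⟩ := hout (lgOn _ hν _ hT) j ν l1 c1
  obtain ⟨-, -, o3⟩ := hout (lgOn _ hν _ hT) j (fun i => σ (ν i)) l1 fun i g hg =>
    (DFunLike.congr_fun sj g) ▸ (c1 i g hg).map σ
  have o4 : ∑ i, rl (E.kh μ)
      (ln (Monoid.Coprod.lift j (FreeGroup.lift fun i => σ (ν i)) (ι (φ.symm (x i))) : MM Γ b)) ≤
      ∑ i, R.ℓ (φ.symm (x i)) - c := o3 fun i => (lg_l_zero hν hT _).2 (by
    have e : σ (ν i) * j (y i) = emb E _ u (z i) * uT E _ u i * (emb E _ u (z' i))⁻¹ := by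
      simp [hn, hj, s1, s2, mul_assoc]
    exact e ▸ M.small i (hz i) (hz' i))
  have := hend R φ hφ A hA _ (fun w => Monoid.Coprod.lift j (FreeGroup.lift ν) (ι w)) ρ σ M.gc hT
    ((Subgroup.map_mono inf_le_right).trans le_sup_left)
    (M.ret ρ (fun t g e => by
      obtain ⟨p, rfl, rfl⟩ := old t g e
      exact r1 p) fun t i e => by
      obtain rfl : t = uT E _ u i := Subtype.ext e
      exact r2 i)
    o1.mul (fun w hw e => congrArg Subtype.val ((o1.par w hw e).trans (hj w)))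
    (fun w hw => by
      have e : (fun i => ρ (ν i)) = fun _ => 1 := funext fun i => by simp [hn, r1, r2]
      rw [comp_lift, e, lift_one, hid w hw, MonoidHom.comp_apply, hj, r1])
    (o2 fun i => (lg_l_zero hν hT _).2 (hn i ▸ M.small i (hz i) (hz i))) s0
    (by
      rintro t ⟨g, -, e⟩
      obtain ⟨p, -, rfl⟩ := old t g e.symm
      exact s1 p)
  simp only [comp_lift, sj] at this
  linarith

end Pool.Agent.P.MP_dba3d2_lc
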