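import Pool.Agent.P.MP_dba3d2_lc.E.Iface
import Pool.Agent.P.MP_dba3d2_lc.A.Iface
import Pool.Agent.P.MP_dba3d2_lc.B.Iface
import Pool.Agent.P.MP_dba3d2_lc.E.Iface2
import Pool.Agent.P.MP_dba3d2_lc.E.Bas

/-! Step NO2 of the stability project. -/

namespace Pool.Agent.P.MP_dba3d2_lc

open Filter

open ET

namespace No2

variable {Γ : HG} {a b : Amb}

/-- the exponents as a homomorphism -/
def nu (T : Subgroup (MM Γ b)) (d : MM Γ b) (k : ℚ →+ b.Z) (h : ∀ q, ipow d (k q) ∈ T) :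
    Multiplicative ℚ →* T :=
  MonoidHom.mk' (fun q => ⟨ipow d (k q.toAdd), h _⟩) fun p q =>
    Subtype.ext (by simp only [toAdd_mul, map_add, ipow_add, Subgroup.coe_mul])

/-- the group generated by the base and the exponents -/
abbrev TT (X : Subgroup (MM Γ b)) (d : MM Γ b) (k : ℚ →+ b.Z) : Subgroup (MM Γ b) :=
  X ⊔ Subgroup.closure (Set.range fun q => ipow d (k q))

variable {X : Subgroup (MM Γ b)} {d : MM Γ b} {k κ : ℚ →+ b.Z}

theorem mem_s (X : Subgroup (MM Γ b)) (d : MM Γ b) (k : ℚ →+ b.Z) (q : ℚ) :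
    ipow d (k q) ∈ TT X d k := Subgroup.mem_sup_right (Subgroup.subset_closure ⟨q, rfl⟩)

theorem mem_add (k : ℚ →+ b.Z) (hκ : ∀ q, ipow d (κ q) ∈ X) (q : ℚ) :
    ipow d ((k + κ) q) ∈ TT X d k := by
  rw [AddMonoidHom.add_apply, ipow_add]
  exact mul_mem (mem_s X d k q) (Subgroup.mem_sup_left (hκ q))

theorem sig (hX : ExtE X d k) (hκ : ∀ q, ipow d (κ q) ∈ X) : ∃ σ : TT X d k →* TT X d k,
    (∀ t : TT X d k, (t : MM Γ b) ∈ X → σ t = t) ∧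
      ∀ q, σ (nu _ d k (mem_s X d k) q) = nu _ d (k + κ) (mem_add k hκ) q := by
  obtain ⟨σ, h1, h2⟩ := hX (TT X d k) (Subgroup.inclusion le_sup_left)
    (nu _ d (k + κ) (mem_add k hκ)) (fun x q hx => Subtype.ext (commute_k (k + κ) hx q).eq)
    fun x q h1 h2 => Subtype.ext (invert_k (k + κ) h1 h2 q)
  exact ⟨σ, fun t ht => h1 ⟨t, ht⟩, fun q => h2 q.toAdd⟩

theorem sig_inv {κ' : ℚ →+ b.Z} (hκ : ∀ q, ipow d (κ q) ∈ X) (hκ' : ∀ q, ipow d (κ' q) ∈ X)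
    (e : ∀ q, κ' q + κ q = 0) {σ σ' : TT X d k →* TT X d k}
    (h1 : ∀ t : TT X d k, (t : MM Γ b) ∈ X → σ t = t)
    (h2 : ∀ q, σ (nu _ d k (mem_s X d k) q) = nu _ d (k + κ) (mem_add k hκ) q)
    (h3 : ∀ t : TT X d k, (t : MM Γ b) ∈ X → σ' t = t)
    (h4 : ∀ q, σ' (nu _ d k (mem_s X d k) q) = nu _ d (k + κ') (mem_add k hκ') q) :
    σ'.comp σ = MonoidHom.id _ := by
  refine hom_ext_sup (fun t ht => ?_) fun t q ht => ?_
  · rw [MonoidHom.comp_apply, h1 t ht, h3 t ht, MonoidHom.id_apply]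
  · obtain rfl : t = nu _ d k (mem_s X d k) (.ofAdd q) := Subtype.ext ht
    have e1 : nu _ d (k + κ) (mem_add k hκ) (.ofAdd q) = nu _ d k (mem_s X d k) (.ofAdd q) *
        ⟨ipow d (κ q), Subgroup.mem_sup_left (hκ q)⟩ := Subtype.ext (ipow_add _ _ _)
    rw [MonoidHom.comp_apply, h2, e1, map_mul, h4, h3 _ (hκ q)]
    refine Subtype.ext ?_
    show ipow d (k q + κ' q) * ipow d (κ q) = ipow d (k q)
    rw [← ipow_add, add_assoc, e, add_zero]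

theorem sig_bij (hX : ExtE X d k) (hκ : ∀ q, ipow d (κ q) ∈ X) : ∃ σ : TT X d k →* TT X d k,
    Function.Bijective σ ∧ (∀ t : TT X d k, (t : MM Γ b) ∈ X → σ t = t) ∧
      ∀ q, σ (nu _ d k (mem_s X d k) q) = nu _ d (k + κ) (mem_add k hκ) q := by
  have hκ' : ∀ q, ipow d ((-κ) q) ∈ X := fun q => by
    rw [AddMonoidHom.neg_apply, ipow_neg]
    exact inv_mem (hκ q)
  obtain ⟨σ, h1, h2⟩ := sig hX hκ
  obtain ⟨σ', h3, h4⟩ := sig hX hκ'
  exact ⟨σ, Function.bijective_iff_has_inverse.2 ⟨σ',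
    DFunLike.congr_fun (sig_inv hκ hκ' (fun q => neg_add_cancel _) h1 h2 h3 h4),
    DFunLike.congr_fun (sig_inv hκ' hκ (fun q => add_neg_cancel _) h3 h4 h1 h2)⟩, h1, h2⟩

theorem rho (E : Ext a b) {H : Subgroup (MM Γ a)} (hX : ExtE (H.map (E.hom Γ)) d k) :
    ∃ ρ : TT (H.map (E.hom Γ)) d k →* MM Γ a,
      (∀ (t : TT (H.map (E.hom Γ)) d k), ∀ h ∈ H, (t : MM Γ b) = E.hom Γ h → ρ t = h) ∧
      ∀ (t : TT (H.map (E.hom Γ)) d k) q, (t : MM Γ b) = ipow d (k q) → ρ t = 1 := by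
  obtain ⟨ρ, h1, h2⟩ := hX (MM Γ a) (Einv E H) 1 (fun x q _ => Commute.one_right _)
    fun x q _ _ => by simp
  refine ⟨ρ, fun t h hh e => ?_, fun t q e => ?_⟩
  · exact (h1 ⟨t, h, hh, e.symm⟩).trans (Einv_eq E H _ e)
  · obtain ⟨t, ht⟩ := t
    obtain rfl : t = _ := e
    exact h2 q

end No2

open No2 in
theorem p_NO2 (hELEM : S_ELEM) (hLINE : S_LINE) (hCVX : S_CVX) (hMICE : S_MICE) (hE_END : S_E_END) (hE_ORI : S_E_ORI) :
    S_NO2 := by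
  intro Γ a H μ m n Q h x hH hμ hQ hh hx
  obtain ⟨A0, η, hA0, hη, hend⟩ := hE_END Γ a _ (a.dg U0) H μ m n Q h x hH hμ hQ hh hx
  refine ⟨A0, hA0, fun R φ hφ A hA ⟨L, ι, c0, hc0, hL, hι, hG⟩ => ?_⟩
  obtain ⟨c, hcb, hc, hfix, ⟨κ, hκb, hκ⟩, hori⟩ := hE_ORI Γ a μ R φ L hμ hφ hL
  obtain ⟨-, k, -, g0, g1, hX, -, hmd, -, hretr⟩ :=
    hMICE Γ a (ball Γ μ) c (gc_ball hCVX hμ).toGC0 hcb hc
  replace hend := hend R φ hφ A hA
  generalize a.dg U0 = E at *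
  generalize a.pow U0 = b at *
  have h0 := hμ.pos.le
  have hν : Big (E.kh μ) := E.big_iff.2 hμ
  have hs : ∀ q t, Ll (ds (E.hom Γ (φ (L t))) (ipow (E.hom Γ c) (k q) * E.hom Γ (φ (L t))))
      (E.kh μ) := fun q t =>
    fix_of_fix hELEM hLINE (fun e => hc.1 (E.finOrder_iff.1 e)) (ipow_mem_Ep _ _)
      (by rw [← map_mul, E.ds_hom, E.ll_iff]; exact hfix t)
      (hmd q μ (Ll.mono_left (md_le_ds _ _) (hfix 0)))
  have hT : TT ((ball Γ μ).map (E.hom Γ)) (E.hom Γ c) k ≤ ball Γ (E.kh μ) := by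
    refine sup_le (map_ball_le E h0) ((Subgroup.closure_le _).2 ?_)
    rintro _ ⟨q, rfl⟩
    have e := disp_le (ipow (E.hom Γ c) (k q)) 1 (E.hom Γ (φ (L 0)))
    rw [ds_one_mul, ds_one_left] at e
    exact (mem_ball hν.pos.le).2 (Ls.mono_left e
      (((mem_ball hν.pos.le).1 ((hom_mem_ball E h0).2 (φ (L 0)).2)).two.add (hs q 0).ls))
  have hb : ∀ (t : TT ((ball Γ μ).map (E.hom Γ)) (E.hom Γ c) k) (g : MM Γ a),
      (t : MM Γ b) = E.hom Γ g → g ∈ ball Γ μ := fun t g e => (hom_mem_ball E h0).1 (e ▸ hT t.2)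
  obtain ⟨j, hj⟩ : ∃ j : R.W →* TT ((ball Γ μ).map (E.hom Γ)) (E.hom Γ c) k,
      ∀ w, (j w : MM Γ b) = E.hom Γ (φ w) :=
    ⟨((E.hom Γ).comp ((ball Γ μ).subtype.comp φ.toMonoidHom)).codRestrict _ fun w =>
      Subgroup.mem_sup_left ⟨_, (φ w).2, rfl⟩, fun _ => rfl⟩
  have hG' := fun (k' : ℚ →+ b.Z) hk' => hG (lgOn (E.kh μ) hν _ hT) j (nu _ (E.hom Γ c) k' hk')
    (fun w => le_of_eq ((lg_l hν hT (j w)).trans (by rw [hj, E.ln_hom, E.rl_kh, hφ])))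
    fun g ε β hε ht q => by
      obtain ⟨o1, o2⟩ := hori g ε β (by exact_mod_cast hε) ht
      refine Subtype.ext ?_
      show (j g : MM Γ b) * ipow (E.hom Γ c) (k' q) * (j g : MM Γ b)⁻¹ =
        ipow (E.hom Γ c) (k' (ε * q))
      rw [hj]
      rcases hε with rfl | rfl
      · rw [one_mul, (commute_k k' ((GT.memEp_hom E).2 (o2.2 (by simp))) q).eq,
          mul_inv_cancel_right]
      · rw [neg_one_mul]
        exact invert_k k' ((GT.inE_hom E).2 o1)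
          (fun e => absurd (o2.1 ((GT.memEp_hom E).1 e)) (by norm_num)) q
  have e0 : ∀ q, ipow (E.hom Γ c) ((E.zh.toAddMonoidHom.comp (-κ)) q) =
      E.hom Γ (ipow c (κ (-q))) := fun q => by
    rw [E.hom_ipow, map_neg]
    rfl
  have hκ' : ∀ q, ipow (E.hom Γ c) ((E.zh.toAddMonoidHom.comp (-κ)) q) ∈
      (ball Γ μ).map (E.hom Γ) := fun q => ⟨_, hκb (-q), (e0 q).symm⟩
  obtain ⟨ρ, r1, r2⟩ := rho E hX
  obtain ⟨σ, s1, s2, s3⟩ := sig_bij hX hκ'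
  obtain ⟨p1, p2, -⟩ := hG' k (mem_s _ _ k)
  have p3 := (hG' _ (mem_add k hκ')).2.2 fun q t => (lg_d_zero hν hT _ _).2 (by
    show Ll (ds (ipow (E.hom Γ c) (k q + (E.zh.toAddMonoidHom.comp (-κ)) q) * (j (L t) : MM Γ b))
      (j (L (t - q)))) _
    have e1 := E.ll_iff.2 (hκ (-q) t)
    rw [← E.ds_hom, map_mul, Rat.cast_neg, ← sub_eq_add_neg,
      ← ds_mul_left (ipow (E.hom Γ c) (k q))] at e1
    rw [ipow_add, e0, hj, hj, mul_assoc]
    exact Ll.mono_left (ds_tri _ _ _) (e1.add (FixA.ll_comm (hs q _))))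
  have er : ρ.comp (Monoid.Coprod.lift j (nu _ (E.hom Γ c) k (mem_s _ _ k))) =
      ((ball Γ μ).subtype.comp φ.toMonoidHom).comp (Monoid.Coprod.lift (MonoidHom.id _) 1) := by
    refine Monoid.Coprod.hom_ext (MonoidHom.ext fun w => ?_) (MonoidHom.ext fun q => ?_)
    · exact r1 _ _ (φ w).2 (hj w)
    · exact (r2 _ q.toAdd rfl).trans (map_one ((ball Γ μ).subtype.comp φ.toMonoidHom)).symm
  have es : σ.comp (Monoid.Coprod.lift j (nu _ (E.hom Γ c) k (mem_s _ _ k))) =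
      Monoid.Coprod.lift j (nu _ (E.hom Γ c) _ (mem_add k hκ')) := by
    refine Monoid.Coprod.hom_ext (MonoidHom.ext fun w => ?_) (MonoidHom.ext fun q => s3 q)
    exact s2 _ ⟨_, (φ w).2, (hj w).symm⟩
  have fin := hend _ (fun w => Monoid.Coprod.lift j (nu _ (E.hom Γ c) k (mem_s _ _ k)) (ι w)) ρ σ
    ⟨g0, g1 (gc_ball hCVX hμ).finc⟩ hT
    ((Subgroup.map_mono inf_le_right).trans le_sup_left)
    (hretr ρ (fun t g e => r1 t g (hb t g e) e) r2) p1.mul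
    (fun w hw e => (congrArg Subtype.val (p1.par w hw e)).trans (hj w))
    (fun w hw => (DFunLike.congr_fun er (ι w)).trans (by
      rw [MonoidHom.comp_apply, hι w hw]; rfl))
    (fun w hw => (p2 (fun q t => (lg_d_zero hν hT _ _).2 (by
      show Ll (ds (ipow (E.hom Γ c) (k q) * (j (L t) : MM Γ b)) (j (L t))) _
      rw [hj]
      exact FixA.ll_comm (hs q t))) w hw).trans (le_add_of_nonneg_right hη.le))
    s1 fun t ⟨g, _, e⟩ => s2 t ⟨g, hb t g e.symm, e⟩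
  refine absurd (fin.trans (le_trans (le_of_eq ?_) p3)) (by linarith)
  exact Finset.sum_congr rfl fun i _ =>
    congrArg (fun t => rl (E.kh μ) (ln (Subtype.val t))) (DFunLike.congr_fun es _)

end Pool.Agent.P.MP_dba3d2_lc
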