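import Pool.Agent.P.MP_dba3d2_lc.E.Iface
import Pool.Agent.P.MP_dba3d2_lc.A.Iface
import Pool.Agent.P.MP_dba3d2_lc.B.Iface
import Pool.Agent.P.MP_dba3d2_lc.C.Iface
import Pool.Agent.P.MP_dba3d2_lc.E.Iface2
import Pool.Agent.P.MP_dba3d2_lc.E.Bas

/-! Step NO3 of the stability project. -/

namespace Pool.Agent.P.MP_dba3d2_lc

open Filter ET

namespace No3

variable {Γ : HG} {a b : Amb}

/-- extension of homomorphisms from a parametrised base to the letters -/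
theorem ext_key {G0 : Type} [Group G0] (j0 : G0 →* MM Γ b) (hj : Function.Injective j0)
    {B : Subgroup (MM Γ b)} (hB : j0.range = B) {r : ℕ} {K : Fin r → Subgroup Γ.G}
    {u : Fin r → MM Γ b} (hX : ExtL B u)
    (hcj : ∀ i, ∀ x ∈ B, (u i)⁻¹ * x * u i ∈ B → x ∈ (K i).map (cst Γ b))
    (hcm : ∀ i, ∀ k ∈ K i, Commute (u i) (cst Γ b k)) {G : Type} [Group G] (θ0 : G0 →* G)
    (ν : Fin r → G) (h : ∀ i, ∀ k ∈ K i, ∀ t, j0 t = cst Γ b k → Commute (ν i) (θ0 t)) :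
    ∃ θ : ↥(B ⊔ Subgroup.closure (Set.range u)) →* G,
      (∀ (x : ↥(B ⊔ Subgroup.closure (Set.range u))) t, (x : MM Γ b) = j0 t → θ x = θ0 t) ∧
      ∀ (x : ↥(B ⊔ Subgroup.closure (Set.range u))) i, (x : MM Γ b) = u i → θ x = ν i := by
  subst hB
  let e : G0 ≃* j0.range := MonoidHom.ofInjective hj
  have he : ∀ x : j0.range, j0 (e.symm x) = x := fun x => by
    have := MonoidHom.ofInjective_apply hj (x := e.symm x)
    rw [← this]
    exact congrArg Subtype.val (e.apply_symm_apply x)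
  obtain ⟨θ, h1, h2⟩ := hX G (θ0.comp e.symm.toMonoidHom) ν (by
    intro i x y exy
    obtain ⟨k, hk, ek⟩ := hcj i x x.2 (exy ▸ y.2)
    have e1 : y = x := Subtype.ext (by
      rw [exy, ← ek, mul_assoc, ← (hcm i k hk).eq, inv_mul_cancel_left])
    have c := h i k hk (e.symm x) ((he x).trans ek.symm)
    rw [e1]
    show θ0 (e.symm x) = (ν i)⁻¹ * θ0 (e.symm x) * ν i
    rw [mul_assoc, ← c.eq, inv_mul_cancel_left])
  refine ⟨θ, fun x t ex => ?_, fun x i ex => ?_⟩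
  · have := h1 ⟨j0 t, t, rfl⟩
    have e1 : e.symm ⟨j0 t, t, rfl⟩ = t := hj (he _)
    rw [show x = ⟨j0 t, (le_sup_left : j0.range ≤ _) ⟨t, rfl⟩⟩ from Subtype.ext ex, this]
    exact congrArg θ0 e1
  · rw [← h2 i]
    exact congrArg θ (Subtype.ext ex)

theorem lip_inv {E : Ext a b} {T : Subgroup (MM Γ b)} {ρ : T →* MM Γ a} {t : T}
    (h : Lip E T ρ t) : Lip E T ρ t⁻¹ := by
  rw [Lip, map_inv, Subgroup.coe_inv, ln_inv, ln_inv]
  exact h

theorem ln3 (x y z : MM Γ a) : ln (x * y * z) ≤ ln x + ln y + ln z :=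
  (ln_mul_le _ _).trans (by linarith [ln_mul_le x y])

section base
variable {μ : a.K} {R : RT} {φ : R.W ≃* ball Γ μ} {T0 : Subgroup R.W}

/-- the embedding of the tree group -/
def F (φ : R.W ≃* ball Γ μ) : R.W →* MM Γ a := (ball Γ μ).subtype.comp φ.toMonoidHom

theorem F_inj (φ : R.W ≃* ball Γ μ) : Function.Injective (F φ) :=
  Subtype.val_injective.comp φ.injective

theorem F_symm (φ : R.W ≃* ball Γ μ) (g : ball Γ μ) : F φ (φ.symm g) = g :=
  congrArg Subtype.val (φ.apply_symm_apply g)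

theorem zero_mem (hcv : ∀ h ∈ T0, ∀ p, R.On p 1 h → p ∈ T0) {p : R.W} (hp : R.ℓ p = 0) :
    p ∈ T0 := by
  refine hcv 1 T0.one_mem p ?_
  simp [LG.On, LG.d, R.l_inv, R.l_one, hp]

theorem tiny_mem (hμ : Big μ) (hφ : ∀ g, R.ℓ g = rl μ (ln (φ g : MM Γ a)))
    (hcv : ∀ h ∈ T0, ∀ p, R.On p 1 h → p ∈ T0) {z : MM Γ a} (hz : Ll (ln z) μ) :
    ∃ t : T0, F φ t = z ∧ R.ℓ t = 0 := by
  have h1 : z ∈ ball Γ μ := (mem_ball hμ.pos.le).2 hz.ls
  have h2 : R.ℓ (φ.symm ⟨z, h1⟩) = 0 := by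
    rw [phi_l_zero hμ hφ, φ.apply_symm_apply]; exact hz
  exact ⟨⟨_, zero_mem hcv h2⟩, F_symm φ _, h2⟩

theorem cvx_base (hμ : Big μ) (hφ : ∀ g, R.ℓ g = rl μ (ln (φ g : MM Γ a)))
    (hcv : ∀ h ∈ T0, ∀ p, R.On p 1 h → p ∈ T0) : Cvx ((F φ).comp T0.subtype).range := by
  constructor
  · intro g hg
    obtain ⟨t, e, -⟩ := tiny_mem hμ hφ hcv ((mem_tiny hμ.pos.le).1 (std_le_tiny hμ hg))
    exact ⟨t, e⟩
  · rintro _ ⟨t, rfl⟩ p hp
    have h1 : p ∈ ball Γ μ := (cvx_ball hμ).2 _ (φ t).2 p hp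
    refine ⟨⟨φ.symm ⟨p, h1⟩, hcv t t.2 _ ?_⟩, F_symm φ _⟩
    rw [phi_on hμ hφ, φ.apply_symm_apply, map_one]
    have := hμ.ll_of_not_big hp
    rw [On]
    show Ll (ds 1 p + ds p (φ t : MM Γ a) - ds 1 (φ t : MM Γ a)) μ
    rw [ds_one_left, ds_one_left]
    exact this

end base

end No3

open No3

theorem p_NO3 (hFRAME : S_FRAME) (hGMAC : S_GMAC) (hCVX : S_CVX) (hEXTGC : S_EXTGC) (hLET : S_LET) (hE_END : S_E_END) (hE_LIP : S_E_LIP) :
    S_NO3 := by
  intro Γ a H μ m k Q h x hH hμ hQ hh hN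
  obtain ⟨A0, η, hA0, hη, hE⟩ := hE_END Γ a (a.pow U0) (a.dg U0) H μ m k Q h x hH hμ hQ hh hN
  refine ⟨A0, hA0, fun R φ hφ A hA ⟨T0, σ0, r, y, ι, c, hc, hM, hcv, hσ, hy, hι, hO⟩ => ?_⟩
  replace hE := hE R φ hφ A hA
  -- frames
  choose z z' hz hz' K hK hcm hst using fun i => hFRAME Γ a μ (F φ (y i)) hμ
    ((phi_l_pos hμ hφ _).1 (hy i).1) (fun e => (hy i).2 ((phi_per hμ hφ _ _).2 (by
      rw [map_one]; exact e)))
  have hY : ∀ i, Ls (ln (F φ (y i))) μ := fun i => (mem_ball hμ.pos.le).1 (φ (y i)).2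
  have hsim : ∀ i, Sim (ln ((z i)⁻¹ * F φ (y i) * z' i)) μ := fun i => by
    constructor
    · refine Ls.mono_left (ln3 _ _ _) ?_
      rw [ln_inv]
      exact ((hz i).ls.add (hY i)).add (hz' i).ls
    · refine Ls.of_le_add ((phi_l_pos hμ hφ _).1 (hy i).1) ((hz i).add (hz' i)) hμ.pos 1 ?_
      have := ln3 (z i) ((z i)⁻¹ * F φ (y i) * z' i) (z' i)⁻¹
      rw [ln_inv, show z i * ((z i)⁻¹ * F φ (y i) * z' i) * (z' i)⁻¹ = F φ (y i) by group] at this
      push_cast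
      show ln (F φ (y i)) ≤ _
      linarith
  obtain ⟨u', hL, hu'⟩ := hGMAC Γ a μ r K _ hμ hK hsim
  generalize a.dg U0 = E at hE hL hu'
  generalize a.pow U0 = b at E u' hE hL hu'
  change Letters (E.kh μ) _ K u' at hL
  change ∀ i, Ll |ln (u' i) - E.kh (ln ((z i)⁻¹ * F φ (y i) * z' i))| (E.kh μ) at hu'
  have hν : Big (E.kh μ) := E.big_iff.2 hμ
  choose tz etz ltz using fun i => tiny_mem hμ hφ hcv (hz i)
  choose tz' etz' ltz' using fun i => tiny_mem hμ hφ hcv (hz' i)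
  -- the base
  let f : T0 →* MM Γ a := (F φ).comp T0.subtype
  let j0 : T0 →* MM Γ b := (E.hom Γ).comp f
  have hj0 : Function.Injective j0 :=
    E.hom_injective.comp ((F_inj φ).comp Subtype.val_injective)
  have hB : j0.range = f.range.map (E.hom Γ) := (MonoidHom.range_comp _ _)
  have gB : GC (f.range.map (E.hom Γ)) :=
    (hEXTGC Γ a b E _).2 (hCVX Γ a _ (cvx_base hμ hφ hcv))
  have bB : f.range.map (E.hom Γ) ≤ ball Γ (E.kh μ) := by
    rintro _ ⟨_, ⟨t, rfl⟩, rfl⟩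
    exact (hom_mem_ball E hμ.pos.le).2 (φ t).2
  obtain ⟨o, hX, hNF, hcj, -⟩ := hLET Γ b (E.kh μ) _ r K u' hν gB.toGC0 bB
    ⟨hL.fin, hL.sim, hL.comm, hL.nper, hL.self, fun i w hw =>
      hL.base i w (Subgroup.map_le_range _ _ hw)⟩
  have key := fun (G : Type) [Group G] (θ0 : T0 →* G) (ν : Fin r → G) =>
    ext_key j0 hj0 hB hX hcj hL.comm θ0 ν
  have uniq := fun (G : Type) [Group G] g g' =>
    hom_ext_sup (G := G) (B := f.range.map (E.hom Γ)) (u := u') (f := g) (g := g')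
  have lB : f.range.map (E.hom Γ) ≤ f.range.map (E.hom Γ) ⊔ Subgroup.closure (Set.range u') :=
    le_sup_left
  have mU : ∀ i, u' i ∈ f.range.map (E.hom Γ) ⊔ Subgroup.closure (Set.range u') := fun i =>
    (le_sup_right : _ ≤ f.range.map (E.hom Γ) ⊔ _) (Subgroup.subset_closure ⟨i, rfl⟩)
  generalize f.range.map (E.hom Γ) ⊔ Subgroup.closure (Set.range u') = T at o hNF key uniq lB mU
  have mj : ∀ t, j0 t ∈ T := fun t => lB ⟨_, ⟨t, rfl⟩, rfl⟩
  let j : T0 →* T := j0.codRestrict T mj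
  let U : Fin r → T := fun i => ⟨u' i, mU i⟩
  let u : Fin r → T := fun i => j (tz i) * U i * (j (tz' i))⁻¹
  have eu : ∀ i, (u i : MM Γ b) = E.hom Γ (z i) * u' i * (E.hom Γ (z' i))⁻¹ := fun i => by
    rw [← etz, ← etz']; rfl
  -- the retraction
  obtain ⟨ρ, hρ1, hρ2⟩ := key (MM Γ a) f (fun i => (z i)⁻¹ * F φ (y i) * z' i) (by
    intro i k hk t e
    rw [show f t = cst Γ a k from E.hom_injective e]
    exact hcm i k hk)
  have hretr : ∀ n, Retr E T ρ n := by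
    obtain ⟨l1, l2⟩ := hE_LIP Γ a b E T ρ
    obtain ⟨l2, l3⟩ := l2 f.range lB (by
      rintro t _ ⟨s, rfl⟩ e
      exact hρ1 t s e)
    have lU : ∀ i, Lip E T ρ (U i) := fun i => by
      refine ⟨fun hb => ?_, fun hb => (hb (hν.of_ls (hL.sim i).2)).elim⟩
      rw [hρ2 (U i) i rfl]
      refine Ll.ls_right (Ll.mono_left ?_ (hu' i)) (hL.sim i).2 (ln_nonneg _)
      rw [abs_sub_comm]
      exact le_abs_self _
    refine l3 o.fin o.per fun t => l1 T _ hNF ?_ ?_ t t.2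
    · rintro g (hg | ⟨i, rfl | rfl⟩)
      exacts [lB hg, mU i, T.inv_mem (mU i)]
    · rintro t (hg | ⟨i, e | e⟩)
      · exact l2 t hg
      · rw [show t = U i from Subtype.ext e]; exact lU i
      · rw [show t = (U i)⁻¹ from Subtype.ext e]; exact lip_inv (lU i)
  -- the automorphism
  have hat : ∀ s : T0 →* T0, (∀ t : T0, R.ℓ t = 0 → s t = t) →
      ∃ s' : T →* T, (∀ t, s' (j t) = j (s t)) ∧ ∀ i, s' (U i) = U i := by
    intro s hs
    obtain ⟨s', h1, h2⟩ := key T (j.comp s) U (by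
      intro i k hk t e
      have e1 : f t = cst Γ a k := E.hom_injective e
      have e2 : R.ℓ t = 0 := (phi_l_zero hμ hφ _).2 (by
        show Ll (ln (f t)) μ
        rw [e1]
        exact (mem_tiny hμ.pos.le).1 (std_le_tiny hμ ⟨k, rfl⟩))
      rw [MonoidHom.comp_apply, hs t e2]
      refine Subtype.ext ?_
      show u' i * j0 t = j0 t * u' i
      rw [e]
      exact (hL.comm i k hk).eq)
    exact ⟨s', fun t => h1 (j t) t rfl, fun i => h2 (U i) i rfl⟩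
  obtain ⟨σ, s1, s2⟩ := hat σ0.toMonoidHom fun t e => hσ t (Or.inr e)
  obtain ⟨τ, t1, t2⟩ := hat σ0.symm.toMonoidHom fun t e =>
    σ0.symm_apply_eq.2 (hσ t (Or.inr e)).symm
  have idext : ∀ g : T →* T, (∀ t, g (j t) = j t) → (∀ i, g (U i) = U i) → ∀ t, g t = t := by
    intro g h1 h2 t
    refine DFunLike.congr_fun (uniq T g (MonoidHom.id T) ?_ ?_) t
    · rintro t ⟨_, ⟨s, rfl⟩, e⟩
      rw [show t = j s from Subtype.ext e.symm]
      exact h1 s
    · intro t i e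
      rw [show t = U i from Subtype.ext e]
      exact h2 i
  have hbij : Function.Bijective σ := Function.bijective_iff_has_inverse.2 ⟨τ,
    idext (τ.comp σ) (fun t => by simp [s1, t1]) (fun i => by simp [s2, t2]),
    idext (σ.comp τ) (fun t => by simp [s1, t1]) (fun i => by simp [s2, t2])⟩
  have su : ∀ i, σ (u i) = u i := fun i => by
    have e1 : σ0.toMonoidHom (tz i) = tz i := hσ _ (Or.inr (ltz i))
    have e2 : σ0.toMonoidHom (tz' i) = tz' i := hσ _ (Or.inr (ltz' i))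
    simp only [u, map_mul, map_inv, s1, s2, e1, e2]
  -- the outcome of the machine
  obtain ⟨o1, o2, o3⟩ := hO (lgOn (E.kh μ) hν T o.bd) j u (by
    intro i g g' hs e
    obtain ⟨k, hk, ek⟩ := (hst i (f g)).1 (by
      have := (phi_stab hμ hφ _ _ _).1 hs
      rwa [map_one] at this)
    have e1 : f g = z i * cst Γ a k * (z i)⁻¹ := by rw [ek]; group
    have e2 : f g' = z' i * cst Γ a k * (z' i)⁻¹ := by
      have c1 := (hcm i k hk).eq
      have : f g' = (F φ (y i))⁻¹ * f g * F φ (y i) := by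
        show F φ g' = _ * F φ g * _
        rw [e, map_mul, map_mul, map_inv]
      rw [this, e1]
      calc _ = z' i * (((z i)⁻¹ * F φ (y i) * z' i)⁻¹ *
            (cst Γ a k * ((z i)⁻¹ * F φ (y i) * z' i))) * (z' i)⁻¹ := by group
        _ = _ := by rw [← c1, inv_mul_cancel_left]
    refine Subtype.ext ?_
    show (u i : MM Γ b)⁻¹ * E.hom Γ (f g) * u i = E.hom Γ (f g')
    rw [eu, e1, e2]
    simp only [map_mul, map_inv, E.hom_cst]
    calc _ = E.hom Γ (z' i) * ((u' i)⁻¹ * (cst Γ b k * u' i)) * (E.hom Γ (z' i))⁻¹ := by group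
      _ = _ := by rw [← (hL.comm i k hk).eq, inv_mul_cancel_left])
  obtain ⟨o3, o4⟩ := o3 (fun t => by
      show rl (E.kh μ) (ln (E.hom Γ (f t))) ≤ _
      rw [E.ln_hom, E.rl_kh, hφ]
      exact le_rfl) (fun i => by
      rw [hφ, ← E.rl_kh]
      refine rl_le_of_ll hν.pos (ls_ln hν ⟨u i, o.bd (u i).2⟩) ?_ ?_
      · rw [← E.kh_abs, E.ls_iff]; exact ls_ln hμ _
      · have a1 := ln3 (E.hom Γ (z i)) (u' i) (E.hom Γ (z' i))⁻¹
        have a2 := E.kh_le.2 (ln3 (z i)⁻¹ (F φ (y i)) (z' i))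
        rw [ln_inv, E.ln_hom, E.ln_hom, ← eu] at a1
        rw [ln_inv, map_add, map_add] at a2
        have a3 := E.ll_iff.2 (hz i)
        have a4 := E.ll_iff.2 (hz' i)
        refine Ll.mono_left ?_ (((a3.add a4).two).add (hu' i))
        have a5 := le_abs_self (ln (u' i) - E.kh (ln ((z i)⁻¹ * F φ (y i) * z' i)))
        show ln (u i : MM Γ b) - E.kh (ln (F φ (y i))) ≤ _
        linarith)
  let Ψ : Monoid.Coprod T0 (FreeGroup (Fin r)) →* T := Monoid.Coprod.lift j (FreeGroup.lift u)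
  have e1 : ρ.comp Ψ = (F φ).comp (Monoid.Coprod.lift T0.subtype (FreeGroup.lift y)) := by
    refine Monoid.Coprod.hom_ext (MonoidHom.ext fun t => ?_) (FreeGroup.ext_hom _ _ fun i => ?_)
    · exact hρ1 (j t) t rfl
    · simp only [Ψ, MonoidHom.comp_apply, Monoid.Coprod.lift_apply_inr, FreeGroup.lift_apply_of, u,
        map_mul, map_inv, hρ1 (j _) _ rfl, hρ2 (U i) i rfl]
      rw [show f (tz i) = z i from etz i, show f (tz' i) = z' i from etz' i]
      group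
  have e2 : σ.comp Ψ = Monoid.Coprod.lift (j.comp σ0.toMonoidHom) (FreeGroup.lift u) := by
    refine Monoid.Coprod.hom_ext (MonoidHom.ext fun t => ?_) (FreeGroup.ext_hom _ _ fun i => ?_)
    · exact s1 t
    · simp only [Ψ, MonoidHom.comp_apply, Monoid.Coprod.lift_apply_inr, FreeGroup.lift_apply_of, su]
  have mM : ∀ g : ball Γ μ, (g : MM Γ a) ∈ H →
      φ.symm g ∈ (H.subgroupOf (ball Γ μ)).comap φ.toMonoidHom := fun g hg => by
    show ((φ (φ.symm g) : ball Γ μ) : MM Γ a) ∈ H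
    rwa [φ.apply_symm_apply]
  have fin := hE T (fun w => Ψ (ι w)) ρ σ
    ⟨o.gc, finC_of_finRed o.fin lB lB gB.finc gB.finc⟩ o.bd
    (by
      rintro _ ⟨g, ⟨h1, h2⟩, rfl⟩
      exact lB ⟨_, ⟨⟨φ.symm ⟨g, h2⟩, hM (mM _ h1)⟩, F_symm φ _⟩, rfl⟩)
    hretr o1
    (by
      intro w hw e
      have hT : w ∈ T0 := e.elim (fun e => hM e) (zero_mem hcv)
      exact congrArg Subtype.val (o2 ⟨w, hT⟩ hw e))
    (fun w hw => (DFunLike.congr_fun e1 (ι w)).trans (congrArg (F φ) (hι w hw)))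
    (fun w hw => (o3 w hw).trans (by linarith))
    hbij
    (by
      rintro t ⟨g, hg, e⟩
      have h2 : g ∈ ball Γ μ := (hom_mem_ball E hμ.pos.le).1 (e ▸ o.bd t.2)
      have e3 : t = j ⟨φ.symm ⟨g, h2⟩, hM (mM _ hg)⟩ :=
        Subtype.ext (e.symm.trans (congrArg (E.hom Γ) (F_symm φ ⟨g, h2⟩).symm))
      rw [e3, s1]
      exact congrArg j (hσ _ (Or.inl (mM _ hg))))
  have o5 : ∑ i, rl (E.kh μ) (ln (σ (Ψ (ι (φ.symm (x i)))) : MM Γ b)) ≤
      ∑ i, R.ℓ (φ.symm (x i)) - c := by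
    refine le_of_eq_of_le (Finset.sum_congr rfl fun i _ => ?_) o4
    exact congrArg (fun t : T => rl (E.kh μ) (ln (t : MM Γ b))) (DFunLike.congr_fun e2 _)
  linarith

end Pool.Agent.P.MP_dba3d2_lc
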