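import Pool.Agent.P.MP_dba3d2_lc.E.Iface
import Pool.Agent.P.MP_dba3d2_lc.E.Iface2
import Pool.Agent.P.MP_dba3d2_lc.E.Bas

/-! Step REFL0 of the stability project. -/

namespace Pool.Agent.P.MP_dba3d2_lc

open Filter

namespace Refl0

open ET

variable {Γ : HG} {a b : Amb}

theorem prim (hP : S_E_PRJ) (E : Ext a b) (S : Subgroup (MM Γ a)) (D : Set (MM Γ a)) {J : Type}
    (U : Ultrafilter J) (A : J → Finset (MM Γ a)) (n : J → ℕ) (T : J → Subgroup (MM Γ b))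
    (ι : (j : J) → MM Γ a → T j) (ρ : (j : J) → T j →* MM Γ a)
    (hA : ∀ s ∈ S, ∀ᶠ j in (U : Filter J), s ∈ A j) (hn : Tendsto n (U : Filter J) atTop)
    (hd : ∀ j, Adm E (A j) D (n j) (T j) (ι j) (ρ j)) {c : MM Γ a} (hc : c ∈ S) (pc : Prim c)
    (cc : Cen c) (hb : Big (ln c)) :
    Prim (a := b.pow U) (b.mk' U fun j => (ι j c : MM Γ b)) := by
  rw [prim_mk']
  filter_upwards [hA c hc, hn.eventually_ge_atTop 1] with j h1 h2
  have e := (hd j).sec c h1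
  refine hP _ _ _ E _ (ρ j) (n j) _ (hd j).gc (hd j).retr h2 (e.symm ▸ pc)
    (e.symm ▸ hb.of_ls cc) ?_
  rw [e]
  refine Ls.mono_left (md_le_ln _) (Ls.trans' ?_ (E.ls_iff.2 cc))
  have b1 := E.big_iff.2 hb
  have k := (b1.ll_of_not_big ((hd j).ni c h1)) 1
  have n1 : (1 : b.K) ≤ n j := by exact_mod_cast h2
  refine ⟨3, ?_⟩
  change ((1 : ℕ) : b.K) * (_ - _ * E.kh (ln c)) ≤ _ at k
  push_cast at k ⊢
  by_contra hh
  have := mul_lt_mul_of_pos_left (not_le.1 hh) (zero_lt_one.trans_le n1)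
  nlinarith [b1.pos]

end Refl0

open ET in
theorem p_REFL0 (hE_LIM : S_E_LIM) (hE_G2U : S_E_G2U) (hE_PU : S_E_PU) (hE_PW : S_E_PW) (hE_PRJ : S_E_PRJ) (hE_TG2 : S_E_TG2) (hE_TEX : S_E_TEX) (hE_TCEN : S_E_TCEN) :
    S_REFL0 := by
  intro Γ a b E S D J U A n T ι ρ hS hA hn hd
  obtain ⟨θ, R, hR, hf, hθ⟩ := hE_LIM Γ a b E S D J U A n T ι ρ hS hA hn hd
  have sc : ∀ s : MM Γ a, (E.pow U).kh (ln ((a.dg U).hom Γ s)) = (b.dg U).kh (E.kh (ln s)) :=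
    fun s => by rw [Ext.ln_hom, pow_dg_kh]
  have h2 : Rf2 (E.pow U) _ θ (UT U T) R := by
    refine ⟨hf, ?_, ?_, ?_⟩
    · rintro ⟨_, s, hs, rfl⟩ s' hb hl g p q
      have l1 := hf.ls ⟨_, s, hs, rfl⟩
      have l2 := (hf.ls s').trans' ((E.pow U).ls_iff.2 hl)
      dsimp only at hb l1 l2 ⊢
      rw [sc] at l1 l2 ⊢
      rw [Ext.ln_hom, Ext.big_iff] at hb
      exact hE_G2U Γ b J U T _ (fun j => (hd j).gc) (E.big_iff.2 hb) _ (hf.mem _) _ (hf.mem _)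
        l1 l2 g p q
    · rintro ⟨_, s, hs, rfl⟩ hb p q d h1 h2 h3 pd h4
      have l1 := hf.ls ⟨_, s, hs, rfl⟩
      have w := hE_PW _ _ _ _ _ _ _ _ hf ⟨_, s, hs, rfl⟩
      dsimp only at hb l1 h1 h2 h3 h4 w
      have hb' := hb
      rw [sc] at l1 h1 h2 h3 h4 w
      rw [Ext.ln_hom, Ext.big_iff] at hb
      obtain ⟨t, rfl, k | k⟩ := hE_PU Γ a b E J U T ρ n R _ (fun j => (hd j).gc)
        (fun j => (hd j).retr) hR hb _ (hf.mem _) p q d l1 h1 h2 h3 pd h4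
      · exact ⟨t, rfl, k⟩
      · exact ⟨t, rfl, w t p q hb' h1 h2 h3 pd h4 k⟩
    · rintro ⟨_, s, hs, rfl⟩ ps
      have ps0 : Prim s := (a.dg U).prim_iff.1 ps
      obtain ⟨p, hp, -, cc⟩ := hS.toGC0.cen1 hs ps0.1
      have hc : p⁻¹ * s * p ∈ S := S.mul_mem (S.mul_mem (S.inv_mem hp) hs) hp
      have key : Prim (θ ⟨_, _, hc, rfl⟩) := by
        by_cases hb : Big (ln (p⁻¹ * s * p))
        · rw [hθ _ hc _ rfl]
          exact Refl0.prim hE_PRJ E S D U A n T ι ρ hA hn hd hc (ps0.conj' p) cc hb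
        · rw [hf.std _ (by rwa [Ext.ln_hom, Ext.big_iff]), Ext.prim_iff, Ext.prim_iff]
          exact ps0.conj' p
      have e : (⟨_, s, hs, rfl⟩ : S.map ((a.dg U).hom Γ)) =
          ⟨_, p, hp, rfl⟩ * ⟨_, _, hc, rfl⟩ * (⟨_, p, hp, rfl⟩ : S.map ((a.dg U).hom Γ))⁻¹ :=
        Subtype.ext (by simp [mul_assoc])
      rw [e, map_mul, map_mul, map_inv]
      exact key.conj _
  obtain ⟨g2, g20⟩ := hE_TG2 _ _ _ _ _ _ _ _ h2
  obtain ⟨ex, pur⟩ := hE_TEX _ _ _ _ _ _ _ _ h2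
  obtain ⟨base, finc, cen⟩ := hE_TCEN _ _ _ _ _ _ _ _ hf
  let e := S.equivMapOfInjective ((a.dg U).hom Γ) (a.dg U).hom_injective
  refine ⟨θ.comp e.toMonoidHom, hf.inj.comp e.injective, ?_, fun s => hθ s s.2 _ rfl, fun s => ?_⟩
  · have : (θ.comp e.toMonoidHom).range = θ.range := by
      rw [MonoidHom.range_comp, MonoidHom.range_eq_top.2 e.surjective, ← MonoidHom.range_eq_map]
    rw [this]
    exact ⟨⟨base, g2, g20, ex, pur, cen⟩, finc⟩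
  · have := hf.sim (e s)
    rwa [show ((e s : S.map ((a.dg U).hom Γ)) : MM Γ (a.pow U)) = (a.dg U).hom Γ s from rfl,
      sc] at this

end Pool.Agent.P.MP_dba3d2_lc
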