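import Pool.Agent.P.MP_dba3d2_lc.E.Iface
import Pool.Agent.P.MP_dba3d2_lc.B.Iface
import Pool.Agent.P.MP_dba3d2_lc.C.Iface
import Pool.Agent.P.MP_dba3d2_lc.E.Bas

/-! Step REFL1 of the stability project. -/

namespace Pool.Agent.P.MP_dba3d2_lc

open Filter ET

namespace Refl1

variable {Γ : HG} {a b c : Amb}

/-- gluing an embedding of a ball with the embedding of `H` given by the extension -/
theorem glue (hCVX : S_CVX) (hEXTGC : S_EXTGC) (hGRAFT : S_GRAFT) (hGISO : S_GISO)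
    (E : Ext a b) (F : Ext b c) {H : Subgroup (MM Γ a)} {μ : a.K} (hH : GC H) (hμ : Big μ)
    (θ : ball Γ μ →* MM Γ c) (inj : Function.Injective θ) (gc : GC θ.range)
    (fix : ∀ w : ball Γ μ, (w : MM Γ a) ∈ H → θ w = F.hom Γ (E.hom Γ w))
    (len : ∀ s : ball Γ μ, Sim (ln (θ s)) (F.kh (E.kh (ln (s : MM Γ a))))) :
    ∃ Θ : ↥(H ⊔ ball Γ μ) →* MM Γ c, Function.Injective Θ ∧ GC Θ.range ∧
      (∀ x : H, Θ ⟨x, (le_sup_left : H ≤ H ⊔ ball Γ μ) x.2⟩ = F.hom Γ (E.hom Γ x)) ∧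
      ∀ y : ball Γ μ, Θ ⟨y, (le_sup_right : ball Γ μ ≤ H ⊔ ball Γ μ) y.2⟩ = θ y := by
  let θ0 : H →* MM Γ c := ((F.hom Γ).comp (E.hom Γ)).comp H.subtype
  have e0 : ∀ x : H, θ0 x = F.hom Γ (E.hom Γ x) := fun _ => rfl
  have r0 : θ0.range = (H.map (E.hom Γ)).map (F.hom Γ) := by
    rw [Subgroup.map_map, MonoidHom.range_comp, Subgroup.range_subtype]
  have g0 : GC θ0.range := r0 ▸ (hEXTGC _ _ _ F _).2 ((hEXTGC _ _ _ E _).2 hH)
  have i0 : Function.Injective θ0 :=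
    (F.hom_injective.comp E.hom_injective).comp Subtype.val_injective
  have l0 : ∀ x : H, ln (θ0 x) = F.kh (E.kh (ln (x : MM Γ a))) := fun x => by
    rw [e0, F.ln_hom, E.ln_hom]
  have key : ∀ x : H, θ0 x ∈ θ.range → (x : MM Γ a) ∈ ball Γ μ := by
    rintro x ⟨w, hw⟩
    have k' := (len w).1
    rw [hw, l0, F.ls_iff, E.ls_iff] at k'
    exact (mem_ball hμ.pos.le).2 (k'.trans' ((mem_ball hμ.pos.le).1 w.2))
  have sep : Sep θ0.range θ.range := by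
    rintro _ ⟨x, rfl⟩ hn _ ⟨w, rfl⟩
    have hx : (x : MM Γ a) ∉ ball Γ μ := fun k =>
      hn ⟨⟨x, k⟩, (fix ⟨x, k⟩ x.2).trans (e0 x).symm⟩
    have k := sep_ball hμ H x x.2 hx w w.2
    rw [l0]
    exact Ll.ls_left (len w).1 (F.ll_iff.2 (E.ll_iff.2 k))
  have hW : GC (ball Γ μ) := gc_ball hCVX hμ
  obtain ⟨Θ, h1, h2, h3, h4⟩ := hGISO Γ a c H (ball Γ μ) θ0 θ hH.toGC0 hW.toGC0 (sep_ball hμ H)
    g0.toGC0 gc.toGC0 sep i0 inj (fun x y => ⟨fun e => by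
      rw [fix y (e ▸ x.2), e0, e], fun e => by
      have k := key x ⟨y, e.symm⟩
      have e' : θ ⟨x, k⟩ = θ y := (fix ⟨x, k⟩ x.2).trans e
      exact congrArg Subtype.val (inj e')⟩) key
  exact ⟨Θ, h1, h2 ▸ gc_sup hGRAFT g0 gc sep, h3, h4⟩

end Refl1

theorem p_REFL1 (hCVX : S_CVX) (hEXTGC : S_EXTGC) (hREFL0 : S_REFL0) (hGRAFT : S_GRAFT) (hGISO : S_GISO) :
    S_REFL1 := by
  classical
  intro Γ a b E H μ m k Q h x hH hμ hQ hh hx hst
  by_contra hne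
  push Not at hne
  let J := Finset (ball Γ μ) × ℕ
  let A : J → Finset (MM Γ a) := fun j =>
    j.1.image Subtype.val ∪ Finset.univ.image x
  have hA : ∀ j, ∀ w ∈ A j, w ∈ ball Γ μ := by
    intro j w hw
    rcases Finset.mem_union.1 hw with k | k
    · obtain ⟨v, -, rfl⟩ := Finset.mem_image.1 k
      exact v.2
    · obtain ⟨i, -, rfl⟩ := Finset.mem_image.1 k
      exact hx i
  have hxA : ∀ j i, x i ∈ A j := fun j i =>
    Finset.mem_union_right _ (Finset.mem_image_of_mem _ (Finset.mem_univ i))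
  choose T ι ρ adm bad using fun j : J => hne (A j) j.2 (hA j) (hxA j)
  let U : Ultrafilter J := Ultrafilter.of atTop
  have hU : (U : Filter J) ≤ atTop := Ultrafilter.of_le _
  have ev : ∀ s ∈ ball Γ μ, ∀ᶠ j in (U : Filter J), s ∈ A j := fun s hs => by
    filter_upwards [hU (eventually_ge_atTop (({⟨s, hs⟩} : Finset (ball Γ μ)), 0))] with j hj
    exact Finset.mem_union_left _
      (Finset.mem_image.2 ⟨⟨s, hs⟩, hj.1 (Finset.mem_singleton_self _), rfl⟩)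
  have tn : Tendsto (fun j : J => j.2) (U : Filter J) atTop :=
    tendsto_atTop.2 fun n => by
      filter_upwards [hU (eventually_ge_atTop ((∅ : Finset (ball Γ μ)), n))] with j hj
      exact hj.2
  obtain ⟨θ, inj, gc, rep, len⟩ := hREFL0 Γ a b E (ball Γ μ) H J U A (fun j => j.2) T ι ρ
    (gc_ball hCVX hμ) ev tn adm
  have fix : ∀ w : ball Γ μ, (w : MM Γ a) ∈ H → θ w = (b.dg U).hom Γ (E.hom Γ w) := fun w hw => by
    rw [rep, ← mk'_hom, mk'_eq_iff]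
    filter_upwards [ev w w.2] with j hj
    exact (adm j).fix w hj (Or.inl hw)
  obtain ⟨Θ, h1, h2, h3, h4⟩ := Refl1.glue hCVX hEXTGC hGRAFT hGISO E (b.dg U) hH hμ θ inj gc fix len
  let v : Fin m ⊕ Fin k → ↥(H ⊔ ball Γ μ) := Sum.elim
    (fun i => ⟨h i, (le_sup_left : H ≤ H ⊔ ball Γ μ) (hh i)⟩)
    fun i => ⟨x i, (le_sup_right : ball Γ μ ≤ H ⊔ ball Γ μ) (hx i)⟩
  have e1 : (fun i => (v i : MM Γ a)) = Sum.elim h x := by
    funext i; cases i <;> rfl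
  have e2 : (fun i => Θ (v i)) = fun i => b.mk' U fun j =>
      Sum.elim (fun i => E.hom Γ (h i)) (fun i => (ι j (x i) : MM Γ b)) i := by
    funext i
    cases i with
    | inl i => exact (h3 ⟨h i, hh i⟩).trans (mk'_hom U _).symm
    | inr i => exact (h4 ⟨x i, hx i⟩).trans (rep _)
  have k1 := (hQ a (b.pow U) _ Θ (gc_sup hGRAFT hH (gc_ball hCVX hμ) (sep_ball hμ H)) h2 h1 v).1
    (e1 ▸ hst)
  rw [e2, st_mk'] at k1
  obtain ⟨j, hj⟩ := k1.exists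
  exact bad j hj

end Pool.Agent.P.MP_dba3d2_lc
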