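import Pool.Agent.P.MP_dba3d2_lc.E.Iface
import Pool.Agent.P.MP_dba3d2_lc.E.Bas

/-! Step REFL2 of the stability project. -/

namespace Pool.Agent.P.MP_dba3d2_lc

open Filter

theorem p_REFL2 (hREFL0 : S_REFL0) :
    S_REFL2 := by
  classical
  intro Γ a b E S m k Q h x hS hQ hh hx hSt
  by_contra hc
  simp only [not_exists, not_and, not_forall] at hc
  let A : Finset S × ℕ → Finset (MM Γ a) := fun j =>
    j.1.image Subtype.val ∪ Finset.univ.image x
  have hA : ∀ j, ∀ w ∈ A j, w ∈ S := by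
    intro j w hw
    rcases Finset.mem_union.1 hw with hw | hw
    · obtain ⟨s, -, rfl⟩ := Finset.mem_image.1 hw
      exact s.2
    · obtain ⟨i, -, rfl⟩ := Finset.mem_image.1 hw
      exact hx i
  have hAx : ∀ j i, x i ∈ A j := fun j i =>
    Finset.mem_union_right _ (Finset.mem_image_of_mem _ (Finset.mem_univ i))
  choose T ι ρ hAdm hn using fun j : Finset S × ℕ => hc (A j) j.2 (hA j) (hAx j)
  let U : Ultrafilter (Finset S × ℕ) := Ultrafilter.of atTop
  have hU : (U : Filter (Finset S × ℕ)) ≤ atTop := Ultrafilter.of_le _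
  have hev : ∀ s ∈ S, ∀ᶠ j in (U : Filter (Finset S × ℕ)), s ∈ A j := fun s hs =>
    ((eventually_ge_atTop (({⟨s, hs⟩} : Finset S), 0)).filter_mono hU).mono fun j hj =>
      Finset.mem_union_left _
        (Finset.mem_image.2 ⟨⟨s, hs⟩, hj.1 (Finset.mem_singleton_self _), rfl⟩)
  have hn' : Tendsto (fun j : Finset S × ℕ => j.2) (U : Filter (Finset S × ℕ)) atTop :=
    tendsto_atTop.2 fun n =>
      ((eventually_ge_atTop ((∅ : Finset S), n)).filter_mono hU).mono fun j hj => hj.2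
  obtain ⟨θ, inj, gc, e, -⟩ :=
    hREFL0 Γ a b E S (Set.range h) _ U A (fun j => j.2) T ι ρ hS hev hn' hAdm
  let v : Fin m ⊕ Fin k → S := Sum.elim (fun i => ⟨h i, hh i⟩) fun i => ⟨x i, hx i⟩
  have e1 : (fun i => (v i : MM Γ a)) = Sum.elim h x := by
    funext i
    rcases i with i | i <;> rfl
  have e2 : (fun i => θ (v i)) = fun i => b.mk' U fun j =>
      Sum.elim (fun i => E.hom Γ (h i)) (fun i => (ι j (x i) : MM Γ b)) i := by
    funext i
    rw [e]
    rcases i with i | i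
    · refine (mk'_eq_iff U _ _).2 ?_
      filter_upwards [hev _ (hh i)] with j hj
      exact (hAdm j).fix _ hj (Or.inl ⟨i, rfl⟩)
    · rfl
  have h1 := (hQ a (b.pow U) S θ hS gc inj v).1 (by rwa [e1])
  rw [e2, st_mk'] at h1
  obtain ⟨j, hj⟩ := h1.exists
  exact hn j hj

end Pool.Agent.P.MP_dba3d2_lc
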