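import Pool.Agent.P.MP_dba3d2_lc.E.Iface
import Pool.Agent.P.MP_dba3d2_lc.A.Iface
import Pool.Agent.P.MP_dba3d2_lc.D.Iface
import Pool.Agent.P.MP_dba3d2_lc.E.Bas

/-! Step S1 of the stability project. -/

namespace Pool.Agent.P.MP_dba3d2_lc

open Filter ET

namespace S1

theorem cov {Γ : HG} {a : Amb} {H : Subgroup (MM Γ a)} {μ : a.K} (hμ : Big μ) {y : ball Γ μ}
    (h : (rtAt Γ μ hμ).Cov (H.subgroupOf (ball Γ μ)) y) : Cov μ H (y : MM Γ a) := by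
  obtain ⟨n, p, h0, hn, hs, ha⟩ := h
  let p' : ℕ → ball Γ μ := p
  have hd : ∀ i ∈ Finset.range n, Ls |ds (p' i : MM Γ a) (p' (i + 1))| μ :=
    fun i _ => ls_ds hμ _ _
  refine ⟨n, fun i => p' i, congrArg Subtype.val h0, congrArg Subtype.val hn, ?_, fun i hi => ?_⟩
  · refine ll_of_rl_le hμ.pos (ls_abs_sum _ _ hμ.pos.le hd) (ls_ln hμ y) ?_
    rw [rl_sum _ _ hμ.pos hd]
    exact hs.le
  · obtain ⟨g, k, hk, h1, h2⟩ := ha i hi
    let g' : ball Γ μ := g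
    let k' : ball Γ μ := k
    have e1 := (rt_on hμ (p' i) g' (g' * k')).1 h1
    have e2 := (rt_on hμ (p' (i + 1)) g' (g' * k')).1 h2
    rw [Subgroup.coe_mul] at e1 e2
    exact ⟨g', k', hk, (mem_ball hμ.pos.le).1 k'.2, e1, e2⟩

end S1

theorem p_S1 (hRTA : S_RTA) (hMACH : S_MACH) (hNO1 : S_NO1) (hNO2 : S_NO2) (hNO3 : S_NO3) :
    S_S1 := by
  classical
  intro Γ a H μ m k Q h x hH hμ hQ hh hx hN
  by_contra hc
  let x' : Fin k → ball Γ μ := fun i => ⟨x i, hx i⟩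
  obtain ⟨A1, -, h1⟩ := hNO1 Γ a H μ m k Q h x' hH hμ hQ hh hN
  obtain ⟨A2, -, h2⟩ := hNO2 Γ a H μ m k Q h x' hH hμ hQ hh hN
  obtain ⟨A3, -, h3⟩ := hNO3 Γ a H μ m k Q h x' hH hμ hQ hh hN
  let A : Finset (ball Γ μ) :=
    Finset.univ.image x' ∪ (A1 ∪ A2 ∪ A3).preimage Subtype.val Subtype.val_injective.injOn
  have hA : ∀ w : ball Γ μ, (w : MM Γ a) ∈ A1 ∪ A2 ∪ A3 → w ∈ A := fun w hw =>
    Finset.mem_union_right _ (Finset.mem_preimage.2 hw)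
  have hx' : ∀ i, x' i ∈ A := fun i =>
    Finset.mem_union_left _ (Finset.mem_image_of_mem _ (Finset.mem_univ i))
  let φ : (rtAt Γ μ hμ).W ≃* ball Γ μ := MulEquiv.refl _
  have hφ : ∀ g, (rtAt Γ μ hμ).ℓ g = rl μ (ln (φ g : MM Γ a)) := fun _ => rfl
  have eM : (H.subgroupOf (ball Γ μ)).comap φ.toMonoidHom = H.subgroupOf (ball Γ μ) :=
    Subgroup.ext fun _ => Iff.rfl
  have n1 := h1 _ φ hφ A
    fun w hw => hA w (Finset.mem_union_left _ (Finset.mem_union_left _ hw))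
  have n2 := h2 _ φ hφ A
    fun w hw => hA w (Finset.mem_union_left _ (Finset.mem_union_right _ hw))
  have n3 := h3 _ φ hφ A fun w hw => hA w (Finset.mem_union_right _ hw)
  refine (hMACH _ Γ.e (hRTA Γ a μ _ φ hμ hφ) _ A k _ hx' fun e => hc fun i => ?_).elim n1
    fun o => o.elim n2 n3
  have e' := e i
  rw [eM] at e'
  exact S1.cov hμ e'

end Pool.Agent.P.MP_dba3d2_lc
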